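import Pool.Agent.Work.MP_499dc6_lc.TD.StmtsA

/-! Item A1 of block TD: algebraic elements are simple roots -/

set_option autoImplicit false

namespace Pool.Agent.Work.MP_499dc6_lc.TD

open MvPolynomial Finset
open Pool.Agent.Work.MP_499dc6_lc.CD
open Pool.Agent.Work.MP_499dc6_lc.D3
open Pool.Agent.Work.MP_499dc6_lc.Fib

open scoped PowerSeries

/-- lifting the coefficients -/
lemma A1_lift (F L : Type) [Field F] [CommRing L] [IsDomain L] [Algebra F L] (r : ℕ)
    (g : Fin r → L) (G : L) (h : IsAlgebraic (Algebra.adjoin F (Set.range g)) G) :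
    ∃ Q : Polynomial (MvPolynomial (Fin r) F),
      Q.map (aeval g : MvPolynomial (Fin r) F →ₐ[F] L).toRingHom ≠ 0 ∧
      (Q.map (aeval g : MvPolynomial (Fin r) F →ₐ[F] L).toRingHom).eval G = 0 := by
  rw [Algebra.adjoin_range_eq_range_aeval] at h
  set φ : MvPolynomial (Fin r) F →ₐ[F] L := aeval g with hφ
  obtain ⟨p, hp0, hp⟩ := h
  obtain ⟨Q, hQ⟩ := Polynomial.map_surjective φ.rangeRestrict.toRingHom
    (AlgHom.rangeRestrict_surjective φ) p
  have hcomp : (algebraMap φ.range L).comp φ.rangeRestrict.toRingHom = φ.toRingHom := by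
    ext x <;> rfl
  have hmap : Q.map φ.toRingHom = p.map (algebraMap φ.range L) := by
    rw [← hcomp, ← Polynomial.map_map, hQ]
  refine ⟨Q, ?_, ?_⟩
  · rw [hmap]
    intro h0
    apply hp0
    exact (Polynomial.map_eq_zero_iff (Subtype.val_injective :
      Function.Injective (algebraMap φ.range L))).mp h0
  · rw [hmap, Polynomial.eval_map_algebraMap]
    exact hp

/-- item A1 -/
theorem td_A1 : StA1 := by
  classical
  intro F L _ _ _ _ _ r g G h
  have : CharZero L := charZero_of_injective_algebraMap (algebraMap F L).injective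
  set φ : MvPolynomial (Fin r) F →+* L :=
    (aeval g : MvPolynomial (Fin r) F →ₐ[F] L).toRingHom with hφ
  have hex : ∃ d : ℕ, ∃ Q : Polynomial (MvPolynomial (Fin r) F), Q.map φ ≠ 0 ∧
      (Q.map φ).eval G = 0 ∧ (Q.map φ).natDegree = d := by
    obtain ⟨Q, h1, h2⟩ := A1_lift F L r g G h
    exact ⟨_, Q, h1, h2, rfl⟩
  obtain ⟨Q, hQ0, hQG, hQd⟩ := Nat.find_spec hex
  have hmin : ∀ Q' : Polynomial (MvPolynomial (Fin r) F), Q'.map φ ≠ 0 →
      (Q'.map φ).eval G = 0 → (Q.map φ).natDegree ≤ (Q'.map φ).natDegree := by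
    intro Q' h1 h2
    rw [hQd]
    exact Nat.find_min' hex ⟨Q', h1, h2, rfl⟩
  refine ⟨Q, hQG, ?_⟩
  intro hd
  have hpos : 0 < (Q.map φ).natDegree := by
    rw [Nat.pos_iff_ne_zero]
    intro h0
    rw [Polynomial.natDegree_eq_zero] at h0
    obtain ⟨x, hx⟩ := h0
    rw [← hx] at hQG hQ0
    rw [Polynomial.eval_C] at hQG
    rw [hQG] at hQ0
    exact hQ0 (by simp)
  have hder : Q.derivative.map φ = (Q.map φ).derivative := Polynomial.derivative_map Q φ |>.symm
  have hne : (Q.map φ).derivative ≠ 0 := by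
    intro h0
    have := Polynomial.derivative_eq_zero.mp h0
    omega
  have hlt : (Q.map φ).derivative.natDegree < (Q.map φ).natDegree :=
    Polynomial.natDegree_derivative_lt (by omega)
  have := hmin Q.derivative (by rw [hder]; exact hne) hd
  rw [hder] at this
  omega

end Pool.Agent.Work.MP_499dc6_lc.TD
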