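import Pool.Agent.Work.MP_499dc6_lc.TD.StmtsA

/-! Item A2: one algebraic function, after a substitution which is defined at the base point. -/

set_option autoImplicit false

namespace Pool.Agent.Work.MP_499dc6_lc.TD

open MvPolynomial Finset
open Pool.Agent.Work.MP_499dc6_lc.CD
open Pool.Agent.Work.MP_499dc6_lc.D3
open Pool.Agent.Work.MP_499dc6_lc.Fib

/-- Homogenised evaluation. -/
theorem A2_hom {A R : Type} [CommRing A] [CommRing R] (φ : A →+* R) (q : Polynomial A) (d : ℕ)
    (hd : q.natDegree ≤ d) (t u w : R) (hu : u = t * w) :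
    ∑ i ∈ range (d + 1), φ (q.coeff i) * u ^ i * w ^ (d - i) = w ^ d * (q.map φ).eval t := by
  have h1 : (q.map φ).natDegree < d + 1 :=
    lt_of_le_of_lt (Polynomial.natDegree_map_le) (Nat.lt_succ_of_le hd)
  rw [Polynomial.eval_eq_sum_range' h1, Finset.mul_sum]
  refine Finset.sum_congr rfl fun i hi => ?_
  have hi' : i ≤ d := Nat.lt_succ_iff.1 (Finset.mem_range.1 hi)
  rw [Polynomial.coeff_map, hu, mul_pow]
  have h2 : w ^ d = w ^ i * w ^ (d - i) := by rw [← pow_add, Nat.add_sub_cancel' hi']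
  rw [h2]
  ring

/-- Evaluation and ring homomorphisms. -/
theorem A2_map {F L R : Type} [Field F] [CommRing L] [Algebra F L] [CommRing R] {r : ℕ}
    (g : Fin r → L) (Q : Polynomial (MvPolynomial (Fin r) F)) (G : L) (ψ : L →+* R) :
    ψ (evQ g Q G) =
      (Q.map (ψ.comp (aeval g : MvPolynomial (Fin r) F →ₐ[F] L).toRingHom)).eval (ψ G) := by
  unfold evQ
  rw [Polynomial.eval_map, Polynomial.eval_map, Polynomial.hom_eval₂]

/-- The ideal of the polynomials without monomials of degree at most `Δ`. -/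
def A2_id (F τ : Type) [Field F] (Δ : ℕ) : Ideal (MvPolynomial τ F) where
  carrier := {p | HiD Δ p}
  add_mem' := by
    intro u v hu hv μ hμ
    rw [coeff_add, hu μ hμ, hv μ hμ, add_zero]
  zero_mem' := by
    intro μ _
    exact coeff_zero μ
  smul_mem' := by
    classical
    intro v u hu μ hμ
    rw [smul_eq_mul, mul_comm, coeff_mul]
    refine Finset.sum_eq_zero fun x hx => ?_
    rw [HasAntidiagonal.mem_antidiagonal] at hx
    have h2 : x.1.degree + x.2.degree = μ.degree := by rw [← hx, map_add]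
    rw [hu _ (by omega), zero_mul]

theorem A2_mem {F τ : Type} [Field F] {Δ : ℕ} {p : MvPolynomial τ F} :
    Ideal.Quotient.mk (A2_id F τ Δ) p = 0 ↔ HiD Δ p := by
  rw [Ideal.Quotient.eq_zero_iff_mem]
  exact Iff.rfl

theorem td_A2 (hA1 : StA1) (hA3 : StA3) (hA4 : StA4) : StA2 := by
  classical
  intro F σ _ _ r P t ht
  set ι : MvPolynomial σ F →+* FractionRing (MvPolynomial σ F) :=
    algebraMap (MvPolynomial σ F) (FractionRing (MvPolynomial σ F)) with hι
  have hinj : Function.Injective ι := IsFractionRing.injective _ _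
  set g : Fin r → FractionRing (MvPolynomial σ F) := fun b => ι (P b) with hg
  obtain ⟨Q, hQ, hQ'⟩ := hA1 F (FractionRing (MvPolynomial σ F)) r g t ht
  obtain ⟨U, W, hW, hUW⟩ := IsFractionRing.div_surjective (A := MvPolynomial σ F) t
  have hW0 : W ≠ 0 := nonZeroDivisors.ne_zero hW
  have hιW : ι W ≠ 0 := fun h => hW0 (hinj (by rw [h, map_zero]))
  have htW : t * ι W = ι U := by
    rw [← hUW]
    exact div_mul_cancel₀ _ hιW
  set d := Q.natDegree with hd
  have hd' : Q.derivative.natDegree ≤ d :=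
    (Polynomial.natDegree_derivative_le Q).trans (Nat.sub_le _ _)
  -- the homogenised evaluations
  set aP : MvPolynomial (Fin r) F →+* MvPolynomial σ F :=
    (aeval P : MvPolynomial (Fin r) F →ₐ[F] MvPolynomial σ F).toRingHom with haP
  set H : Polynomial (MvPolynomial (Fin r) F) → MvPolynomial σ F := fun q =>
    ∑ i ∈ range (d + 1), aP (q.coeff i) * U ^ i * W ^ (d - i) with hH
  have hcomp : ι.comp aP =
      (aeval g : MvPolynomial (Fin r) F →ₐ[F] FractionRing (MvPolynomial σ F)).toRingHom := by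
    refine MvPolynomial.ringHom_ext (fun x => ?_) (fun i => ?_)
    · show ι (aeval P (C x)) = aeval g (C x)
      rw [aeval_C, aeval_C, IsScalarTower.algebraMap_apply F (MvPolynomial σ F)
        (FractionRing (MvPolynomial σ F))]
    · show ι (aeval P (X i)) = aeval g (X i)
      rw [aeval_X, aeval_X]
  have hιH : ∀ q : Polynomial (MvPolynomial (Fin r) F), q.natDegree ≤ d →
      ι (H q) = ι W ^ d * evQ g q t := by
    intro q hq
    have h1 := A2_hom (ι.comp aP) q d hq t (ι U) (ι W) htW.symm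
    simp only [hH, map_sum, map_mul, map_pow]
    have h2 : evQ g q t = (q.map (ι.comp aP)).eval t := by
      rw [hcomp]; rfl
    rw [h2, ← h1]
    rfl
  have hH0 : H Q = 0 := by
    refine hinj ?_
    rw [hιH Q le_rfl, hQ, mul_zero, map_zero]
  have hN0 : H Q.derivative ≠ 0 := by
    intro h
    have h1 := hιH Q.derivative hd'
    rw [h, map_zero] at h1
    exact mul_ne_zero (pow_ne_zero d hιW) hQ' h1.symm
  refine ⟨U, W, W * H Q.derivative, mul_ne_zero hW0 hN0, Dvd.intro _ rfl, htW, ?_⟩
  intro τ Θ hΘ Δ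
  rw [map_mul, map_mul] at hΘ
  have hw : constantCoeff (Θ W) ≠ 0 := left_ne_zero_of_mul hΘ
  have hN : constantCoeff (Θ (H Q.derivative)) ≠ 0 := right_ne_zero_of_mul hΘ
  obtain ⟨w', hw1, hw2⟩ := hA4 F τ (Θ W) Δ hw
  set G' : MvPolynomial τ F := Θ U * w' with hG'
  set gT : Fin r → MvPolynomial τ F := fun b => Θ (P b) with hgT
  have hcomp2 : (Θ : MvPolynomial σ F →+* MvPolynomial τ F).comp aP =
      (aeval gT : MvPolynomial (Fin r) F →ₐ[F] MvPolynomial τ F).toRingHom := by
    refine MvPolynomial.ringHom_ext (fun x => ?_) (fun i => ?_)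
    · show Θ (aeval P (C x)) = aeval gT (C x)
      rw [aeval_C, aeval_C]
      exact Θ.commutes x
    · show Θ (aeval P (X i)) = aeval gT (X i)
      rw [aeval_X, aeval_X]
  -- the image of the homogenised evaluation
  have hψ : ∀ (R : Type) [CommRing R] (ψ : MvPolynomial τ F →+* R)
      (q : Polynomial (MvPolynomial (Fin r) F)), q.natDegree ≤ d →
      ψ (Θ U) = ψ G' * ψ (Θ W) → ψ (Θ (H q)) = ψ (Θ W) ^ d * ψ (evQ gT q G') := by
    intro R _ ψ q hq hu
    have h1 := A2_hom (ψ.comp ((Θ : MvPolynomial σ F →+* MvPolynomial τ F).comp aP)) q d hq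
      (ψ G') (ψ (Θ U)) (ψ (Θ W)) hu
    rw [A2_map gT q G' ψ, ← hcomp2, ← h1]
    simp only [hH, map_sum, map_mul, map_pow]
    rfl
  -- the equation holds modulo high degree
  have e1 : HiD Δ (evQ gT Q G') := by
    rw [← A2_mem]
    set π := Ideal.Quotient.mk (A2_id F τ Δ) with hπ
    have hww : π (Θ W) * π w' = 1 := by
      have h2 : π (Θ W * w' - 1) = 0 := A2_mem.2 hw1
      rw [map_sub, map_mul, map_one, sub_eq_zero] at h2
      exact h2
    have hu : π (Θ U) = π G' * π (Θ W) := by
      rw [hG', map_mul]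
      calc π (Θ U) = π (Θ U) * (π (Θ W) * π w') := by rw [hww, mul_one]
        _ = π (Θ U) * π w' * π (Θ W) := by ring
    have h3 := hψ _ π Q le_rfl hu
    rw [hH0, map_zero, map_zero] at h3
    calc π (evQ gT Q G') = (π (Θ W) * π w') ^ d * π (evQ gT Q G') := by
          rw [hww, one_pow, one_mul]
      _ = π w' ^ d * (π (Θ W) ^ d * π (evQ gT Q G')) := by rw [mul_pow]; ring
      _ = 0 := by rw [← h3, mul_zero]
  have e2 : constantCoeff (evQ gT Q.derivative G') ≠ 0 := by
    have hu : (constantCoeff : MvPolynomial τ F →+* F) (Θ U) =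
        constantCoeff G' * constantCoeff (Θ W) := by
      rw [hG', map_mul]
      calc constantCoeff (Θ U) =
          constantCoeff (Θ U) * (constantCoeff (Θ W) * constantCoeff w') := by rw [hw2, mul_one]
        _ = constantCoeff (Θ U) * constantCoeff w' * constantCoeff (Θ W) := by ring
    have h3 := hψ F constantCoeff Q.derivative hd' hu
    intro h4
    rw [h4, mul_zero] at h3
    exact hN h3
  obtain ⟨Φ, hΦ⟩ := hA3 F τ r gT G' Q Δ e1 e2
  refine ⟨Φ, ?_⟩
  rw [← A2_mem] at hΦ hw1 ⊢
  set π := Ideal.Quotient.mk (A2_id F τ Δ) with hπ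
  have h5 : Θ U - Θ W * aeval gT Φ =
      -(Θ U) * (Θ W * w' - 1) + Θ W * (G' - aeval gT Φ) := by
    rw [hG']; ring
  rw [h5, map_add, map_mul, map_mul, hw1, hΦ, mul_zero, mul_zero, add_zero]

end Pool.Agent.Work.MP_499dc6_lc.TD
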