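import Pool.Agent.Work.MP_499dc6_lc.TD.StmtsA

/-! Item A3: Hensel's lemma with polynomials, for a root modulo high degree. -/

set_option autoImplicit false

namespace Pool.Agent.Work.MP_499dc6_lc.TD

open MvPolynomial Finset

section A3
variable {F τ : Type} [Field F]

theorem A3_add {d : ℕ} {u v : MvPolynomial τ F} (hu : HiD d u) (hv : HiD d v) : HiD d (u + v) := by
  intro μ hμ
  rw [coeff_add, hu μ hμ, hv μ hμ, add_zero]

theorem A3_neg {d : ℕ} {u : MvPolynomial τ F} (hu : HiD d u) : HiD d (-u) := by
  intro μ hμ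
  rw [coeff_neg, hu μ hμ, neg_zero]

theorem A3_C {d : ℕ} {u : MvPolynomial τ F} (hu : HiD d u) (c : F) : HiD d (C c * u) := by
  intro μ hμ
  rw [coeff_C_mul, hu μ hμ, mul_zero]

theorem A3_mono {d d' : ℕ} (h : d' ≤ d) {u : MvPolynomial τ F} (hu : HiD d u) : HiD d' u :=
  fun μ hμ => hu μ (hμ.trans h)

theorem A3_mul {d d' : ℕ} {u v : MvPolynomial τ F} (hu : HiD d u) (hv : HiD d' v) :
    HiD (d + d' + 1) (u * v) := by
  classical
  intro μ hμ
  rw [coeff_mul]
  refine Finset.sum_eq_zero fun x hx => ?_
  rw [HasAntidiagonal.mem_antidiagonal] at hx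
  by_cases h1 : x.1.degree ≤ d
  · rw [hu _ h1, zero_mul]
  · have h2 : x.1.degree + x.2.degree = μ.degree := by rw [← hx, map_add]
    rw [hv _ (by omega), mul_zero]

theorem A3_mul_any {d : ℕ} {u v : MvPolynomial τ F} (hu : HiD d u) : HiD d (u * v) := by
  classical
  intro μ hμ
  rw [coeff_mul]
  refine Finset.sum_eq_zero fun x hx => ?_
  rw [HasAntidiagonal.mem_antidiagonal] at hx
  have h2 : x.1.degree + x.2.degree = μ.degree := by rw [← hx, map_add]
  rw [hu _ (by omega), zero_mul]

theorem A3_const (u : MvPolynomial τ F) : HiD 0 (u - C (constantCoeff u)) := by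
  classical
  intro μ hμ
  have h0 : μ = 0 := (Finsupp.degree_eq_zero_iff μ).1 (Nat.le_zero.1 hμ)
  subst h0
  rw [coeff_sub, coeff_C, if_pos rfl, constantCoeff_eq, sub_self]

end A3

theorem td_A3 : StA3 := by
  classical
  intro F τ _ r g G Q Δ hQ hQ'
  set φ : MvPolynomial (Fin r) F →+* MvPolynomial τ F :=
    (aeval g : MvPolynomial (Fin r) F →ₐ[F] MvPolynomial τ F).toRingHom with hφ
  replace hQ : HiD Δ ((Q.map φ).eval G) := hQ
  set c : Fin r → F := fun i => constantCoeff (g i) with hc
  set h : Fin r → MvPolynomial τ F := fun i => g i - C (constantCoeff (g i)) with hh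
  set lam : F := constantCoeff ((Q.derivative.map φ).eval G) with hlam
  replace hQ' : lam ≠ 0 := hQ'
  -- the shift of the variables
  set s : MvPolynomial (Fin r) F →ₐ[F] MvPolynomial (Fin r) F := aeval (fun i => X i + C (c i))
    with hs
  have hcomp : (aeval h : MvPolynomial (Fin r) F →ₐ[F] MvPolynomial τ F).toRingHom.comp
      s.toRingHom = φ := by
    refine MvPolynomial.ringHom_ext (fun x => ?_) (fun i => ?_)
    · show aeval h (s (C x)) = aeval g (C x)
      simp [hs]
    · show aeval h (s (X i)) = aeval g (X i)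
      simp only [hs, aeval_X, map_add, aeval_C, algebraMap_eq]
      simp only [hh, hc, sub_add_cancel]
  have hev : ∀ p : MvPolynomial (Fin r) F,
      aeval h ((Q.map s.toRingHom).eval p) = (Q.map φ).eval (aeval h p) := by
    intro p
    have h1 : (aeval h : MvPolynomial (Fin r) F →ₐ[F] MvPolynomial τ F).toRingHom
        ((Q.map s.toRingHom).eval p) =
        ((Q.map s.toRingHom).map
          (aeval h : MvPolynomial (Fin r) F →ₐ[F] MvPolynomial τ F).toRingHom).eval
          ((aeval h : MvPolynomial (Fin r) F →ₐ[F] MvPolynomial τ F).toRingHom p) :=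
      (Polynomial.eval_map_apply _ _).symm
    rw [Polynomial.map_map, hcomp] at h1
    exact h1
  have key : ∀ δ : ℕ, δ ≤ Δ → ∃ Φ : MvPolynomial (Fin r) F, HiD δ (G - aeval h Φ) := by
    intro δ
    induction δ with
    | zero =>
      intro _
      refine ⟨C (constantCoeff G), ?_⟩
      rw [aeval_C, algebraMap_eq]
      exact A3_const G
    | succ δ ih =>
      intro hδ
      obtain ⟨Φ, hΦ⟩ := ih (by omega)
      set e : MvPolynomial τ F := G - aeval h Φ with he
      obtain ⟨w, hw⟩ : ∃ w, (Q.map φ).eval (G + -e) =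
          (Q.map φ).eval G + (Q.map φ).derivative.eval G * (-e) + w * (-e) ^ 2 := by
        obtain ⟨k, hk⟩ := (Q.map φ).binomExpansion G (-e)
        exact ⟨k, hk⟩
      have hGe : G + -e = aeval h Φ := by rw [he]; ring
      rw [hGe] at hw
      have hd : (Q.map φ).derivative = Q.derivative.map φ := Polynomial.derivative_map _ _
      rw [hd] at hw
      -- the remainder
      have hrem : HiD (δ + 1) ((Q.map φ).eval (aeval h Φ) + C lam * e) := by
        have h1 : (Q.map φ).eval (aeval h Φ) + C lam * e =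
            (Q.map φ).eval G +
              (-(e * ((Q.derivative.map φ).eval G - C lam)) + (e * e) * w) := by
          rw [hw]; ring
        rw [h1]
        refine A3_add (A3_mono hδ hQ) (A3_add (A3_neg ?_) (A3_mul_any ?_))
        · have := A3_mul hΦ (A3_const ((Q.derivative.map φ).eval G))
          simpa using this
        · exact A3_mono (by omega) (A3_mul hΦ hΦ)
      refine ⟨Φ - C lam⁻¹ * (Q.map s.toRingHom).eval Φ, ?_⟩
      have h2 : G - aeval h (Φ - C lam⁻¹ * (Q.map s.toRingHom).eval Φ) =
          C lam⁻¹ * ((Q.map φ).eval (aeval h Φ) + C lam * e) := by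
        rw [map_sub, map_mul, hev, aeval_C, algebraMap_eq]
        have h3 : (C lam⁻¹ * C lam : MvPolynomial τ F) = 1 := by
          rw [← C_mul, inv_mul_cancel₀ hQ', C_1]
        have h4 : G = aeval h Φ + e := by rw [he]; ring
        rw [h4]
        linear_combination -e * h3
      rw [h2]
      exact A3_C hrem _
  obtain ⟨Φ, hΦ⟩ := key Δ le_rfl
  refine ⟨aeval (fun i => X i - C (c i)) Φ, ?_⟩
  have h5 : aeval g (aeval (fun i => (X i - C (c i) : MvPolynomial (Fin r) F)) Φ) =
      aeval h Φ := by
    rw [← AlgHom.comp_apply]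
    congr 1
    refine MvPolynomial.algHom_ext fun i => ?_
    simp only [AlgHom.comp_apply, aeval_X, map_sub, aeval_C, algebraMap_eq]
    simp only [hh, hc]
  rw [h5]
  exact hΦ

end Pool.Agent.Work.MP_499dc6_lc.TD
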