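import Pool.Agent.Work.MP_499dc6_lc.TD.StmtsA

set_option autoImplicit false

/-!
# Item A4: the truncated inverse
-/

namespace Pool.Agent.Work.MP_499dc6_lc.TD

open MvPolynomial Finset
open Pool.Agent.Work.MP_499dc6_lc.CD
open Pool.Agent.Work.MP_499dc6_lc.D3
open Pool.Agent.Work.MP_499dc6_lc.Fib

open scoped PowerSeries

theorem A4_mul {F σ : Type} [Field F] {d d' : ℕ} {u v : MvPolynomial σ F} (hu : HiD d u)
    (hv : HiD d' v) : HiD (d + d' + 1) (u * v) := by
  classical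
  intro μ hμ
  rw [coeff_mul]
  refine Finset.sum_eq_zero fun x hx => ?_
  rw [HasAntidiagonal.mem_antidiagonal] at hx
  have hdeg : x.1.degree + x.2.degree = μ.degree := by
    rw [← hx, map_add]
  by_cases h : x.1.degree ≤ d
  · rw [hu _ h, zero_mul]
  · rw [hv _ (by omega), mul_zero]

theorem A4_pow {F σ : Type} [Field F] {x : MvPolynomial σ F} (hx : HiD 0 x) (n : ℕ) :
    HiD n (x ^ (n + 1)) := by
  induction n with
  | zero => rwa [zero_add, pow_one]
  | succ n ih =>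
    rw [pow_succ]
    exact A4_mul ih hx

theorem td_A4 : StA4 := by
  intro F τ _ w Δ hw
  set a : F := constantCoeff w with ha
  set x : MvPolynomial τ F := 1 - C a⁻¹ * w with hx
  have hcx : constantCoeff x = 0 := by
    rw [hx, map_sub, map_one, map_mul, constantCoeff_C, ← ha, inv_mul_cancel₀ hw, sub_self]
  have hx0 : HiD 0 x := by
    intro μ hμ
    have h0 : μ = 0 := by
      rw [Nat.le_zero, Finsupp.degree_eq_zero_iff] at hμ
      exact hμ
    rw [h0]
    exact hcx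
  have hprod : w * (C a⁻¹ * ∑ n ∈ range (Δ + 1), x ^ n) = 1 - x ^ (Δ + 1) := by
    have h1 : w * (C a⁻¹ * ∑ n ∈ range (Δ + 1), x ^ n) =
        (C a⁻¹ * w) * ∑ n ∈ range (Δ + 1), x ^ n := by ring
    have h2 : C a⁻¹ * w = 1 - x := by rw [hx]; ring
    rw [h1, h2, mul_comm]
    exact geom_sum_mul_neg x (Δ + 1)
  refine ⟨C a⁻¹ * ∑ n ∈ range (Δ + 1), x ^ n, ?_, ?_⟩
  · rw [hprod]
    intro μ hμ
    have h3 : (1 - x ^ (Δ + 1) - 1 : MvPolynomial τ F) = -(x ^ (Δ + 1)) := by ring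
    rw [h3, coeff_neg, A4_pow hx0 Δ μ hμ, neg_zero]
  · rw [← map_mul, hprod, map_sub, map_one, map_pow, hcx, zero_pow (Nat.succ_ne_zero Δ), sub_zero]

end Pool.Agent.Work.MP_499dc6_lc.TD
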