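import Pool.Agent.Work.MP_499dc6_lc.TD.StmtsA

namespace Pool.Agent.Work.MP_499dc6_lc.TD

open MvPolynomial Finset
open Pool.Agent.Work.MP_499dc6_lc.CD
open Pool.Agent.Work.MP_499dc6_lc.D3
open Pool.Agent.Work.MP_499dc6_lc.Fib

open scoped PowerSeries

theorem AL_mul {F τ : Type} [Field F] {Δ : ℕ} (q : MvPolynomial τ F) {p : MvPolynomial τ F}
    (hp : HiD Δ p) : HiD Δ (q * p) := by
  classical
  intro μ hμ
  rw [coeff_mul]
  refine Finset.sum_eq_zero fun x hx => ?_
  have hx' : x.1 + x.2 = μ := by simpa using hx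
  have hdeg : x.2.degree ≤ Δ := by
    have h1 : x.1.degree + x.2.degree = μ.degree := by rw [← hx', map_add]
    omega
  rw [hp x.2 hdeg, mul_zero]

/-- The ideal of polynomials all of whose monomials have degree larger than `Δ`. -/
def AL_I (F τ : Type) [Field F] (Δ : ℕ) : Ideal (MvPolynomial τ F) where
  carrier := {p | HiD Δ p}
  zero_mem' := fun μ _ => by simp
  add_mem' := fun {a b} ha hb μ hμ => by rw [coeff_add, ha μ hμ, hb μ hμ, add_zero]
  smul_mem' := fun c p hp => AL_mul c hp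

theorem AL_mem {F τ : Type} [Field F] {Δ : ℕ} (p : MvPolynomial τ F) :
    HiD Δ p ↔ Ideal.Quotient.mk (AL_I F τ Δ) p = 0 := by
  rw [Ideal.Quotient.eq_zero_iff_mem]
  exact Iff.rfl

theorem td_AL (hA2 : StA2) (hA4 : StA4) : StAL := by
  intro F σ _ _ S p P t T ht hsum
  choose U W D hD hWD hU hΦ using fun i => hA2 F σ p (P i) (t i) (ht i)
  refine ⟨∏ i, D i, Finset.prod_ne_zero_iff.2 fun i _ => hD i, ?_⟩
  intro τ Θ hc Δ
  have hcD : ∀ i, constantCoeff (Θ (D i)) ≠ 0 := by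
    intro i
    have h1 : constantCoeff (Θ (∏ i, D i)) = ∏ i, constantCoeff (Θ (D i)) := by
      rw [map_prod, map_prod]
    rw [h1] at hc
    exact Finset.prod_ne_zero_iff.1 hc i (Finset.mem_univ i)
  choose Φ hf using fun i => hΦ i τ Θ (hcD i) Δ
  refine ⟨Φ, ?_⟩
  have key : T * ∏ l, W l = ∑ i, U i * ∏ l ∈ Finset.univ.erase i, W l := by
    apply IsFractionRing.injective (MvPolynomial σ F) (FractionRing (MvPolynomial σ F))
    rw [map_mul, ← hsum, map_sum, Finset.sum_mul]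
    refine Finset.sum_congr rfl fun i _ => ?_
    rw [map_mul, ← hU i, ← Finset.mul_prod_erase Finset.univ W (Finset.mem_univ i), map_mul]
    ring
  have hcW : ∀ i, constantCoeff (Θ (W i)) ≠ 0 := by
    intro i h0
    obtain ⟨c, hc'⟩ := hWD i
    apply hcD i
    rw [hc', map_mul, map_mul, h0, zero_mul]
  have hw : constantCoeff (∏ l, Θ (W l)) ≠ 0 := by
    rw [map_prod]
    exact Finset.prod_ne_zero_iff.2 fun i _ => hcW i
  obtain ⟨w', hw', -⟩ := hA4 F τ (∏ l, Θ (W l)) Δ hw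
  set π := Ideal.Quotient.mk (AL_I F τ Δ) with hπ
  rw [AL_mem, ← hπ] at hw' ⊢
  have hf' : ∀ i, π (Θ (U i)) = π (Θ (W i)) * π (aeval (fun b => Θ (P i b)) (Φ i)) := by
    intro i
    have h1 := (AL_mem _).1 (hf i)
    rw [← hπ, map_sub, map_mul, sub_eq_zero] at h1
    exact h1
  have h2 : π (Θ T) * ∏ l, π (Θ (W l)) =
      (∑ i, π (aeval (fun b => Θ (P i b)) (Φ i))) * ∏ l, π (Θ (W l)) := by
    have h3 := congrArg (fun q => π (Θ q)) key
    simp only [map_mul, map_sum, map_prod] at h3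
    rw [h3, Finset.sum_mul]
    refine Finset.sum_congr rfl fun i _ => ?_
    rw [hf' i, ← Finset.mul_prod_erase Finset.univ (fun l => π (Θ (W l))) (Finset.mem_univ i)]
    ring
  have h4 : (∏ l, π (Θ (W l))) * π w' = 1 := by
    rw [map_sub, map_mul, map_prod, map_one, sub_eq_zero] at hw'
    exact hw'
  rw [map_sub, map_sum, sub_eq_zero]
  calc π (Θ T) = π (Θ T) * ((∏ l, π (Θ (W l))) * π w') := by rw [h4, mul_one]
    _ = (π (Θ T) * ∏ l, π (Θ (W l))) * π w' := by ring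
    _ = ((∑ i, π (aeval (fun b => Θ (P i b)) (Φ i))) * ∏ l, π (Θ (W l))) * π w' := by rw [h2]
    _ = (∑ i, π (aeval (fun b => Θ (P i b)) (Φ i))) * ((∏ l, π (Θ (W l))) * π w') := by ring
    _ = ∑ i, π (aeval (fun b => Θ (P i b)) (Φ i)) := by rw [h4, mul_one]

end Pool.Agent.Work.MP_499dc6_lc.TD
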