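import Pool.Agent.Work.MP_499dc6_lc.TD.Defs

/-!
# Depth three with determinants, algebraic functions: statements

Every docstring is the complete proof. Item `X`: file `TD/I_X.lean`, theorem `td_X : StX` (hypotheses: earlier
statements, as named), namespace `Pool.Agent.Work.MP_499dc6_lc.TD`.
-/

namespace Pool.Agent.Work.MP_499dc6_lc.TD

open MvPolynomial Finset
open Pool.Agent.Work.MP_499dc6_lc.CD
open Pool.Agent.Work.MP_499dc6_lc.D3
open Pool.Agent.Work.MP_499dc6_lc.Fib

open scoped PowerSeries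

/-- All monomials of `p` have degree larger than `Δ`. -/
def HiD {F σ : Type} [Field F] (Δ : ℕ) (p : MvPolynomial σ F) : Prop :=
  ∀ μ : σ →₀ ℕ, μ.degree ≤ Δ → coeff μ p = 0

/-- The value at `G` of the polynomial `Q` with coefficients evaluated at `g`. -/
noncomputable def evQ {F L : Type} [Field F] [CommRing L] [Algebra F L] {r : ℕ} (g : Fin r → L)
    (Q : Polynomial (MvPolynomial (Fin r) F)) (G : L) : L :=
  (Q.map (aeval g : MvPolynomial (Fin r) F →ₐ[F] L).toRingHom).eval G

/-- [A1] EASY (copy of `MP_104cea_lc/DF/I_T1.lean`, where `L` is a ring of polynomials). Algebraic elements are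
simple roots. `adjoin` is the range of `φ = aeval g` (`Algebra.adjoin_range_eq_range_aeval`). Lift the
coefficients of a nonzero polynomial which kills `G`: there is `Q` with `Q.map φ ≠ 0` and
`(Q.map φ).eval G = 0`. Take one with `(Q.map φ).natDegree` minimal. This degree is positive, so
`Q.derivative.map φ = (Q.map φ).derivative` is not zero (characteristic zero, `L` a domain) and of smaller degree; it
does not vanish at `G`. -/
def StA1 : Prop :=
  ∀ (F L : Type) [Field F] [CharZero F] [CommRing L] [IsDomain L] [Algebra F L] (r : ℕ)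
    (g : Fin r → L) (G : L), IsAlgebraic (Algebra.adjoin F (Set.range g)) G →
    ∃ Q : Polynomial (MvPolynomial (Fin r) F), evQ g Q G = 0 ∧ evQ g Q.derivative G ≠ 0

/-- [A3] EASY-MEDIUM (almost a copy of `MP_104cea_lc/DF/I_T3.lean`, there with `= 0` instead of `HiD Δ` in the
hypothesis). Hensel's lemma with polynomials. `c i = constantCoeff (g i)`, `h i = g i - C (c i)`,
`λ = constantCoeff (Q' (G)) ≠ 0`. Claim by induction on `δ ≤ Δ`: there is `Φ` with `HiD δ (G - aeval h Φ)`. `δ = 0`: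
`Φ = C (constantCoeff G)`. Step: `e = G - aeval h Φ`, `HiD δ e`. Taylor: `Q (G - e) = Q (G) - e Q' (G) + e ^ 2 w`, so
`Q (aeval h Φ) + λ e = Q (G) - e (Q' (G) - C λ) + e ^ 2 w` satisfies `HiD (δ + 1)` as `δ + 1 ≤ Δ`. Put
`Φ' = Φ - C λ⁻¹ * (Q with coefficients shifted by c).eval Φ`. Then `G - aeval h Φ' = e + λ⁻¹ Q (aeval h Φ)` satisfies
`HiD (δ + 1)`. At the end `aeval h Φ = aeval g (Φ shifted by -c)`. -/
def StA3 : Prop :=
  ∀ (F τ : Type) [Field F] (r : ℕ) (g : Fin r → MvPolynomial τ F) (G : MvPolynomial τ F)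
    (Q : Polynomial (MvPolynomial (Fin r) F)) (Δ : ℕ), HiD Δ (evQ g Q G) →
    constantCoeff (evQ g Q.derivative G) ≠ 0 →
    ∃ Φ : MvPolynomial (Fin r) F, HiD Δ (G - aeval g Φ)

/-- [A4] EASY. The truncated inverse: `a = constantCoeff w`, `x = 1 - C a⁻¹ * w` has constant coefficient `0`,
`w' = C a⁻¹ * ∑ n ≤ Δ, x ^ n`, `w * w' = 1 - x ^ (Δ + 1)` (geometric sum), and `x ^ (Δ + 1)` has no monomial of degree
at most `Δ` (`T3_mul` in `MP_104cea_lc/DF/I_T3.lean`: `HiD d u`, `HiD d' v` imply `HiD (d + d' + 1) (u v)`). -/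
def StA4 : Prop :=
  ∀ (F τ : Type) [Field F] (w : MvPolynomial τ F) (Δ : ℕ), constantCoeff w ≠ 0 →
    ∃ w' : MvPolynomial τ F, HiD Δ (w * w' - 1) ∧ constantCoeff w * constantCoeff w' = 1

/-- [A2] MEDIUM (hA1 : StA1) (hA3 : StA3) (hA4 : StA4). Let `L` be the fraction field, `g b = algebraMap (P b)`,
`t = U / W`, `W ≠ 0`, `Q` from A1, `d` a number at least `Q.natDegree`. Put
`H = ∑ i ≤ d, aeval P (Q.coeff i) * U ^ i * W ^ (d - i)` and `N` the same with `Q.derivative`; in `L` these are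
`W ^ d * evQ g Q t = 0` and `W ^ d * evQ g Q.derivative t ≠ 0`, so `H = 0`, `N ≠ 0` (the polynomials embed in
`L`). `D = W * N`. Let `constantCoeff (Θ D) ≠ 0`, `w = Θ W`, `u = Θ U`, `w'` from A4, `G' = u * w'`, `gΘ b = Θ (P b)`. The
polynomials with `HiD Δ` are an ideal, modulo which `w w' = 1`, so
`evQ gΘ Q G' = ∑ Θ (aeval P (Q.coeff i)) u ^ i w' ^ i` is congruent to `w' ^ d * Θ H = 0`, and
`evQ gΘ Q.derivative G'` to `w' ^ d * Θ N`, with constant coefficient not `0`. A3 gives `Φ` with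
`HiD Δ (G' - aeval gΘ Φ)`; multiply by `w`: `w G' = u w w'` is congruent to `u`. -/
def StA2 : Prop :=
  ∀ (F σ : Type) [Field F] [CharZero F] (r : ℕ) (P : Fin r → MvPolynomial σ F)
    (t : FractionRing (MvPolynomial σ F)),
    IsAlgebraic (Algebra.adjoin F (Set.range fun b =>
      algebraMap (MvPolynomial σ F) (FractionRing (MvPolynomial σ F)) (P b))) t →
    ∃ U W D : MvPolynomial σ F, D ≠ 0 ∧ W ∣ D ∧
      t * algebraMap (MvPolynomial σ F) (FractionRing (MvPolynomial σ F)) W =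
        algebraMap (MvPolynomial σ F) (FractionRing (MvPolynomial σ F)) U ∧
      ∀ (τ : Type) (Θ : MvPolynomial σ F →ₐ[F] MvPolynomial τ F), constantCoeff (Θ D) ≠ 0 →
        ∀ Δ : ℕ, ∃ Φ : MvPolynomial (Fin r) F, HiD Δ (Θ U - Θ W * aeval (fun b => Θ (P b)) Φ)

/-- [AL] EASY-MEDIUM (hA2 : StA2) (hA4 : StA4). `U i`, `W i`, `D i` from A2 for every term, `D = ∏ D i`. As
`W i ∣ D i`, `W i ≠ 0`, so `t i = U i / W i`, and multiplying the sum by `∏ W l` gives in the ring of
polynomials `T * ∏ W l = ∑ i, U i * ∏ l ≠ i, W l`. Apply `Θ`. Modulo `HiD Δ` (an ideal) `Θ (U i)` is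
`Θ (W i) * f i`, `f i = aeval (..) (Φ i)`, so `(Θ T - ∑ f i) * ∏ Θ (W l)` is `0` modulo `HiD Δ`; multiply by the
truncated inverse of the product (A4; `Θ (W l)` divides `Θ D`, so its constant coefficient is not `0`). -/
def StAL : Prop :=
  ∀ (F σ : Type) [Field F] [CharZero F] (S p : ℕ) (P : Fin S → Fin p → MvPolynomial σ F)
    (t : Fin S → FractionRing (MvPolynomial σ F)) (T : MvPolynomial σ F),
    (∀ i, IsAlgebraic (Algebra.adjoin F (Set.range fun b =>
      algebraMap (MvPolynomial σ F) (FractionRing (MvPolynomial σ F)) (P i b))) (t i)) →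
    ∑ i, t i = algebraMap (MvPolynomial σ F) (FractionRing (MvPolynomial σ F)) T →
    ∃ D : MvPolynomial σ F, D ≠ 0 ∧
      ∀ (τ : Type) (Θ : MvPolynomial σ F →ₐ[F] MvPolynomial τ F), constantCoeff (Θ D) ≠ 0 →
        ∀ Δ : ℕ, ∃ Φ : Fin S → MvPolynomial (Fin p) F,
          HiD Δ (Θ T - ∑ i, aeval (fun b => Θ (P i b)) (Φ i))

/-- [RG] MEDIUM (hM : S_Minor, landed `pr_Minor`; model: `pr_RankK` in `Bd/B09.lean`). Let `d` be the rank on
the left; a minor (rows `r`, columns `c`) of size `d` of `mat P` over `ℤ` has determinant `m ≠ 0`. For any ring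
homomorphism `mat (map φ f) = (mat f).map φ` (`RankLow_map`). Over the ring `k[σ]` let
`f = bc a b (aeval (fun v => C (X v) + map C (M v)) (map C F))` (coefficients in `MvPolynomial σ k`) and
`δ` the determinant of the same submatrix of `mat f`. The evaluation at `x` maps `f` to
`bc a b (aeval (fun v => C (x v) + M v) F)` (`bc_map`), so `eval x δ` is the minor for `x`; at `x = c` it is
`c₀ ^ d * m ≠ 0` (as `mat (C c₀ * g) = c₀ • mat g`), so `δ ≠ 0`. If `eval x δ ≠ 0`: the minor of the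
matrix over `k⟦X⟧` has the constant coefficient `eval x δ ≠ 0`, so it is not zero over the Laurent
series, and the rank is at least `d` (last lines of `pr_RankK`). -/
def StRG : Prop :=
  ∀ (Y Z σ : Type) [Fintype Y] [Fintype Z] [DecidableEq Y] [DecidableEq Z] (k : Type) [Field k]
    [CharZero k] (F : MvPolynomial σ k) (c : σ → k) (M : σ → MvPolynomial (Y ⊕ Z) k) (c₀ : k)
    (P : MvPolynomial (Y ⊕ Z) ℤ) (a b p q p' q' : ℕ), c₀ ≠ 0 →
    bc a b (aeval (fun v => C (c v) + M v) F) = C c₀ * MvPolynomial.map (Int.castRingHom k) P →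
    ∃ δ : MvPolynomial σ k, δ ≠ 0 ∧ ∀ x : σ → k, eval x δ ≠ 0 → ∀ R : MvPolynomial (Y ⊕ Z) k⟦X⟧,
      (mat (MvPolynomial.map (Int.castRingHom ℝ) P) p q p' q').rank ≤
        (mat (MvPolynomial.map (algebraMap k⟦X⟧ (LaurentSeries k))
          (MvPolynomial.map (PowerSeries.C (R := k))
            (bc a b (aeval (fun v => C (x v) + M v) F)) + C PowerSeries.X * R)) p q p' q').rank

/-- [BP] EASY (copy of `MP_104cea_lc/DF/I_T2.lean`). A base point in the small field: the product of the `D s` is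
not zero; a nonzero polynomial over a domain does not vanish on `E ^ σ` for an infinite set `E` (here the image
of `k`). -/
def StBP : Prop :=
  ∀ (k σ : Type) [Field k] [CharZero k] [Finite σ] (n : ℕ)
    (D : Fin n → MvPolynomial σ (LaurentSeries k)), (∀ s, D s ≠ 0) →
    ∃ x : σ → k, ∀ s, eval (fun v => algebraMap k⟦X⟧ (LaurentSeries k) (PowerSeries.C (x v)))
      (D s) ≠ 0

end Pool.Agent.Work.MP_499dc6_lc.TD
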