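import Mathlib
import Pool.Agent.Work.MP_499dc6_lc.TD.StmtsA

/-!
# Item BP: a base point in the small field
-/

set_option autoImplicit false

namespace Pool.Agent.Work.MP_499dc6_lc.TD

open MvPolynomial

open scoped PowerSeries

/-- the embedding of the constants -/
noncomputable def bpEmb (k : Type) [Field k] : k →+* LaurentSeries k :=
  (algebraMap k⟦X⟧ (LaurentSeries k)).comp (PowerSeries.C (R := k))

theorem bp_infinite (k : Type) [Field k] [CharZero k] :
    (Set.range (bpEmb k)).Infinite :=
  Set.infinite_range_of_injective (bpEmb k).injective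

theorem td_BP : StBP := by
  intro k σ _ _ _ n D hD
  have hP : ∏ s, D s ≠ 0 := Finset.prod_ne_zero_iff.2 fun s _ => hD s
  by_contra hcon
  push Not at hcon
  apply hP
  refine MvPolynomial.funext_set (fun _ => Set.range (bpEmb k)) (fun _ => bp_infinite k)
    fun x hx => ?_
  have hx' : ∀ v, ∃ b : k, bpEmb k b = x v := fun v => hx v (Set.mem_univ v)
  choose a ha using hx'
  have hxa : x = fun v => bpEmb k (a v) := funext fun v => (ha v).symm
  obtain ⟨s, hs⟩ := hcon a
  rw [hxa, map_prod, map_zero]
  exact Finset.prod_eq_zero (Finset.mem_univ s) hs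

end Pool.Agent.Work.MP_499dc6_lc.TD
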