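import Pool.Agent.Work.MP_499dc6_lc.TD.StmtsA
import Pool.Agent.Work.MP_499dc6_lc.Bd.B09

/-!
# Depth three with determinants, algebraic functions: item RG (rank at a general point)
-/

set_option autoImplicit false

namespace Pool.Agent.Work.MP_499dc6_lc.TD

open MvPolynomial Finset
open Pool.Agent.Work.MP_499dc6_lc.CD
open Pool.Agent.Work.MP_499dc6_lc.D3
open Pool.Agent.Work.MP_499dc6_lc.Fib

open scoped PowerSeries

/-- The polynomial at the general point. -/
noncomputable def RG_gen {Y Z σ k : Type} [Field k] (F : MvPolynomial σ k)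
    (M : σ → MvPolynomial (Y ⊕ Z) k) : MvPolynomial (Y ⊕ Z) (MvPolynomial σ k) :=
  eval₂ ((C : MvPolynomial σ k →+* MvPolynomial (Y ⊕ Z) (MvPolynomial σ k)).comp
    (C : k →+* MvPolynomial σ k)) (fun v => C (X v) + MvPolynomial.map C (M v)) F

theorem RG_map_gen {Y Z σ k : Type} [Field k] (F : MvPolynomial σ k)
    (M : σ → MvPolynomial (Y ⊕ Z) k) (x : σ → k) :
    MvPolynomial.map (eval x) (RG_gen F M) = aeval (fun v => C (x v) + M v) F := by
  unfold RG_gen
  rw [eval₂_comp_left, aeval_def]
  have h1 : (MvPolynomial.map (eval x)).comp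
      ((C : MvPolynomial σ k →+* MvPolynomial (Y ⊕ Z) (MvPolynomial σ k)).comp
        (C : k →+* MvPolynomial σ k)) = algebraMap k (MvPolynomial (Y ⊕ Z) k) := by
    ext r
    simp
  have h2 : (⇑(MvPolynomial.map (σ := Y ⊕ Z) (eval x)) ∘
      fun v => C (X v) + MvPolynomial.map C (M v)) = fun v => C (x v) + M v := by
    funext v
    have h3 : (eval x).comp (C : k →+* MvPolynomial σ k) = RingHom.id k := by
      ext r
      simp
    have h4 : MvPolynomial.map (eval x) (MvPolynomial.map C (M v)) = M v := by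
      rw [MvPolynomial.map_map, h3, MvPolynomial.map_id]
    simp only [Function.comp_apply, map_add, map_C, eval_X, h4]
  rw [h1, h2]

theorem RG_minor {Y Z σ : Type} [Fintype Y] [Fintype Z] [DecidableEq Y] [DecidableEq Z] {k : Type}
    [Field k] (f : MvPolynomial (Y ⊕ Z) (MvPolynomial σ k)) (p q p' q' d : ℕ)
    (r : Fin d → Mon Y p' × Mon Z q') (cc : Fin d → Mon Y p × Mon Z q) (x : σ → k) :
    eval x ((mat f p q p' q').submatrix r cc).det =
      ((mat (MvPolynomial.map (eval x) f) p q p' q').submatrix r cc).det := by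
  rw [RingHom.map_det, RankLow_map]
  rfl

theorem RG_low {Y Z : Type} [Fintype Y] [Fintype Z] [DecidableEq Y] [DecidableEq Z] {k : Type}
    [Field k] (g : MvPolynomial (Y ⊕ Z) k) (R : MvPolynomial (Y ⊕ Z) k⟦X⟧) (p q p' q' d : ℕ)
    (r : Fin d → Mon Y p' × Mon Z q') (cc : Fin d → Mon Y p × Mon Z q)
    (h : ((mat g p q p' q').submatrix r cc).det ≠ 0) :
    d ≤ (mat (MvPolynomial.map (algebraMap k⟦X⟧ (LaurentSeries k))
          (MvPolynomial.map (PowerSeries.C (R := k)) g + C PowerSeries.X * R)) p q p' q').rank := by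
  classical
  set A0 : Matrix (Fin d) (Fin d) k := (mat g p q p' q').submatrix r cc with hA0
  set A : Matrix (Fin d) (Fin d) (PowerSeries k) :=
    (mat (MvPolynomial.map (PowerSeries.C (R := k)) g + C PowerSeries.X * R)
      p q p' q').submatrix r cc with hA
  have hA1 : A = (PowerSeries.C (R := k)).mapMatrix A0 +
      (PowerSeries.X : PowerSeries k) • (mat R p q p' q').submatrix r cc := by
    rw [hA, RankLow_add, RankLow_C, RankLow_map]
    rfl
  have h1 : (PowerSeries.constantCoeff (R := k)) A.det = A0.det := by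
    rw [RingHom.map_det]
    have h2 : (PowerSeries.constantCoeff (R := k)).mapMatrix A = A0 := by
      rw [hA1, map_add]
      have h3 : (PowerSeries.constantCoeff (R := k)).mapMatrix
          ((PowerSeries.X : PowerSeries k) • (mat R p q p' q').submatrix r cc) = 0 := by
        ext i j
        simp
      rw [h3, add_zero]
      ext i j
      simp
    rw [h2]
  have h2 : A.det ≠ 0 := by
    intro h3
    rw [h3, map_zero] at h1
    exact h h1.symm
  set φ : PowerSeries k →+* LaurentSeries k := algebraMap (PowerSeries k) (LaurentSeries k) with hφ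
  have hφi : Function.Injective φ := by
    rw [hφ]
    exact FaithfulSMul.algebraMap_injective _ _
  have h3 : (φ.mapMatrix A).det ≠ 0 := by
    rw [← RingHom.map_det]
    exact (map_ne_zero_iff _ hφi).2 h2
  have h4 := Matrix.rank_of_det_ne_zero h3
  rw [Fintype.card_fin] at h4
  have h5 : φ.mapMatrix A =
      (mat (MvPolynomial.map φ (MvPolynomial.map (PowerSeries.C (R := k)) g +
        C PowerSeries.X * R)) p q p' q').submatrix r cc := by
    rw [RankLow_map]
    rfl
  rw [h5] at h4
  calc d = _ := h4.symm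
    _ ≤ _ := Matrix.rank_submatrix_le _ _ _

theorem td_RG (hM : S_Minor) : StRG := by
  intro Y Z σ _ _ _ _ k _ _ F c M c₀ P a b p q p' q' hc₀ hP
  classical
  obtain ⟨r, cc, hdet⟩ := hM _ _ (mat (MvPolynomial.map (Int.castRingHom ℝ) P) p q p' q')
  generalize (mat (MvPolynomial.map (Int.castRingHom ℝ) P) p q p' q').rank = d at r cc hdet ⊢
  set A0 : Matrix (Fin d) (Fin d) ℤ := (mat P p q p' q').submatrix r cc with hA0
  have h0 : A0.det ≠ 0 := by
    intro h
    apply hdet
    have h1 : (mat (MvPolynomial.map (Int.castRingHom ℝ) P) p q p' q').submatrix r cc =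
        (Int.castRingHom ℝ).mapMatrix A0 := by
      rw [RankLow_map]
      rfl
    rw [h1, ← RingHom.map_det, h, map_zero]
  have hmap : ∀ x : σ → k, MvPolynomial.map (eval x) (bc a b (RG_gen F M)) =
      bc a b (aeval (fun v => C (x v) + M v) F) := by
    intro x
    rw [← bc_map, RG_map_gen]
  refine ⟨((mat (bc a b (RG_gen F M)) p q p' q').submatrix r cc).det, ?_, ?_⟩
  · intro hz
    have h1 := RG_minor (bc a b (RG_gen F M)) p q p' q' d r cc c
    rw [hz, map_zero, hmap, hP, RankLow_C, RankLow_map] at h1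
    have h2 : ((c₀ • (mat P p q p' q').map (Int.castRingHom k)).submatrix r cc).det =
        c₀ ^ d * ((A0.det : ℤ) : k) := by
      have h3 : (c₀ • (mat P p q p' q').map (Int.castRingHom k)).submatrix r cc =
          c₀ • (Int.castRingHom k).mapMatrix A0 := rfl
      rw [h3, Matrix.det_smul, Fintype.card_fin, ← RingHom.map_det]
      rfl
    rw [h2] at h1
    have h4 : c₀ ^ d * ((A0.det : ℤ) : k) ≠ 0 :=
      mul_ne_zero (pow_ne_zero _ hc₀) (Int.cast_ne_zero.mpr h0)
    exact h4 h1.symm
  · intro x hx R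
    rw [RG_minor, hmap] at hx
    exact RG_low _ R p q p' q' d r cc hx

end Pool.Agent.Work.MP_499dc6_lc.TD
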