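import Pool.Agent.Work.MP_499dc6_lc.TD.IneqA

/-!
# Depth three with determinants, algebraic functions: the numbers
-/

namespace Pool.Agent.Work.MP_499dc6_lc.Fib

open MvPolynomial Finset
open Pool.Agent.Work.MP_499dc6_lc.CD
open Pool.Agent.Work.MP_499dc6_lc.D3
open Pool.Agent.Work.MP_499dc6_lc.TD

open scoped PowerSeries

theorem TDA_tradeoff_aux (hLev : StLev) (hAL : StAL) (hRG : StRG) (hBP : StBP) (k : Type)
    [Field k] [CharZero k] (N S p D r₀ w r : ℕ)
    (f : Fin S → Fin p → Fin D → MvPolynomial (Fin N × Fin N) (LaurentSeries k))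
    (μ : Fin S → Fin p → Fin D → ℕ) (hf : ∀ i b j, Fac r₀ w (f i b j))
    (T : Fin S → FractionRing (MvPolynomial (Fin N × Fin N) (LaurentSeries k)))
    (hT : ∀ i, IsAlgebraic (Algebra.adjoin (LaurentSeries k) (Set.range fun b =>
      algebraMap (MvPolynomial (Fin N × Fin N) (LaurentSeries k))
        (FractionRing (MvPolynomial (Fin N × Fin N) (LaurentSeries k)))
        (∏ j, f i b j ^ μ i b j))) (T i))
    (R : MvPolynomial (Fin N × Fin N) k⟦X⟧)
    (h : ∑ i, T i = algebraMap (MvPolynomial (Fin N × Fin N) (LaurentSeries k))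
        (FractionRing (MvPolynomial (Fin N × Fin N) (LaurentSeries k)))
        (MvPolynomial.map (algebraMap k⟦X⟧ (LaurentSeries k))
          (gperm k⟦X⟧ N + C PowerSeries.X * R)))
    (hp : 1 ≤ p) (hD : 1 ≤ D) (hr : 1 ≤ r) (hrw : r = r₀ + 2 * w) :
    (N : ℝ) / (2 * 10 ^ 6) ≤
      (Real.log S + p * Real.log (2 + N / p)) * (Real.log D + r) := by
  have hlogD : 0 ≤ Real.log D := Real.log_nonneg (by exact_mod_cast hD)
  have hrR : (1 : ℝ) ≤ r := by exact_mod_cast hr
  have hp0 : (0 : ℝ) < p := by exact_mod_cast hp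
  have hp1 : (1 : ℝ) ≤ p := by exact_mod_cast hp
  have hlogS : 0 ≤ Real.log S := by
    rcases Nat.eq_zero_or_pos S with h0 | h0
    · rw [h0]; simp
    · exact Real.log_nonneg (by exact_mod_cast h0)
  have hN0 : (0 : ℝ) ≤ N := Nat.cast_nonneg N
  have hB := Tr_bern N p hp
  obtain ⟨P', hP'⟩ : ∃ P' : ℝ, P' = p * Real.log (2 + N / p) := ⟨_, rfl⟩
  rw [← hP'] at hB ⊢
  obtain ⟨x, hx⟩ : ∃ x : ℝ, x = Real.log D + r := ⟨_, rfl⟩
  rw [← hx]
  have hx1 : 1 ≤ x := by rw [hx]; linarith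
  have hx0 : 0 < x := by linarith
  rcases Nat.eq_zero_or_pos N with hN1 | hN1
  · have hP0 : 0 ≤ P' := by
      refine le_trans (Real.log_nonneg ?_) hB
      linarith
    rw [hN1]
    have : 0 ≤ (Real.log S + P') * x := mul_nonneg (by linarith) hx0.le
    simpa using this
  have hN1R : (1 : ℝ) ≤ N := by exact_mod_cast hN1
  have hl3 : 1 ≤ Real.log (2 + N) := by
    rw [Real.le_log_iff_exp_le (by linarith)]
    have := Real.exp_one_lt_d9
    linarith
  have hP1 : 1 ≤ P' := hl3.trans hB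
  have hSP : 1 ≤ Real.log S + P' := by linarith
  obtain ⟨t, ht⟩ : ∃ t : ℕ, t = ⌈20 * Real.log D + 98 * r⌉₊ + 600 := ⟨_, rfl⟩
  have ht1 : 20 * Real.log D + 98 * r + 600 ≤ (t : ℝ) := by
    rw [ht]
    push_cast
    have := Nat.le_ceil (20 * Real.log D + 98 * (r : ℝ))
    linarith
  have ht2 : (t : ℝ) ≤ 699 * x := by
    have h1 : (⌈20 * Real.log D + 98 * (r : ℝ)⌉₊ : ℝ) < 20 * Real.log D + 98 * r + 1 :=
      Nat.ceil_lt_add_one (by positivity)
    rw [ht, hx]
    push_cast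
    linarith
  have ht696 : 696 ≤ t := by
    have : (696 : ℝ) ≤ t := by linarith
    exact_mod_cast this
  obtain ⟨Λ, hΛ⟩ : ∃ Λ : ℕ, Λ = 2 * t := ⟨_, rfl⟩
  have hΛR : (Λ : ℝ) = 2 * t := by rw [hΛ]; push_cast; ring
  obtain ⟨g, hg⟩ : ∃ g : ℕ, g = N / (8 * Λ + 4) := ⟨_, rfl⟩
  have hgl : g * (8 * Λ + 4) ≤ N := by rw [hg]; exact Nat.div_mul_le_self _ _
  have hgu : N < (g + 1) * (8 * Λ + 4) := by
    rw [hg]
    exact Nat.lt_mul_of_div_lt (by omega) (by omega)
  have hguR : (N : ℝ) < (g + 1) * (8 * Λ + 4) := by exact_mod_cast hgu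
  have h84 : (8 : ℝ) * Λ + 4 ≤ 11188 * x := by rw [hΛR]; linarith
  rcases Nat.eq_zero_or_pos g with hg0 | hg0
  · rw [hg0] at hguR
    push_cast at hguR
    have h1 : (N : ℝ) ≤ 11188 * x := by linarith
    rw [div_le_iff₀ (by norm_num)]
    nlinarith
  have hg1 : (1 : ℝ) ≤ g := by exact_mod_cast hg0
  have hκ : 0 < Real.log (3 / 2) / (4 * (Λ : ℝ)) := by
    have h1 : 0 < Real.log (3 / 2 : ℝ) := Real.log_pos (by norm_num)
    have h2 : (0 : ℝ) < Λ := by rw [hΛR]; linarith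
    positivity
  have hin := TDA_ineq hLev hAL hRG hBP k N S p D r₀ w t (g * Λ) g (Real.log (3 / 2) / (4 * Λ)) f μ hf T hT R h hp
    hg0
    (by nlinarith) (by nlinarith) (by omega) hκ (by
      have h1 : 0 < Real.log (3 / 2 : ℝ) := Real.log_pos (by norm_num)
      refine div_le_div_of_nonneg_left h1.le (by norm_num) ?_
      rw [hΛR]; linarith)
    (hrw ▸ Tr_thr D r t hD (by linarith)) (fun u v h1 h2 => Tr_cone Λ g t u v hg0 (by omega) hΛ h1 h2)
    (Tr_ser t _ ht696)
  obtain ⟨-, hin⟩ := hin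
  obtain ⟨dd, hdd⟩ : ∃ dd, dd = 2 * (g * Λ + g) + 2 * (g * Λ) := ⟨_, rfl⟩
  rw [← hdd] at hin
  have hddN : dd + 1 ≤ N := by
    have : 1 ≤ g * Λ := by
      have : 0 < Λ := by omega
      exact Nat.mul_pos hg0 this
    rw [hdd]
    nlinarith
  have hddR : (dd : ℝ) + 1 ≤ N := by exact_mod_cast hddN
  have hm : 2 * (g * Λ + g) + 1 ≤ N := by omega
  have hmR : (((2 * (g * Λ + g) + 1 : ℕ)) : ℝ) ≤ N := by exact_mod_cast hm
  -- the left side
  have hleft : Real.log (3 / 2) * g ≤ Real.log (3 / 2) / (4 * Λ) * (dd : ℝ) := by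
    have h1 : 0 < Real.log (3 / 2 : ℝ) := Real.log_pos (by norm_num)
    have h2 : (0 : ℝ) < Λ := by rw [hΛR]; linarith
    have h3 : (4 : ℝ) * g * Λ ≤ dd := by
      rw [hdd]
      push_cast
      nlinarith
    calc Real.log (3 / 2) * g = Real.log (3 / 2) / (4 * Λ) * (4 * g * Λ) := by field_simp
      _ ≤ Real.log (3 / 2) / (4 * Λ) * (dd : ℝ) := mul_le_mul_of_nonneg_left h3 (by positivity)
  -- the right side
  have hdp : (1 : ℝ) + dd / (3 * p) ≤ 2 + N / p := by
    have h1 : (dd : ℝ) / (3 * p) ≤ N / p := by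
      rw [div_le_div_iff₀ (by positivity) hp0]
      nlinarith
    linarith
  have hlog1 : Real.log (1 + (dd : ℝ) / (3 * p)) ≤ Real.log (2 + N / p) :=
    Real.log_le_log (by positivity) hdp
  have hlog2 : 0.69 ≤ Real.log (2 + (N : ℝ) / p) := by
    have h1 : Real.log 2 ≤ Real.log (2 + (N : ℝ) / p) :=
      Real.log_le_log (by norm_num) (by
        have : (0 : ℝ) ≤ (N : ℝ) / p := by positivity
        linarith)
    have h2 := Real.log_two_gt_d9
    linarith
  have hr1 : 3 * (p : ℝ) * (1 + Real.log (1 + (dd : ℝ) / (3 * p))) ≤ 7.5 * P' := by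
    rw [hP']
    nlinarith
  have hlN : Real.log N ≤ P' := (Real.log_le_log (by linarith) (by linarith)).trans hB
  have hr2 : Real.log ((dd : ℝ) + 1) ≤ P' :=
    (Real.log_le_log (by positivity) hddR).trans hlN
  have hr3 : Real.log (1000 * ((2 * (g * Λ + g) + 1 : ℕ) : ℝ) ^ 8) ≤ 7 * P' + 8 * P' := by
    rw [Real.log_mul (by norm_num) (by positivity), Real.log_pow]
    have h1 : Real.log 1000 ≤ 7 := by
      have e : Real.log 1000 ≤ 10 * Real.log 2 := by
        have : (10 : ℝ) * Real.log 2 = Real.log (2 ^ 10) := by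
          rw [Real.log_pow]
          norm_num
        rw [this]
        exact Real.log_le_log (by norm_num) (by norm_num)
      have := Real.log_two_lt_d9
      linarith
    have h2 : Real.log ((2 * (g * Λ + g) + 1 : ℕ) : ℝ) ≤ P' :=
      (Real.log_le_log (by positivity) hmR).trans hlN
    push_cast at h2 ⊢
    nlinarith
  have hsum : Real.log (3 / 2) * g ≤ 27 * (Real.log S + P') := by
    have := hleft.trans hin
    linarith
  have ha := Par_log_ge
  have hg2 : (g : ℝ) ≤ 67.5 * (Real.log S + P') := by nlinarith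
  have hfin : (N : ℝ) ≤ 2 * 67.5 * (Real.log S + P') * (11188 * x) := by
    have h1 : (N : ℝ) ≤ 2 * g * (11188 * x) := by
      have h2 : ((g : ℝ) + 1) * (8 * Λ + 4) ≤ (2 * g) * (11188 * x) := by
        refine mul_le_mul (by linarith) h84 ?_ (by positivity)
        have : (0 : ℝ) ≤ Λ := Nat.cast_nonneg _
        linarith
      linarith
    refine h1.trans ?_
    refine mul_le_mul_of_nonneg_right ?_ (by positivity)
    linarith
  rw [div_le_iff₀ (by norm_num)]
  have h0 : 0 ≤ (Real.log S + P') * x := mul_nonneg (by linarith) hx0.le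
  nlinarith


end Pool.Agent.Work.MP_499dc6_lc.Fib
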