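import Pool.Agent.Work.MP_499dc6_lc.TD.Final
import Pool.Agent.Work.MP_499dc6_lc.TD.NumbersA
import Pool.Agent.Work.MP_499dc6_lc.TD.I_A1
import Pool.Agent.Work.MP_499dc6_lc.TD.I_A2
import Pool.Agent.Work.MP_499dc6_lc.TD.I_A3
import Pool.Agent.Work.MP_499dc6_lc.TD.I_A4
import Pool.Agent.Work.MP_499dc6_lc.TD.I_AL
import Pool.Agent.Work.MP_499dc6_lc.TD.I_RG
import Pool.Agent.Work.MP_499dc6_lc.TD.I_BP

/-!
# Depth three with determinants, algebraic functions: assembly
-/

namespace Pool.Agent.Work.MP_499dc6_lc.TD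

open MvPolynomial Finset
open Pool.Agent.Work.MP_499dc6_lc.CD
open Pool.Agent.Work.MP_499dc6_lc.D3
open Pool.Agent.Work.MP_499dc6_lc.Fib

open scoped PowerSeries

theorem fin_AL : StAL := td_AL (td_A2 td_A1 td_A3 td_A4) td_A4

theorem tradeoff_alg (k : Type) [Field k] [CharZero k] (N S p D r v : ℕ)
    (f : Fin S → Fin p → Fin D → MvPolynomial (Fin N × Fin N) (LaurentSeries k))
    (μ : Fin S → Fin p → Fin D → ℕ) (hf : ∀ i b j, Fac r v (f i b j))
    (T : Fin S → FractionRing (MvPolynomial (Fin N × Fin N) (LaurentSeries k)))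
    (hT : ∀ i, IsAlgebraic (Algebra.adjoin (LaurentSeries k) (Set.range fun b =>
      algebraMap (MvPolynomial (Fin N × Fin N) (LaurentSeries k))
        (FractionRing (MvPolynomial (Fin N × Fin N) (LaurentSeries k)))
        (∏ j, f i b j ^ μ i b j))) (T i))
    (R : MvPolynomial (Fin N × Fin N) k⟦X⟧)
    (h : ∑ i, T i = algebraMap (MvPolynomial (Fin N × Fin N) (LaurentSeries k))
        (FractionRing (MvPolynomial (Fin N × Fin N) (LaurentSeries k)))
        (MvPolynomial.map (algebraMap k⟦X⟧ (LaurentSeries k))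
          (gperm k⟦X⟧ N + C PowerSeries.X * R)))
    (hp : 1 ≤ p) (hD : 1 ≤ D) (hr : 1 ≤ r) :
    (N : ℝ) / (2 * 10 ^ 6) ≤
      (Real.log S + p * Real.log (2 + N / p)) * (Real.log D + r + 2 * v) := by
  have h1 := Fib.TDA_tradeoff_aux fin_Lev fin_AL (td_RG D3.pr_Minor) td_BP k N S p D r v
    (r + 2 * v) f μ hf T hT R h hp hD (by omega) rfl
  push_cast at h1
  rwa [← add_assoc] at h1

end Pool.Agent.Work.MP_499dc6_lc.TD
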