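import Pool.Agent.Work.MP_499dc6_lc.Fib.DefsB

/-!
# Depth three with determinants: definitions

`ek X k` is the coefficient of `t ^ k` in `det (1 + t X)` (the sum of the principal minors of size `k`), `hk X m` the
trace of the `m`-th symmetric power of `X` in the form of MacMahon, `Hs A B b b'` the part of
`hk (A + B) (b + b')` of degree `b` in `A` and `b'` in `B`, `ww A B u u'` the bigraded logarithmic
derivative of `det (1 + A + B)`.
-/

namespace Pool.Agent.Work.MP_499dc6_lc.TD

open MvPolynomial Finset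
open Pool.Agent.Work.MP_499dc6_lc.CD
open Pool.Agent.Work.MP_499dc6_lc.D3
open Pool.Agent.Work.MP_499dc6_lc.Fib

section

variable {S : Type} [CommRing S] {v : ℕ}

/-- The coefficient of `t ^ k` in `det (1 + t X)`. -/
noncomputable def ek (X : Matrix (Fin v) (Fin v) S) (k : ℕ) : S :=
  (Matrix.det (1 + (Polynomial.X : Polynomial S) • X.map Polynomial.C)).coeff k

/-- The exponents of degree `m` in `v` variables. -/
noncomputable def SA (v m : ℕ) : Finset (Fin v →₀ ℕ) := Finset.univ.finsuppAntidiag m

/-- The product of the powers of the linear forms given by the rows of `X`. -/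
noncomputable def lf (X : Matrix (Fin v) (Fin v) S) (α : Fin v →₀ ℕ) : MvPolynomial (Fin v) S :=
  ∏ i, (∑ j, MvPolynomial.C (X i j) * MvPolynomial.X j) ^ α i

/-- The trace of the `m`-th symmetric power of `X`. -/
noncomputable def hk (X : Matrix (Fin v) (Fin v) S) (m : ℕ) : S :=
  ∑ α ∈ SA v m, MvPolynomial.coeff α (lf X α)

/-- Auxiliary matrix for the recursion of `hk`: the sum over `|α| = m` of the coefficient of `x ^ α` in the
derivative with respect to `x i` of `x j * lf X α`. -/
noncomputable def GG (X : Matrix (Fin v) (Fin v) S) (m : ℕ) (i j : Fin v) : S :=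
  ∑ α ∈ SA v m, ((α i + 1 : ℕ) : S) *
    MvPolynomial.coeff (α + Finsupp.single i 1) (MvPolynomial.X j * lf X α)

open Classical in
/-- The part of `hk (A + B) (b + b')` of degree `b` in `A` and `b'` in `B`. -/
noncomputable def Hs (A B : Matrix (Fin v) (Fin v) S) (b b' : ℕ) : S :=
  ∑ γ ∈ SA v b, ∑ ε ∈ SA v b, MvPolynomial.coeff ε (lf A γ) *
    ∑ α ∈ SA v (b + b'), if γ ≤ α ∧ ε ≤ α then
      ((∏ i, (α i).choose (γ i) : ℕ) : S) * MvPolynomial.coeff (α - ε) (lf B (α - γ)) else 0

/-- The matrix with blocks `A` on `I × J` and `C` on the complements, `0` elsewhere. -/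
def blk (A C : Matrix (Fin v) (Fin v) S) (I J : Finset (Fin v)) : Matrix (Fin v) (Fin v) S :=
  Matrix.of fun i j => if i ∈ I then (if j ∈ J then A i j else 0) else (if j ∈ J then 0 else C i j)

end

section

variable {Y Z K : Type} [Fintype Y] [Fintype Z] [Field K] {v : ℕ}

/-- The bigraded logarithmic derivative of `det (1 + A + B)`. -/
noncomputable def ww (A B : Matrix (Fin v) (Fin v) (MvPolynomial (Y ⊕ Z) K)) (u u' : ℕ) :
    MvPolynomial (Y ⊕ Z) K :=
  ∑ p ∈ HasAntidiagonal.antidiagonal u, ∑ q ∈ HasAntidiagonal.antidiagonal u',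
    (((p.1 + q.1 : ℕ) : MvPolynomial (Y ⊕ Z) K) * bc p.1 q.1 (1 + A + B).det) *
      ((-1) ^ (p.2 + q.2) * Hs A B p.2 q.2)

end

end Pool.Agent.Work.MP_499dc6_lc.TD
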