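import Pool.Agent.Work.MP_499dc6_lc.TD.Stmts
import Pool.Agent.Work.MP_499dc6_lc.Bd.B03

/-!
# Depth three with determinants, item BW: the bound for the logarithmic derivative
-/

set_option autoImplicit false

namespace Pool.Agent.Work.MP_499dc6_lc.TD

open MvPolynomial Finset
open Pool.Agent.Work.MP_499dc6_lc.CD
open Pool.Agent.Work.MP_499dc6_lc.D3
open Pool.Agent.Work.MP_499dc6_lc.Fib

theorem BW_sum {Y Z : Type} [Fintype Y] [Fintype Z] {K : Type} [Field K] {al be : ℝ} {ι : Type}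
    (s : Finset ι) (f : ι → MvPolynomial (Y ⊕ Z) K) (c : ι → ℝ)
    (h : ∀ i ∈ s, BB al be (f i) (c i)) : BB al be (∑ i ∈ s, f i) (∑ i ∈ s, c i) := by
  classical
  induction s using Finset.induction_on with
  | empty =>
    rw [Finset.sum_empty, Finset.sum_empty]
    exact BB.zero
  | insert i s hi ih =>
    rw [Finset.sum_insert hi, Finset.sum_insert hi]
    exact BB.add (h i (Finset.mem_insert_self i s))
      (ih fun j hj => h j (Finset.mem_insert_of_mem hj))

theorem BW_cnt (u v : ℕ) :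
    ((HasAntidiagonal.antidiagonal u).filter fun p : ℕ × ℕ => p.1 ≤ v).card ≤ v + 1 := by
  have h : ((HasAntidiagonal.antidiagonal u).filter fun p : ℕ × ℕ => p.1 ≤ v).card ≤
      (Finset.range (v + 1)).card := by
    refine Finset.card_le_card_of_injOn (fun p => p.1) ?_ ?_
    · intro p hp
      have hp' := (Finset.mem_filter.1 hp).2
      exact Finset.mem_coe.2 (Finset.mem_range.2 (Nat.lt_succ_of_le hp'))
    · intro p hp q hq hpq
      have h1 := (Finset.mem_filter.1 hp).1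
      have h2 := (Finset.mem_filter.1 hq).1
      rw [HasAntidiagonal.mem_antidiagonal] at h1 h2
      have h3 : p.1 = q.1 := hpq
      refine Prod.ext h3 ?_
      omega
  rwa [Finset.card_range] at h

theorem BW_dbl (u u' v : ℕ) (c : ℝ) (hc : 0 ≤ c) :
    ∑ p ∈ HasAntidiagonal.antidiagonal u, ∑ q ∈ HasAntidiagonal.antidiagonal u',
      (if p.1 ≤ v then (if q.1 ≤ v then c else 0) else 0) ≤ ((v : ℝ) + 1) ^ 2 * c := by
  have h1 : ∀ p : ℕ × ℕ, ∑ q ∈ HasAntidiagonal.antidiagonal u',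
      (if p.1 ≤ v then (if q.1 ≤ v then c else 0) else 0) =
      if p.1 ≤ v then (((HasAntidiagonal.antidiagonal u').filter
        fun q : ℕ × ℕ => q.1 ≤ v).card : ℝ) * c else 0 := by
    intro p
    by_cases hp : p.1 ≤ v
    · rw [if_pos hp]
      rw [Finset.sum_congr rfl fun q _ => if_pos hp, ← Finset.sum_filter, Finset.sum_const,
        nsmul_eq_mul]
    · rw [if_neg hp]
      exact Finset.sum_eq_zero fun q _ => if_neg hp
  rw [Finset.sum_congr rfl fun p _ => h1 p, ← Finset.sum_filter, Finset.sum_const, nsmul_eq_mul]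
  have h2 : (((HasAntidiagonal.antidiagonal u).filter fun p : ℕ × ℕ => p.1 ≤ v).card : ℝ) ≤
      (v : ℝ) + 1 := by exact_mod_cast BW_cnt u v
  have h3 : (((HasAntidiagonal.antidiagonal u').filter fun p : ℕ × ℕ => p.1 ≤ v).card : ℝ) ≤
      (v : ℝ) + 1 := by exact_mod_cast BW_cnt u' v
  have hv : (0 : ℝ) ≤ (v : ℝ) + 1 := by positivity
  calc _ ≤ ((v : ℝ) + 1) * (((v : ℝ) + 1) * c) := by
        refine mul_le_mul h2 (mul_le_mul_of_nonneg_right h3 hc) (by positivity) hv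
    _ = ((v : ℝ) + 1) ^ 2 * c := by ring

theorem BW_sq (v : ℕ) : ((v : ℝ) + 1) ^ 2 ≤ 4 ^ v := by
  have h1 : v + 1 ≤ 2 ^ v := Nat.lt_two_pow_self
  have h2 : (v : ℝ) + 1 ≤ 2 ^ v := by exact_mod_cast h1
  calc ((v : ℝ) + 1) ^ 2 ≤ (2 ^ v) ^ 2 := pow_le_pow_left₀ (by positivity) h2 2
    _ = 4 ^ v := by
      rw [← pow_mul, mul_comm, pow_mul]
      norm_num

theorem BW_choose (v a : ℕ) : ((v.choose a : ℕ) : ℝ) ^ 2 ≤ 4 ^ v := by
  have h1 : v.choose a ≤ 2 ^ v := Nat.choose_le_two_pow v a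
  have h2 : ((v.choose a : ℕ) : ℝ) ≤ 2 ^ v := by exact_mod_cast h1
  calc ((v.choose a : ℕ) : ℝ) ^ 2 ≤ (2 ^ v) ^ 2 := pow_le_pow_left₀ (Nat.cast_nonneg _) h2 2
    _ = 4 ^ v := by
      rw [← pow_mul, mul_comm, pow_mul]
      norm_num

theorem td_BW (hMul : CD.S_BBmul) (hL3 : StL3) (hL4 : StL4) (hH2 : StH2) (hH3 : StH3) : StBW := by
  intro Y Z _ _ K _ be v A B hbe hA hB u u'
  set al : ℝ := Real.log (3 / 2) with hal
  have hal0 : 0 ≤ al := Real.log_nonneg (by norm_num)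
  obtain ⟨c, hc⟩ : ∃ c : ℝ, c = 4 ^ v * (441 ^ v * Real.exp (-(al / 4 * ((u + u' : ℕ) : ℝ)))) :=
    ⟨_, rfl⟩
  have hc0 : 0 ≤ c := by rw [hc]; positivity
  have hterm : ∀ p ∈ HasAntidiagonal.antidiagonal u, ∀ q ∈ HasAntidiagonal.antidiagonal u',
      BB al be ((((p.1 + q.1 : ℕ) : MvPolynomial (Y ⊕ Z) K) * bc p.1 q.1 (1 + A + B).det) *
        ((-1) ^ (p.2 + q.2) * Hs A B p.2 q.2))
        (if p.1 ≤ v then (if q.1 ≤ v then c else 0) else 0) := by
    intro p hp q hq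
    rw [HasAntidiagonal.mem_antidiagonal] at hp hq
    by_cases hpq : v < p.1 + q.1
    · rw [hL4 Y Z K v A B hA hB p.1 q.1 hpq, mul_zero, zero_mul]
      refine BB.mono BB.zero ?_
      split_ifs
      · exact hc0
      · exact le_rfl
      · exact le_rfl
    · rw [if_pos (show p.1 ≤ v by omega), if_pos (show q.1 ≤ v by omega)]
      have e1 : (((p.1 + q.1 : ℕ) : MvPolynomial (Y ⊕ Z) K)) = C ((p.1 + q.1 : ℕ) : K) :=
        (map_natCast (C : K →+* MvPolynomial (Y ⊕ Z) K) _).symm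
      have e2 : ((-1) ^ (p.2 + q.2) : MvPolynomial (Y ⊕ Z) K) = C ((-1) ^ (p.2 + q.2) : K) := by
        rw [map_pow, map_neg, map_one]
      rw [e1, e2]
      have b1 := pr_BBsmul Y Z K al be _ _ ((p.1 + q.1 : ℕ) : K)
        (hL3 Y Z K al be v A B hA hB p.1 q.1)
      have b2 := pr_BBsmul Y Z K al be _ _ ((-1) ^ (p.2 + q.2) : K)
        (hH2 Y Z K al be v A B hA hB p.2 q.2).2
      refine BB.mono (hMul Y Z K al be _ _ _ _ b1 b2) ?_
      have c1 : ((v.choose p.1 : ℕ) : ℝ) ^ 2 ≤ 4 ^ v := BW_choose v p.1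
      have c2 : ((SA v p.2).card : ℝ) ^ 2 ≤ 441 ^ v * Real.exp (al / 4 * p.2) := by
        calc ((SA v p.2).card : ℝ) ^ 2 ≤ (21 ^ v * Real.exp (al / 8 * p.2)) ^ 2 :=
              pow_le_pow_left₀ (Nat.cast_nonneg _) (hH3 v p.2) 2
          _ = 441 ^ v * Real.exp (al / 4 * p.2) := by
              rw [mul_pow, ← pow_mul, mul_comm v 2, pow_mul, ← Real.exp_nat_mul]
              norm_num
              ring
      have c3 : Real.exp (-((p.1 : ℝ) * al + q.1 * be) / 2) *
          (Real.exp (al / 4 * p.2) * Real.exp (-((p.2 : ℝ) * al + q.2 * be) / 2)) ≤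
          Real.exp (-(al / 4 * ((u + u' : ℕ) : ℝ))) := by
        rw [← Real.exp_add, ← Real.exp_add]
        refine Real.exp_le_exp.2 ?_
        have hu : (u : ℝ) = p.1 + p.2 := by rw [← hp]; push_cast; ring
        have hu' : (u' : ℝ) = q.1 + q.2 := by rw [← hq]; push_cast; ring
        push_cast
        rw [hu, hu']
        have d1 : 0 ≤ al * (p.1 : ℝ) := mul_nonneg hal0 (Nat.cast_nonneg _)
        have d2 : al * (q.1 : ℝ) ≤ be * q.1 := mul_le_mul_of_nonneg_right hbe (Nat.cast_nonneg _)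
        have d3 : al * (q.2 : ℝ) ≤ be * q.2 := mul_le_mul_of_nonneg_right hbe (Nat.cast_nonneg _)
        have d4 : 0 ≤ al * (q.1 : ℝ) := mul_nonneg hal0 (Nat.cast_nonneg _)
        have d5 : 0 ≤ al * (q.2 : ℝ) := mul_nonneg hal0 (Nat.cast_nonneg _)
        nlinarith
      calc ((v.choose p.1 : ℕ) : ℝ) ^ 2 * Real.exp (-((p.1 : ℝ) * al + q.1 * be) / 2) *
            (((SA v p.2).card : ℝ) ^ 2 * Real.exp (-((p.2 : ℝ) * al + q.2 * be) / 2))
          ≤ 4 ^ v * Real.exp (-((p.1 : ℝ) * al + q.1 * be) / 2) *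
            (441 ^ v * Real.exp (al / 4 * p.2) *
              Real.exp (-((p.2 : ℝ) * al + q.2 * be) / 2)) := by
            refine mul_le_mul (mul_le_mul_of_nonneg_right c1 (Real.exp_pos _).le)
              (mul_le_mul_of_nonneg_right c2 (Real.exp_pos _).le) (by positivity) (by positivity)
        _ = 4 ^ v * (441 ^ v * (Real.exp (-((p.1 : ℝ) * al + q.1 * be) / 2) *
            (Real.exp (al / 4 * p.2) * Real.exp (-((p.2 : ℝ) * al + q.2 * be) / 2)))) := by ring
        _ ≤ c := by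
            rw [hc]
            refine mul_le_mul_of_nonneg_left ?_ (by positivity)
            exact mul_le_mul_of_nonneg_left c3 (by positivity)
  have hsum : BB al be (ww A B u u') (∑ p ∈ HasAntidiagonal.antidiagonal u,
      ∑ q ∈ HasAntidiagonal.antidiagonal u',
        (if p.1 ≤ v then (if q.1 ≤ v then c else 0) else 0)) := by
    unfold ww
    exact BW_sum _ _ _ fun p hp => BW_sum _ _ _ fun q hq => hterm p hp q hq
  refine BB.mono hsum ((BW_dbl u u' v c hc0).trans ?_)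
  calc ((v : ℝ) + 1) ^ 2 * c ≤ 4 ^ v * c := mul_le_mul_of_nonneg_right (BW_sq v) hc0
    _ = (4 ^ v * 4 ^ v * 441 ^ v) * Real.exp (-(al / 4 * ((u + u' : ℕ) : ℝ))) := by
        rw [hc]
        ring
    _ ≤ 121 ^ (2 * v) * Real.exp (-(al / 4 * ((u + u' : ℕ) : ℝ))) := by
        refine mul_le_mul_of_nonneg_right ?_ (Real.exp_pos _).le
        rw [← mul_pow, ← mul_pow, pow_mul]
        exact pow_le_pow_left₀ (by norm_num) (by norm_num) v

end Pool.Agent.Work.MP_499dc6_lc.TD
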