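import Pool.Agent.Work.MP_499dc6_lc.TD.Stmts
import Pool.Agent.Work.MP_499dc6_lc.Bd.B10

/-!
Depth three with determinants, item CV.
-/

namespace Pool.Agent.Work.MP_499dc6_lc.TD

open MvPolynomial Finset
open Pool.Agent.Work.MP_499dc6_lc.CD
open Pool.Agent.Work.MP_499dc6_lc.D3
open Pool.Agent.Work.MP_499dc6_lc.Fib

theorem CV_sign {Y Z : Type} [Fintype Y] [Fintype Z] {K : Type} [Field K] (u v m : ℕ)
    (f : MvPolynomial (Y ⊕ Z) K) : bc u v ((-1) ^ m * f) = (-1) ^ m * bc u v f := by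
  have h : ((-1 : MvPolynomial (Y ⊕ Z) K)) ^ m = C ((-1 : K) ^ m) := by
    rw [map_pow, map_neg, map_one]
  rw [h, bc_C_mul]

theorem CV_hk (hH1 : StH1) (hH2 : StH2) {Y Z : Type} [Fintype Y] [Fintype Z] {K : Type} [Field K]
    {v : ℕ} {A B : Matrix (Fin v) (Fin v) (MvPolynomial (Y ⊕ Z) K)}
    (hA : ∀ i j, IsBi (A i j) 1 0) (hB : ∀ i j, IsBi (B i j) 0 1) (b b' m : ℕ) :
    bc b b' (hk (A + B) m) = if b + b' = m then Hs A B b b' else 0 := by
  have hbi : ∀ x y : ℕ, IsBi (Hs A B x y) x y := fun x y => (hH2 Y Z K 0 0 v A B hA hB x y).1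
  rw [hH1, bc_sum]
  have h1 : ∀ r ∈ HasAntidiagonal.antidiagonal m, bc b b' (Hs A B r.1 r.2) =
      if (b, b') = r then Hs A B b b' else 0 := by
    intro r _
    rw [bc_of_isBi (hbi r.1 r.2)]
    by_cases h : (b, b') = r
    · subst h
      simp
    · rw [if_neg h, if_neg]
      rintro ⟨h1, h2⟩
      exact h (Prod.ext h1 h2)
  rw [Finset.sum_congr rfl h1, Finset.sum_ite_eq]
  by_cases h : b + b' = m
  · rw [if_pos h, if_pos (HasAntidiagonal.mem_antidiagonal.2 h)]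
  · rw [if_neg h, if_neg (fun h2 => h (HasAntidiagonal.mem_antidiagonal.1 h2))]

theorem td_CV (hF3 : StF3) (hL5 : StL5) (hH1 : StH1) (hH2 : StH2) : StCV := by
  intro Y Z _ _ K _ _ v A B hA hB u u'
  have h := congrArg (bc u u') (hF3 (MvPolynomial (Y ⊕ Z) K) v (A + B) (u + u'))
  rw [bc_sum] at h
  have hterm : ∀ p ∈ HasAntidiagonal.antidiagonal (u + u'),
      bc u u' ((-1) ^ p.2 * (ek (A + B) p.1 * hk (A + B) p.2)) =
      ∑ s ∈ HasAntidiagonal.antidiagonal u, ∑ t ∈ HasAntidiagonal.antidiagonal u',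
        if (s.1 + t.1, s.2 + t.2) = p then
          bc s.1 t.1 (1 + A + B).det * ((-1) ^ (s.2 + t.2) * Hs A B s.2 t.2) else 0 := by
    intro p _
    rw [CV_sign, pr_BcMul, Finset.mul_sum]
    refine Finset.sum_congr rfl fun s _ => ?_
    rw [Finset.mul_sum]
    refine Finset.sum_congr rfl fun t _ => ?_
    rw [hL5 Y Z K v A B hA hB, CV_hk hH1 hH2 hA hB]
    by_cases h1 : s.1 + t.1 = p.1
    · by_cases h2 : s.2 + t.2 = p.2
      · rw [if_pos h1, if_pos h2, if_pos (Prod.ext h1 h2), ← h2]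
        ring
      · have h3 : (s.1 + t.1, s.2 + t.2) ≠ p := fun h3 => h2 (congrArg Prod.snd h3)
        rw [if_neg h2, if_neg h3, mul_zero, mul_zero]
    · have h3 : (s.1 + t.1, s.2 + t.2) ≠ p := fun h3 => h1 (congrArg Prod.fst h3)
      rw [if_neg h1, if_neg h3, zero_mul, mul_zero]
  rw [Finset.sum_congr rfl hterm, Finset.sum_comm] at h
  have hswap : ∀ s ∈ HasAntidiagonal.antidiagonal u,
      ∑ p ∈ HasAntidiagonal.antidiagonal (u + u'), ∑ t ∈ HasAntidiagonal.antidiagonal u',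
        (if (s.1 + t.1, s.2 + t.2) = p then
          bc s.1 t.1 (1 + A + B).det * ((-1) ^ (s.2 + t.2) * Hs A B s.2 t.2) else 0) =
      ∑ t ∈ HasAntidiagonal.antidiagonal u',
        bc s.1 t.1 (1 + A + B).det * ((-1) ^ (s.2 + t.2) * Hs A B s.2 t.2) := by
    intro s hs
    rw [Finset.sum_comm]
    refine Finset.sum_congr rfl fun t ht => ?_
    rw [Finset.sum_ite_eq, if_pos]
    rw [HasAntidiagonal.mem_antidiagonal] at hs ht ⊢
    change s.1 + t.1 + (s.2 + t.2) = u + u'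
    omega
  rw [Finset.sum_congr rfl hswap] at h
  rw [h]
  by_cases h0 : u = 0 ∧ u' = 0
  · obtain ⟨rfl, rfl⟩ := h0
    rw [if_pos rfl, if_pos ⟨rfl, rfl⟩]
    exact bc_self isBi_one
  · rw [if_neg h0, if_neg (by omega)]
    exact bc_zero u u'

end Pool.Agent.Work.MP_499dc6_lc.TD
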