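import Pool.Agent.Work.MP_499dc6_lc.TD.Stmts

/-!
# Item F1: Newton's identity for the coefficients of `det (1 + t X)`
-/

namespace Pool.Agent.Work.MP_499dc6_lc.TD

open MvPolynomial Finset
open Pool.Agent.Work.MP_499dc6_lc.CD
open Pool.Agent.Work.MP_499dc6_lc.D3
open Pool.Agent.Work.MP_499dc6_lc.Fib

/-- Jacobi's formula. -/
theorem F1_jac {S : Type} [CommRing S] {v : ℕ} (M : Matrix (Fin v) (Fin v) (Polynomial S)) :
    Polynomial.derivative M.det =
      (M.adjugate * M.map Polynomial.derivative).trace := by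
  have h1 : Polynomial.derivative M.det =
      ∑ j, (M.updateCol j fun i => Polynomial.derivative (M i j)).det := by
    rw [Matrix.det_apply, map_sum]
    simp only [Matrix.det_apply]
    rw [Finset.sum_comm]
    refine Finset.sum_congr rfl fun σ _ => ?_
    rw [← Finset.smul_sum]
    have h2 : Polynomial.derivative (Equiv.Perm.sign σ • ∏ i, M (σ i) i) =
        Equiv.Perm.sign σ • Polynomial.derivative (∏ i, M (σ i) i) := by
      rcases Int.units_eq_one_or (Equiv.Perm.sign σ) with h | h
      · rw [h, one_smul, one_smul]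
      · rw [h, Units.neg_smul, Units.neg_smul, one_smul, one_smul, map_neg]
    rw [h2, Polynomial.derivative_prod_finset]
    congr 1
    refine Finset.sum_congr rfl fun j _ => ?_
    rw [← Finset.mul_prod_erase Finset.univ _ (Finset.mem_univ j), mul_comm, Matrix.updateCol_self]
    congr 1
    refine Finset.prod_congr rfl fun i hi => ?_
    rw [Matrix.updateCol_ne (Finset.ne_of_mem_erase hi)]
  rw [h1, Matrix.trace]
  refine Finset.sum_congr rfl fun j _ => ?_
  rw [← Matrix.cramer_apply, Matrix.cramer_eq_adjugate_mulVec, Matrix.diag_apply,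
    Matrix.mul_apply]
  rfl

theorem td_F1 : StF1 := by
  intro S _ v X n
  rcases Nat.eq_zero_or_pos n with rfl | hn
  · simp
  let A : Matrix (Fin v) (Fin v) (Polynomial S) := X.map Polynomial.C
  let t : Polynomial S := Polynomial.X
  let M : Matrix (Fin v) (Fin v) (Polynomial S) := 1 + t • A
  let G : Matrix (Fin v) (Fin v) (Polynomial S) := ∑ i ∈ range n, (-(t • A)) ^ i
  have hM' : M.map Polynomial.derivative = A := by
    ext i j : 2
    simp only [Matrix.map_apply, M, Matrix.add_apply, Matrix.smul_apply, smul_eq_mul, A, t]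
    rw [Polynomial.derivative_add, Polynomial.derivative_mul, Polynomial.derivative_X,
      Polynomial.derivative_C, mul_zero, add_zero, one_mul]
    have h3 : Polynomial.derivative ((1 : Matrix (Fin v) (Fin v) (Polynomial S)) i j) = 0 := by
      rw [Matrix.one_apply]
      split_ifs
      · exact Polynomial.derivative_one
      · exact Polynomial.derivative_zero
    rw [h3, zero_add]
  have hJ := F1_jac M
  rw [hM'] at hJ
  have hG : M * G = 1 - (-(t • A)) ^ n := by
    have h4 : M = 1 - (-(t • A)) := by rw [sub_neg_eq_add]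
    rw [h4]
    exact mul_neg_geom_sum _ n
  have hE : M.adjugate * A = M.det • (G * A) + M.adjugate * (-(t • A)) ^ n * A := by
    have h5 : M.adjugate * (M * G) = M.det • G := by
      rw [← mul_assoc, Matrix.adjugate_mul, Matrix.smul_mul, one_mul]
    rw [hG, mul_sub, mul_one] at h5
    rw [← Matrix.smul_mul, ← h5, ← add_mul, sub_add_cancel]
  rw [hE, Matrix.trace_add, Matrix.trace_smul] at hJ
  have hpow : ∀ i : ℕ, (-(t • A)) ^ i = (-1) ^ i * t ^ i • A ^ i := by
    intro i
    rw [neg_pow, smul_pow]
  have htr : ∀ i : ℕ, (A ^ i).trace = Polynomial.C ((X ^ i).trace) := by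
    intro i
    have h6 : A ^ i = (X ^ i).map Polynomial.C := by
      have := map_pow (Polynomial.C (R := S)).mapMatrix X i
      exact this.symm
    rw [h6, Matrix.trace, Matrix.trace, map_sum]
    rfl
  have hsg : ∀ (i : ℕ) (B : Matrix (Fin v) (Fin v) (Polynomial S)),
      ((-1) ^ i * B).trace = (-1) ^ i * B.trace := by
    intro i B
    rcases neg_one_pow_eq_or (Matrix (Fin v) (Fin v) (Polynomial S)) i with h | h
    · rcases Nat.even_or_odd i with h7 | h7
      · rw [h7.neg_one_pow, h7.neg_one_pow, one_mul, one_mul]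
      · rw [h7.neg_one_pow, h7.neg_one_pow, neg_mul, neg_mul, one_mul, one_mul, Matrix.trace_neg]
    · rcases Nat.even_or_odd i with h7 | h7
      · rw [h7.neg_one_pow, h7.neg_one_pow, one_mul, one_mul]
      · rw [h7.neg_one_pow, h7.neg_one_pow, neg_mul, neg_mul, one_mul, one_mul, Matrix.trace_neg]
  have hGA : (G * A).trace =
      ∑ i ∈ range n, t ^ i * Polynomial.C ((-1) ^ i * (X ^ (i + 1)).trace) := by
    rw [Finset.sum_mul, Matrix.trace_sum]
    refine Finset.sum_congr rfl fun i _ => ?_
    rw [hpow, mul_assoc, hsg, Matrix.smul_mul, ← pow_succ, Matrix.trace_smul, htr, smul_eq_mul,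
      Polynomial.C_mul, Polynomial.C_pow, Polynomial.C_neg, Polynomial.C_1]
    ring
  have hrest : (M.adjugate * (-(t • A)) ^ n * A).trace =
      t ^ n * ((-1) ^ n * (M.adjugate * A ^ n * A).trace) := by
    rw [hpow]
    have h8 : M.adjugate * ((-1) ^ n * t ^ n • A ^ n) * A =
        (-1) ^ n * (t ^ n • (M.adjugate * A ^ n * A)) := by
      rcases Nat.even_or_odd n with h7 | h7
      · rw [h7.neg_one_pow, one_mul, one_mul, Matrix.mul_smul, Matrix.smul_mul]
      · rw [h7.neg_one_pow, neg_mul, neg_mul, one_mul, one_mul, Matrix.mul_neg, Matrix.neg_mul,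
          Matrix.mul_smul, Matrix.smul_mul]
    rw [h8, hsg, Matrix.trace_smul, smul_eq_mul]
    ring
  rw [hGA, hrest] at hJ
  have hc := congrArg (fun p => Polynomial.coeff p (n - 1)) hJ
  simp only [Polynomial.coeff_add] at hc
  rw [Polynomial.coeff_derivative, Polynomial.coeff_X_pow_mul', if_neg (by omega), add_zero,
    smul_eq_mul, Finset.mul_sum, Polynomial.finsetSum_coeff] at hc
  have h9 : n - 1 + 1 = n := by omega
  rw [h9] at hc
  have h10 : ((n - 1 : ℕ) : S) + 1 = (n : S) := by
    rw [← Nat.cast_succ]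
    congr 1
  rw [h10] at hc
  change (M.det).coeff n * (n : S) = _ at hc
  have h11 : ek X n = M.det.coeff n := rfl
  rw [h11, mul_comm, hc]
  refine Finset.sum_congr rfl fun i hi => ?_
  rw [Finset.mem_range] at hi
  have h12 : M.det * (t ^ i * Polynomial.C ((-1) ^ i * (X ^ (i + 1)).trace)) =
      t ^ i * (Polynomial.C ((-1) ^ i * (X ^ (i + 1)).trace) * M.det) := by ring
  rw [h12, Polynomial.coeff_X_pow_mul', if_pos (by omega), Polynomial.coeff_C_mul, mul_assoc]
  rfl

end Pool.Agent.Work.MP_499dc6_lc.TD
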