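import Pool.Agent.Work.MP_499dc6_lc.TD.Stmts

/-!
# Depth three with determinants, item F2: the identity of Newton for the symmetric powers
-/

namespace Pool.Agent.Work.MP_499dc6_lc.TD

open MvPolynomial Finset
open Pool.Agent.Work.MP_499dc6_lc.CD
open Pool.Agent.Work.MP_499dc6_lc.D3
open Pool.Agent.Work.MP_499dc6_lc.Fib

theorem F2_zero {S : Type} [CommRing S] {v : ℕ} (X : Matrix (Fin v) (Fin v) S) : hk X 0 = 1 := by
  have e : SA v 0 = {0} := by
    unfold SA
    exact Finset.finsuppAntidiag_zero _
  unfold hk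
  rw [e, Finset.sum_singleton]
  unfold lf
  simp

theorem F2_GG (h : StF2a) {S : Type} [CommRing S] {v : ℕ} (X : Matrix (Fin v) (Fin v) S) (m : ℕ) :
    ∀ i j : Fin v, GG X m i j = ∑ s ∈ range (m + 1), hk X (m - s) * (X ^ s) j i := by
  induction m with
  | zero =>
    intro i j
    rw [(h S v X i j).1, zero_add, Finset.sum_range_one, Nat.sub_zero, F2_zero, one_mul, pow_zero,
      Matrix.one_apply]
    exact if_congr eq_comm rfl rfl
  | succ m ih =>
    intro i j
    rw [(h S v X i j).2 m, Finset.sum_range_succ', Nat.sub_zero, pow_zero, Matrix.one_apply,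
      mul_ite, mul_one, mul_zero, add_comm]
    congr 1
    · have e1 : ∀ k, X k i * GG X m k j =
          ∑ s ∈ range (m + 1), hk X (m - s) * ((X ^ s) j k * X k i) := by
        intro k
        rw [ih k j, Finset.mul_sum]
        refine Finset.sum_congr rfl fun s _ => ?_
        ring
      rw [Finset.sum_congr rfl (fun k _ => e1 k), Finset.sum_comm]
      refine Finset.sum_congr rfl fun s _ => ?_
      rw [← Finset.mul_sum, Nat.add_sub_add_right, pow_succ, Matrix.mul_apply]
    · exact if_congr eq_comm rfl rfl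

theorem td_F2 (hF2a : StF2a) (hF2b : StF2b) : StF2 := by
  intro S _ v X n
  cases n with
  | zero => rw [Nat.cast_zero, zero_mul, Finset.sum_range_zero]
  | succ m =>
    rw [hF2b S v X m]
    have e1 : ∀ k j : Fin v, X k j * GG X m k j =
        ∑ s ∈ range (m + 1), hk X (m - s) * (X k j * (X ^ s) j k) := by
      intro k j
      rw [F2_GG hF2a X m k j, Finset.mul_sum]
      refine Finset.sum_congr rfl fun s _ => ?_
      ring
    have e2 : ∑ k, ∑ j, X k j * GG X m k j =
        ∑ s ∈ range (m + 1), hk X (m - s) * ∑ k, ∑ j, X k j * (X ^ s) j k := by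
      simp only [e1]
      rw [Finset.sum_congr rfl (fun k _ => Finset.sum_comm), Finset.sum_comm]
      refine Finset.sum_congr rfl fun s _ => ?_
      rw [Finset.mul_sum]
      refine Finset.sum_congr rfl fun k _ => ?_
      rw [Finset.mul_sum]
    rw [e2]
    refine Finset.sum_congr rfl fun s _ => ?_
    have e3 : (X ^ (s + 1)).trace = ∑ k, ∑ j, X k j * (X ^ s) j k := by
      rw [pow_succ', Matrix.trace]
      refine Finset.sum_congr rfl fun k _ => ?_
      rw [Matrix.diag_apply, Matrix.mul_apply]
    rw [e3, Nat.add_sub_cancel]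
    ring

end Pool.Agent.Work.MP_499dc6_lc.TD
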