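import Pool.Agent.Work.MP_499dc6_lc.TD.Stmts

/-!
# Depth three with determinants, item F2a (helper59)
-/

namespace Pool.Agent.Work.MP_499dc6_lc.TD

open MvPolynomial Finset
open Pool.Agent.Work.MP_499dc6_lc.CD
open Pool.Agent.Work.MP_499dc6_lc.D3
open Pool.Agent.Work.MP_499dc6_lc.Fib

theorem F2a_mem {v : ℕ} (m : ℕ) (α : Fin v →₀ ℕ) : α ∈ SA v m ↔ ∑ i, α i = m := by
  unfold SA
  rw [mem_finsuppAntidiag]
  exact ⟨fun h => h.1, fun h => ⟨h, subset_univ _⟩⟩

theorem F2a_lf_zero {S : Type} [CommRing S] {v : ℕ} (Z : Matrix (Fin v) (Fin v) S) :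
    lf Z 0 = 1 := by
  unfold lf
  simp

/-- the linear form of the row `k` -/
noncomputable def F2a_l {S : Type} [CommRing S] {v : ℕ} (Z : Matrix (Fin v) (Fin v) S)
    (k : Fin v) : MvPolynomial (Fin v) S := ∑ j, C (Z k j) * X j

theorem F2a_lf_add {S : Type} [CommRing S] {v : ℕ} (Z : Matrix (Fin v) (Fin v) S)
    (α : Fin v →₀ ℕ) (k : Fin v) :
    lf Z (α + Finsupp.single k 1) = F2a_l Z k * lf Z α := by
  have h : ∀ β, lf Z β = ∏ i, F2a_l Z i ^ β i := fun _ => rfl
  rw [h, h]
  simp only [Finsupp.add_apply, pow_add, Finset.prod_mul_distrib]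
  rw [mul_comm]
  congr 1
  rw [Finset.prod_eq_single k]
  · simp
  · intro b _ hb
    rw [Finsupp.single_eq_of_ne (by exact hb), pow_zero]
  · intro h
    exact absurd (mem_univ k) h

theorem F2a_pl {S : Type} [CommRing S] {v : ℕ} (Z : Matrix (Fin v) (Fin v) S) (i k : Fin v) :
    pderiv i (F2a_l Z k) = C (Z k i) := by
  unfold F2a_l
  rw [map_sum, Finset.sum_eq_single i]
  · rw [pderiv_C_mul, pderiv_X_self, mul_one]
  · intro j _ hj
    rw [pderiv_C_mul, pderiv_X_of_ne hj, mul_zero]
  · intro h
    exact absurd (mem_univ i) h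

theorem F2a_sub {S : Type} [CommRing S] {v : ℕ} (Z : Matrix (Fin v) (Fin v) S)
    (β : Fin v →₀ ℕ) (k k₀ : Fin v) (x : S) :
    C ((β k : S) * x) * lf Z (β + Finsupp.single k₀ 1 - Finsupp.single k 1) =
      F2a_l Z k₀ * (C ((β k : S) * x) * lf Z (β - Finsupp.single k 1)) := by
  by_cases h : β k = 0
  · rw [h]
    simp
  · have hle : Finsupp.single k 1 ≤ β := by
      rw [Finsupp.single_le_iff]
      omega
    rw [← tsub_add_eq_add_tsub hle, F2a_lf_add]
    ring

theorem F2a_pd {S : Type} [CommRing S] {v : ℕ} (Z : Matrix (Fin v) (Fin v) S) (i : Fin v) :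
    ∀ (d : ℕ) (α : Fin v →₀ ℕ), ∑ i, α i = d →
    pderiv i (lf Z α) = ∑ k, C ((α k : S) * Z k i) * lf Z (α - Finsupp.single k 1) := by
  intro d
  induction d with
  | zero =>
    intro α hα
    have h0 : α = 0 := by
      ext j
      rw [Finset.sum_eq_zero_iff] at hα
      exact hα j (mem_univ j)
    rw [h0, F2a_lf_zero, pderiv_one]
    symm
    refine Finset.sum_eq_zero fun k _ => ?_
    simp
  | succ d ih =>
    intro α hα
    obtain ⟨k₀, hk₀⟩ : ∃ k, α k ≠ 0 := by
      by_contra h
      push Not at h
      rw [Finset.sum_eq_zero fun k _ => h k] at hα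
      omega
    have hle : Finsupp.single k₀ 1 ≤ α := by
      rw [Finsupp.single_le_iff]
      omega
    obtain ⟨β, hβ⟩ : ∃ β, β = α - Finsupp.single k₀ 1 := ⟨_, rfl⟩
    have hα' : α = β + Finsupp.single k₀ 1 := by
      rw [hβ, tsub_add_cancel_of_le hle]
    have hβs : ∑ j, β j = d := by
      rw [hα'] at hα
      simp only [Finsupp.add_apply, Finset.sum_add_distrib] at hα
      have h1 : ∑ j, (Finsupp.single k₀ 1 : Fin v →₀ ℕ) j = 1 := by
        rw [Finset.sum_eq_single k₀]
        · simp
        · intro b _ hb
          rw [Finsupp.single_eq_of_ne (by exact hb)]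
        · intro h
          exact absurd (mem_univ k₀) h
      omega
    rw [hα', F2a_lf_add, Derivation.leibniz, ih β hβs, F2a_pl]
    have h2 : ∀ k, C (((β + Finsupp.single k₀ 1 : Fin v →₀ ℕ) k : S) * Z k i) *
        lf Z (β + Finsupp.single k₀ 1 - Finsupp.single k 1) =
        F2a_l Z k₀ * (C ((β k : S) * Z k i) * lf Z (β - Finsupp.single k 1)) +
          if k = k₀ then lf Z β * C (Z k₀ i) else 0 := by
      intro k
      rw [← F2a_sub]
      by_cases hk : k = k₀
      · subst hk
        rw [if_pos rfl, add_tsub_cancel_right, Finsupp.add_apply, Finsupp.single_eq_same]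
        push_cast
        rw [add_mul, C_add, one_mul]
        ring
      · rw [if_neg hk, add_zero, Finsupp.add_apply, Finsupp.single_eq_of_ne (by exact hk), add_zero]
    rw [Finset.sum_congr rfl fun k _ => h2 k, Finset.sum_add_distrib, ← Finset.mul_sum,
      Finset.sum_ite_eq' univ k₀, if_pos (mem_univ k₀), smul_eq_mul, smul_eq_mul]

theorem td_F2a : StF2a := by
  intro S _ v Z i j
  constructor
  · unfold GG SA
    rw [finsuppAntidiag_zero, sum_singleton, F2a_lf_zero, mul_one, zero_add, Finsupp.coe_zero,
      Pi.zero_apply, zero_add, Nat.cast_one, one_mul, coeff_X']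
    by_cases h : i = j
    · rw [h, if_pos rfl, if_pos rfl]
    · rw [if_neg h, if_neg]
      intro h'
      exact h (Finsupp.single_left_injective one_ne_zero h').symm
  · intro m
    have hterm : ∀ α : Fin v →₀ ℕ, ((α i + 1 : ℕ) : S) *
        coeff (α + Finsupp.single i 1) (X j * lf Z α) =
        (if i = j then coeff α (lf Z α) else 0) +
          ∑ k, Z k i * ((α k : S) * coeff α (X j * lf Z (α - Finsupp.single k 1))) := by
      intro α
      have h1 := coeff_pderiv (i := i) (X j * lf Z α) α
      rw [Nat.cast_add, Nat.cast_one, mul_comm, ← h1, Derivation.leibniz, F2a_pd Z i _ α rfl,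
        coeff_add, add_comm, smul_eq_mul, smul_eq_mul]
      congr 1
      · by_cases h : i = j
        · rw [h, if_pos rfl, pderiv_X_self, mul_one]
        · rw [if_neg h, pderiv_X_of_ne (Ne.symm h), mul_zero, coeff_zero]
      · rw [Finset.mul_sum, coeff_sum]
        refine Finset.sum_congr rfl fun k _ => ?_
        rw [mul_left_comm, coeff_C_mul]
        ring
    have hbij : ∀ k : Fin v, ∑ α ∈ SA v (m + 1),
        ((α k : S) * coeff α (X j * lf Z (α - Finsupp.single k 1))) = GG Z m k j := by
      intro k
      unfold GG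
      symm
      refine Finset.sum_of_injOn (fun β => β + Finsupp.single k 1) ?_ ?_ ?_ ?_
      · intro β _ β' _ h
        exact add_right_cancel h
      · intro β hβ
        rw [mem_coe, F2a_mem] at hβ ⊢
        simp only [Finsupp.add_apply, Finset.sum_add_distrib, hβ]
        congr 1
        rw [Finset.sum_eq_single k]
        · simp
        · intro b _ hb
          rw [Finsupp.single_eq_of_ne (by exact hb)]
        · intro h
          exact absurd (mem_univ k) h
      · intro α hα hna
        by_cases h : α k = 0
        · rw [h]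
          simp
        · exfalso
          apply hna
          have hle : Finsupp.single k 1 ≤ α := by
            rw [Finsupp.single_le_iff]
            omega
          refine ⟨α - Finsupp.single k 1, ?_, tsub_add_cancel_of_le hle⟩
          rw [mem_coe, F2a_mem]
          rw [F2a_mem] at hα
          have h2 : ∑ j, (α - Finsupp.single k 1 + Finsupp.single k 1 : Fin v →₀ ℕ) j = m + 1 := by
            rw [tsub_add_cancel_of_le hle]
            exact hα
          simp only [Finsupp.add_apply, Finset.sum_add_distrib] at h2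
          have h1 : ∑ j, (Finsupp.single k 1 : Fin v →₀ ℕ) j = 1 := by
            rw [Finset.sum_eq_single k]
            · simp
            · intro b _ hb
              rw [Finsupp.single_eq_of_ne (by exact hb)]
            · intro h
              exact absurd (mem_univ k) h
          omega
      · intro β _
        rw [add_tsub_cancel_right, Finsupp.add_apply, Finsupp.single_eq_same]
    have hG : GG Z (m + 1) i j = ∑ α ∈ SA v (m + 1), (((α i + 1 : ℕ) : S) *
        coeff (α + Finsupp.single i 1) (X j * lf Z α)) := rfl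
    rw [hG, Finset.sum_congr rfl fun α _ => hterm α, Finset.sum_add_distrib]
    congr 1
    · by_cases h : i = j
      · simp only [if_pos h]
        rfl
      · simp only [if_neg h, Finset.sum_const_zero]
    · rw [Finset.sum_comm]
      refine Finset.sum_congr rfl fun k _ => ?_
      rw [← Finset.mul_sum, hbij]

end Pool.Agent.Work.MP_499dc6_lc.TD
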