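import Pool.Agent.Work.MP_499dc6_lc.TD.Stmts

/-!
# Item F2b: the sum over the exponents of degree `m + 1` in terms of those of degree `m`
-/

namespace Pool.Agent.Work.MP_499dc6_lc.TD

open MvPolynomial Finset
open Pool.Agent.Work.MP_499dc6_lc.CD
open Pool.Agent.Work.MP_499dc6_lc.D3
open Pool.Agent.Work.MP_499dc6_lc.Fib

section

variable {S : Type} [CommRing S] {v : ℕ}

theorem F2b_mem (m : ℕ) (α : Fin v →₀ ℕ) : α ∈ SA v m ↔ ∑ i, α i = m := by
  unfold SA
  rw [Finset.mem_finsuppAntidiag]
  exact ⟨fun h => h.1, fun h => ⟨h, Finset.subset_univ _⟩⟩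

/-- Raising one exponent multiplies by the linear form. -/
theorem F2b_lf (X : Matrix (Fin v) (Fin v) S) (β : Fin v →₀ ℕ) (k : Fin v) :
    lf X (β + Finsupp.single k 1) =
      (∑ j, MvPolynomial.C (X k j) * MvPolynomial.X j) * lf X β := by
  unfold lf
  have h : ∀ i : Fin v, (∑ j, MvPolynomial.C (X i j) * (MvPolynomial.X j : MvPolynomial (Fin v) S)) ^
      ((β + Finsupp.single k 1 : Fin v →₀ ℕ) i) =
      (∑ j, MvPolynomial.C (X i j) * (MvPolynomial.X j : MvPolynomial (Fin v) S)) ^ β i *
      (if i = k then (∑ j, MvPolynomial.C (X i j) * (MvPolynomial.X j : MvPolynomial (Fin v) S))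
        else 1) := by
    intro i
    rw [Finsupp.add_apply, Finsupp.single_apply]
    by_cases hik : i = k
    · subst hik
      simp [pow_succ]
    · rw [if_neg hik, if_neg (fun h => hik h.symm)]
      simp
  rw [Finset.prod_congr rfl (fun i _ => h i), Finset.prod_mul_distrib, Finset.prod_ite_eq' univ k,
    if_pos (Finset.mem_univ k), mul_comm]

theorem F2b_coeff (X : Matrix (Fin v) (Fin v) S) (β : Fin v →₀ ℕ) (k : Fin v) :
    MvPolynomial.coeff (β + Finsupp.single k 1) (lf X (β + Finsupp.single k 1)) =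
      ∑ j, X k j * MvPolynomial.coeff (β + Finsupp.single k 1) (MvPolynomial.X j * lf X β) := by
  rw [F2b_lf, Finset.sum_mul, MvPolynomial.coeff_sum]
  refine Finset.sum_congr rfl (fun j _ => ?_)
  rw [mul_assoc, MvPolynomial.coeff_C_mul]

/-- The bijection between the exponents of degree `m + 1` with `α k ≠ 0` and those of degree `m`. -/
theorem F2b_bij (m : ℕ) (k : Fin v) (c : (Fin v →₀ ℕ) → S) :
    ∑ α ∈ SA v (m + 1), ((α k : ℕ) : S) * c α =
      ∑ β ∈ SA v m, ((β k + 1 : ℕ) : S) * c (β + Finsupp.single k 1) := by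
  have hsub : (SA v m).image (fun β => β + Finsupp.single k 1) ⊆ SA v (m + 1) := by
    intro α hα
    obtain ⟨β, hβ, rfl⟩ := Finset.mem_image.1 hα
    rw [F2b_mem] at hβ ⊢
    simp only [Finsupp.add_apply, Finset.sum_add_distrib, hβ]
    congr 1
    simp [Finsupp.single_apply]
  rw [← Finset.sum_subset hsub, Finset.sum_image]
  · refine Finset.sum_congr rfl (fun β _ => ?_)
    rw [Finsupp.add_apply, Finsupp.single_eq_same]
  · intro a _ b _ hab
    exact add_right_cancel hab
  · intro α hα hn
    have h0 : α k = 0 := by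
      by_contra hk
      apply hn
      have hle : Finsupp.single k 1 ≤ α := by
        rw [Finsupp.single_le_iff]
        exact Nat.one_le_iff_ne_zero.2 hk
      have heq : α - Finsupp.single k 1 + Finsupp.single k 1 = α := tsub_add_cancel_of_le hle
      refine Finset.mem_image.2 ⟨α - Finsupp.single k 1, ?_, heq⟩
      rw [F2b_mem] at hα ⊢
      have h1 : ∑ i, ((α - Finsupp.single k 1 + Finsupp.single k 1 : Fin v →₀ ℕ) i) = m + 1 := by
        rw [heq, hα]
      simp only [Finsupp.add_apply, Finset.sum_add_distrib] at h1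
      have h2 : ∑ i, (Finsupp.single k 1 : Fin v →₀ ℕ) i = 1 := by
        simp [Finsupp.single_apply]
      omega
    rw [h0]
    simp

end

theorem td_F2b : StF2b := by
  intro S _ v X m
  have h1 : ((m + 1 : ℕ) : S) * hk X (m + 1) =
      ∑ k, ∑ α ∈ SA v (m + 1), ((α k : ℕ) : S) * MvPolynomial.coeff α (lf X α) := by
    unfold hk
    rw [Finset.mul_sum, Finset.sum_comm]
    refine Finset.sum_congr rfl (fun α hα => ?_)
    rw [← Finset.sum_mul, ← Nat.cast_sum, (F2b_mem _ _).1 hα]
  rw [h1]
  refine Finset.sum_congr rfl (fun k _ => ?_)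
  rw [F2b_bij m k (fun α => MvPolynomial.coeff α (lf X α))]
  unfold GG
  simp only [F2b_coeff, Finset.mul_sum]
  rw [Finset.sum_comm]
  refine Finset.sum_congr rfl (fun j _ => Finset.sum_congr rfl (fun β _ => ?_))
  ring

end Pool.Agent.Work.MP_499dc6_lc.TD
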