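import Pool.Agent.Work.MP_499dc6_lc.TD.Stmts

/-!
# Depth three with determinants: item F3
-/

namespace Pool.Agent.Work.MP_499dc6_lc.TD

open MvPolynomial Finset
open Pool.Agent.Work.MP_499dc6_lc.CD
open Pool.Agent.Work.MP_499dc6_lc.D3
open Pool.Agent.Work.MP_499dc6_lc.Fib

theorem F3_ek_zero {S : Type} [CommRing S] {v : ℕ} (X : Matrix (Fin v) (Fin v) S) :
    ek X 0 = 1 := by
  unfold ek
  rw [Polynomial.coeff_zero_eq_eval_zero, _root_.eval_det_add_X_smul, Matrix.det_one,
    Polynomial.eval_one]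

theorem F3_hk_zero {S : Type} [CommRing S] {v : ℕ} (X : Matrix (Fin v) (Fin v) S) :
    hk X 0 = 1 := by
  unfold hk SA
  rw [Finset.finsuppAntidiag_zero, Finset.sum_singleton]
  unfold lf
  simp

/-- the coefficients of `e` as a power series. -/
noncomputable def F3_E {S : Type} [CommRing S] {v : ℕ} (X : Matrix (Fin v) (Fin v) S) :
    PowerSeries S := PowerSeries.mk (fun k => ek X k)

/-- the coefficients of `h` with signs. -/
noncomputable def F3_H {S : Type} [CommRing S] {v : ℕ} (X : Matrix (Fin v) (Fin v) S) :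
    PowerSeries S := PowerSeries.mk (fun m => (-1) ^ m * hk X m)

/-- the power sums with signs. -/
noncomputable def F3_T {S : Type} [CommRing S] {v : ℕ} (X : Matrix (Fin v) (Fin v) S) :
    PowerSeries S := PowerSeries.mk (fun i => (-1) ^ i * (X ^ (i + 1)).trace)

theorem F3_dE (hF1 : StF1) {S : Type} [CommRing S] {v : ℕ} (X : Matrix (Fin v) (Fin v) S) :
    PowerSeries.derivative S (F3_E X) = F3_T X * F3_E X := by
  ext n
  rw [PowerSeries.coeff_derivative, PowerSeries.coeff_mul]
  unfold F3_E F3_T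
  simp only [PowerSeries.coeff_mk]
  have h1 := hF1 S v X (n + 1)
  rw [Finset.Nat.sum_antidiagonal_eq_sum_range_succ
    (fun i j => (-1) ^ i * (X ^ (i + 1)).trace * ek X j) n]
  rw [mul_comm, ← Nat.cast_succ]
  rw [Nat.succ_eq_add_one, h1]
  refine Finset.sum_congr rfl fun i _ => ?_
  rw [Nat.add_sub_cancel, mul_assoc]

theorem F3_dH (hF2 : StF2) {S : Type} [CommRing S] {v : ℕ} (X : Matrix (Fin v) (Fin v) S) :
    PowerSeries.derivative S (F3_H X) = -(F3_T X * F3_H X) := by
  ext n
  rw [PowerSeries.coeff_derivative, map_neg, PowerSeries.coeff_mul]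
  unfold F3_H F3_T
  simp only [PowerSeries.coeff_mk]
  have h1 := hF2 S v X (n + 1)
  rw [Finset.Nat.sum_antidiagonal_eq_sum_range_succ
    (fun i j => (-1) ^ i * (X ^ (i + 1)).trace * ((-1) ^ j * hk X j)) n]
  rw [mul_assoc, mul_comm (hk X (n + 1)), ← Nat.cast_succ, Nat.succ_eq_add_one, h1,
    Finset.mul_sum, ← Finset.sum_neg_distrib]
  refine Finset.sum_congr rfl fun i hi => ?_
  have h2 : i ≤ n := Nat.lt_succ_iff.1 (Finset.mem_range.1 hi)
  have h3 : ((-1 : S)) ^ n = (-1) ^ i * (-1) ^ (n - i) := by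
    rw [← pow_add, Nat.add_sub_cancel' h2]
  rw [Nat.add_sub_cancel, pow_succ, h3]
  ring

/-- Item F3. -/
theorem td_F3 (hF1 : StF1) (hF2 : StF2) : StF3 := by
  intro S _ _ _ v X n
  have h1 : F3_E X * F3_H X = 1 := by
    apply PowerSeries.derivative.ext
    · rw [Derivation.leibniz, F3_dE hF1, F3_dH hF2, PowerSeries.derivative_one, smul_eq_mul,
        smul_eq_mul]
      ring
    · rw [map_mul, map_one]
      unfold F3_E F3_H
      rw [← PowerSeries.coeff_zero_eq_constantCoeff_apply,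
        ← PowerSeries.coeff_zero_eq_constantCoeff_apply, PowerSeries.coeff_mk,
        PowerSeries.coeff_mk, F3_ek_zero, F3_hk_zero]
      ring
  have h2 := congrArg (PowerSeries.coeff n) h1
  rw [PowerSeries.coeff_mul, PowerSeries.coeff_one] at h2
  rw [← h2]
  refine Finset.sum_congr rfl fun p _ => ?_
  unfold F3_E F3_H
  rw [PowerSeries.coeff_mk, PowerSeries.coeff_mk]
  ring

end Pool.Agent.Work.MP_499dc6_lc.TD
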