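import Pool.Agent.Work.MP_499dc6_lc.TD.Stmts

/-!
# Depth three with determinants: item H1
-/

namespace Pool.Agent.Work.MP_499dc6_lc.TD

open MvPolynomial Finset
open Pool.Agent.Work.MP_499dc6_lc.CD
open Pool.Agent.Work.MP_499dc6_lc.D3
open Pool.Agent.Work.MP_499dc6_lc.Fib

theorem H1_binom {R : Type} [CommRing R] {v : ℕ} (f g : Fin v → R) (α : Fin v →₀ ℕ) :
    ∏ i, (f i + g i) ^ α i = ∑ γ ∈ Finset.Icc 0 α, ((∏ i, (α i).choose (γ i) : ℕ) : R) *
      ((∏ i, f i ^ γ i) * ∏ i, g i ^ (α - γ) i) := by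
  have h1 : ∏ i, (f i + g i) ^ α i = ∏ i, ∑ k ∈ range (α i + 1),
      f i ^ k * g i ^ (α i - k) * ((α i).choose k : R) :=
    Finset.prod_congr rfl fun i _ => add_pow _ _ _
  rw [h1, Finset.prod_univ_sum]
  refine Finset.sum_nbij' (fun p => Finsupp.equivFunOnFinite.symm p) (fun γ => ⇑γ) ?_ ?_ ?_ ?_ ?_
  · intro p hp
    rw [Fintype.mem_piFinset] at hp
    rw [Finset.mem_Icc]
    refine ⟨zero_le, fun i => ?_⟩
    have := Finset.mem_range.1 (hp i)
    exact Nat.lt_succ_iff.1 this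
  · intro γ hγ
    rw [Finset.mem_Icc] at hγ
    rw [Fintype.mem_piFinset]
    intro i
    exact Finset.mem_range.2 (Nat.lt_succ_of_le (hγ.2 i))
  · intro p _
    rfl
  · intro γ _
    exact Finsupp.equivFunOnFinite.symm_apply_apply γ
  · intro p _
    rw [Finset.prod_mul_distrib, Finset.prod_mul_distrib, Nat.cast_prod]
    rw [mul_comm]
    rfl

theorem H1_anti {R : Type} [CommRing R] {v : ℕ} (F : (Fin v →₀ ℕ) → (Fin v →₀ ℕ) → R)
    (α : Fin v →₀ ℕ) : ∑ x ∈ HasAntidiagonal.antidiagonal α, F x.1 x.2 =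
      ∑ ε ∈ Finset.Icc 0 α, F ε (α - ε) := by
  refine Finset.sum_nbij' (fun x => x.1) (fun ε => (ε, α - ε)) ?_ ?_ ?_ ?_ ?_
  · intro x hx
    rw [HasAntidiagonal.mem_antidiagonal] at hx
    rw [Finset.mem_Icc]
    exact ⟨zero_le, by rw [← hx]; exact le_self_add⟩
  · intro ε hε
    rw [Finset.mem_Icc] at hε
    rw [HasAntidiagonal.mem_antidiagonal]
    exact add_tsub_cancel_of_le hε.2
  · rintro ⟨x, y⟩ hx
    rw [HasAntidiagonal.mem_antidiagonal] at hx
    have h2 : α - x = y := by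
      rw [← hx]
      exact add_tsub_cancel_left x y
    show (x, α - x) = (x, y)
    rw [h2]
  · intro ε _
    rfl
  · rintro ⟨x, y⟩ hx
    rw [HasAntidiagonal.mem_antidiagonal] at hx
    have h2 : α - x = y := by
      rw [← hx]
      exact add_tsub_cancel_left x y
    show F x y = F x (α - x)
    rw [h2]

theorem H1_lf {S : Type} [CommRing S] {v : ℕ} (A B : Matrix (Fin v) (Fin v) S)
    (α : Fin v →₀ ℕ) : lf (A + B) α = ∑ γ ∈ Finset.Icc 0 α,
      ((∏ i, (α i).choose (γ i) : ℕ) : MvPolynomial (Fin v) S) * (lf A γ * lf B (α - γ)) := by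
  unfold lf
  rw [← H1_binom]
  refine Finset.prod_congr rfl fun i _ => ?_
  congr 1
  rw [← Finset.sum_add_distrib]
  refine Finset.sum_congr rfl fun j _ => ?_
  rw [Matrix.add_apply, C_add, add_mul]

theorem H1_hom {S : Type} [CommRing S] {v : ℕ} (A : Matrix (Fin v) (Fin v) S)
    (γ : Fin v →₀ ℕ) : (lf A γ).IsHomogeneous γ.degree := by
  unfold lf
  rw [Finsupp.degree_eq_sum]
  refine IsHomogeneous.prod _ _ _ fun i _ => ?_
  have h : (∑ j, MvPolynomial.C (A i j) * MvPolynomial.X j : MvPolynomial (Fin v) S).IsHomogeneous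
      1 := by
    refine IsHomogeneous.sum _ _ _ fun j _ => ?_
    have := (isHomogeneous_C (Fin v) (A i j)).mul (isHomogeneous_X S j)
    rwa [zero_add] at this
  have h2 := h.pow (γ i)
  rwa [one_mul] at h2

theorem H1_mem_SA {v b : ℕ} (γ : Fin v →₀ ℕ) : γ ∈ SA v b ↔ γ.degree = b := by
  unfold SA
  rw [Finset.mem_finsuppAntidiag, Finsupp.degree_eq_sum]
  exact ⟨fun h => h.1, fun h => ⟨h, Finset.subset_univ _⟩⟩

theorem H1_coeff {S : Type} [CommRing S] {v : ℕ} (A B : Matrix (Fin v) (Fin v) S)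
    (α : Fin v →₀ ℕ) : MvPolynomial.coeff α (lf (A + B) α) =
      ∑ γ ∈ Finset.Icc 0 α, ∑ ε ∈ Finset.Icc 0 α, MvPolynomial.coeff ε (lf A γ) *
        (((∏ i, (α i).choose (γ i) : ℕ) : S) * MvPolynomial.coeff (α - ε) (lf B (α - γ))) := by
  rw [H1_lf, MvPolynomial.coeff_sum]
  refine Finset.sum_congr rfl fun γ _ => ?_
  have h1 : ((∏ i, (α i).choose (γ i) : ℕ) : MvPolynomial (Fin v) S) =
      C (((∏ i, (α i).choose (γ i) : ℕ) : S)) := by
    rw [map_natCast]
  rw [h1, MvPolynomial.coeff_C_mul, MvPolynomial.coeff_mul,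
    H1_anti (fun x y => MvPolynomial.coeff x (lf A γ) * MvPolynomial.coeff y (lf B (α - γ))),
    Finset.mul_sum]
  refine Finset.sum_congr rfl fun ε _ => ?_
  ring

theorem H1_one {S : Type} [CommRing S] {v m : ℕ} (A : Matrix (Fin v) (Fin v) S)
    (α : Fin v →₀ ℕ) (hα : α.degree = m) (T : (Fin v →₀ ℕ) → (Fin v →₀ ℕ) → S)
    [DecidableRel (fun γ ε : Fin v →₀ ℕ => γ ≤ ε)]
    (hdec : ∀ γ ε : Fin v →₀ ℕ, Decidable (γ ≤ α ∧ ε ≤ α)) :
    ∑ p ∈ HasAntidiagonal.antidiagonal m, ∑ γ ∈ SA v p.1, ∑ ε ∈ SA v p.1,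
      MvPolynomial.coeff ε (lf A γ) * (if γ ≤ α ∧ ε ≤ α then T γ ε else 0) =
    ∑ γ ∈ Finset.Icc 0 α, ∑ ε ∈ Finset.Icc 0 α, MvPolynomial.coeff ε (lf A γ) * T γ ε := by
  classical
  have hmap : ∀ γ ∈ Finset.Icc 0 α, (γ.degree, m - γ.degree) ∈ HasAntidiagonal.antidiagonal m := by
    intro γ hγ
    rw [Finset.mem_Icc] at hγ
    rw [HasAntidiagonal.mem_antidiagonal]
    have h1 : γ.degree ≤ m := by
      rw [← hα, Finsupp.degree_eq_sum, Finsupp.degree_eq_sum]
      exact Finset.sum_le_sum fun i _ => hγ.2 i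
    show γ.degree + (m - γ.degree) = m
    omega
  rw [← Finset.sum_fiberwise_of_maps_to hmap]
  refine Finset.sum_congr rfl fun p hp => ?_
  rw [HasAntidiagonal.mem_antidiagonal] at hp
  have hset : (Finset.Icc 0 α).filter (fun γ => (γ.degree, m - γ.degree) = p) =
      (SA v p.1).filter (fun γ => γ ≤ α) := by
    ext γ
    rw [Finset.mem_filter, Finset.mem_filter, H1_mem_SA, Finset.mem_Icc]
    constructor
    · rintro ⟨⟨_, h1⟩, h2⟩
      exact ⟨by rw [← h2], h1⟩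
    · rintro ⟨h1, h2⟩
      refine ⟨⟨zero_le, h2⟩, ?_⟩
      ext
      · exact h1
      · show m - γ.degree = p.2
        omega
  rw [hset, Finset.sum_filter]
  refine Finset.sum_congr rfl fun γ hγ => ?_
  rw [H1_mem_SA] at hγ
  by_cases hle : γ ≤ α
  · rw [if_pos hle]
    have h3 : ∑ ε ∈ SA v p.1, MvPolynomial.coeff ε (lf A γ) *
        (if γ ≤ α ∧ ε ≤ α then T γ ε else 0) =
        ∑ ε ∈ (SA v p.1).filter (fun ε => ε ≤ α), MvPolynomial.coeff ε (lf A γ) * T γ ε := by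
      rw [Finset.sum_filter]
      refine Finset.sum_congr rfl fun ε _ => ?_
      by_cases he : ε ≤ α
      · rw [if_pos ⟨hle, he⟩, if_pos he]
      · rw [if_neg (fun h => he h.2), if_neg he, mul_zero]
    rw [h3]
    refine Finset.sum_subset ?_ ?_
    · intro ε hε
      rw [Finset.mem_filter] at hε
      rw [Finset.mem_Icc]
      exact ⟨zero_le, hε.2⟩
    · intro ε hε hn
      rw [Finset.mem_Icc] at hε
      have h4 : ε.degree ≠ γ.degree := by
        intro h
        apply hn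
        rw [Finset.mem_filter, H1_mem_SA]
        exact ⟨by rw [h, hγ], hε.2⟩
      rw [(H1_hom A γ).coeff_eq_zero h4, zero_mul]
  · rw [if_neg hle]
    refine Finset.sum_eq_zero fun ε _ => ?_
    rw [if_neg (fun h => hle h.1), mul_zero]

theorem td_H1 : StH1 := by
  classical
  intro S _ v A B m
  unfold hk
  have h1 : ∀ p ∈ HasAntidiagonal.antidiagonal m, Hs A B p.1 p.2 =
      ∑ α ∈ SA v m, ∑ γ ∈ SA v p.1, ∑ ε ∈ SA v p.1, MvPolynomial.coeff ε (lf A γ) *
        (if γ ≤ α ∧ ε ≤ α then ((∏ i, (α i).choose (γ i) : ℕ) : S) *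
          MvPolynomial.coeff (α - ε) (lf B (α - γ)) else 0) := by
    intro p hp
    rw [HasAntidiagonal.mem_antidiagonal] at hp
    unfold Hs
    rw [hp]
    symm
    rw [Finset.sum_comm]
    refine Finset.sum_congr rfl fun γ _ => ?_
    rw [Finset.sum_comm]
    refine Finset.sum_congr rfl fun ε _ => ?_
    rw [Finset.mul_sum]
  rw [Finset.sum_congr rfl h1, Finset.sum_comm]
  refine Finset.sum_congr rfl fun α hα => ?_
  rw [H1_mem_SA] at hα
  rw [H1_coeff, H1_one A α hα (fun γ ε => ((∏ i, (α i).choose (γ i) : ℕ) : S) *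
    MvPolynomial.coeff (α - ε) (lf B (α - γ))) (fun γ ε => inferInstance)]

end Pool.Agent.Work.MP_499dc6_lc.TD
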