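import Pool.Agent.Work.MP_499dc6_lc.TD.Stmts

/-!
# Depth three with determinants: item H2 (degrees and bound of the symmetric side)
-/

namespace Pool.Agent.Work.MP_499dc6_lc.TD

open MvPolynomial Finset
open Pool.Agent.Work.MP_499dc6_lc.CD
open Pool.Agent.Work.MP_499dc6_lc.D3
open Pool.Agent.Work.MP_499dc6_lc.Fib

section
variable {Y Z : Type} [Fintype Y] [Fintype Z] {K : Type} [Field K]

theorem H2_zero (x y : ℕ) : IsBi (0 : MvPolynomial (Y ⊕ Z) K) x y := by
  intro m hm
  exact absurd (coeff_zero m) hm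

theorem H2_add {f g : MvPolynomial (Y ⊕ Z) K} {x y : ℕ} (hf : IsBi f x y) (hg : IsBi g x y) :
    IsBi (f + g) x y := by
  intro m hm
  rw [coeff_add] at hm
  by_cases h : coeff m f = 0
  · rw [h, zero_add] at hm
    exact hg m hm
  · exact hf m h

theorem H2_sum {ι : Type} (s : Finset ι) (f : ι → MvPolynomial (Y ⊕ Z) K) {x y : ℕ}
    (h : ∀ i ∈ s, IsBi (f i) x y) : IsBi (∑ i ∈ s, f i) x y := by
  classical
  induction s using Finset.induction_on with
  | empty => rw [Finset.sum_empty]; exact H2_zero x y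
  | insert i s hi ih =>
    rw [Finset.sum_insert hi]
    exact H2_add (h i (Finset.mem_insert_self i s))
      (ih fun j hj => h j (Finset.mem_insert_of_mem hj))

theorem H2_mul {g h : MvPolynomial (Y ⊕ Z) K} {x y x' y' : ℕ} (hg : IsBi g x y)
    (hh : IsBi h x' y') : IsBi (g * h) (x + x') (y + y') := by
  intro m hm
  classical
  rw [coeff_mul] at hm
  obtain ⟨⟨m1, m2⟩, hmem, hne⟩ := Finset.exists_ne_zero_of_sum_ne_zero hm
  rw [Finset.HasAntidiagonal.mem_antidiagonal] at hmem
  simp only at hmem hne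
  have h1 := hg m1 (left_ne_zero_of_mul hne)
  have h2 := hh m2 (right_ne_zero_of_mul hne)
  subst hmem
  unfold dY dZ at *
  simp only [Finsupp.add_apply, Finset.sum_add_distrib]
  omega

theorem H2_one : IsBi (1 : MvPolynomial (Y ⊕ Z) K) 0 0 := by
  classical
  intro m hm
  rw [coeff_one] at hm
  have h0 : 0 = m := by
    by_contra h
    rw [if_neg h] at hm
    exact hm rfl
  subst h0
  simp [dY, dZ]

theorem H2_nat (n : ℕ) {f : MvPolynomial (Y ⊕ Z) K} {x y : ℕ} (hf : IsBi f x y) :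
    IsBi ((n : MvPolynomial (Y ⊕ Z) K) * f) x y := by
  intro m hm
  have e : (n : MvPolynomial (Y ⊕ Z) K) = C (n : K) := by rw [map_natCast]
  rw [e, coeff_C_mul] at hm
  exact hf m (right_ne_zero_of_mul hm)

/-- all coefficients of `F` are bihomogeneous -/
def H2_All {v : ℕ} (F : MvPolynomial (Fin v) (MvPolynomial (Y ⊕ Z) K)) (x y : ℕ) : Prop :=
  ∀ e, IsBi (coeff e F) x y

theorem H2_All_mul {v : ℕ} {F G : MvPolynomial (Fin v) (MvPolynomial (Y ⊕ Z) K)} {x y x' y' : ℕ}
    (hF : H2_All F x y) (hG : H2_All G x' y') : H2_All (F * G) (x + x') (y + y') := by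
  classical
  intro e
  rw [coeff_mul]
  exact H2_sum _ _ fun p _ => H2_mul (hF p.1) (hG p.2)

theorem H2_All_one {v : ℕ} : H2_All (1 : MvPolynomial (Fin v) (MvPolynomial (Y ⊕ Z) K)) 0 0 := by
  classical
  intro e
  rw [coeff_one]
  split_ifs
  · exact H2_one
  · exact H2_zero 0 0

theorem H2_All_pow {v : ℕ} {F : MvPolynomial (Fin v) (MvPolynomial (Y ⊕ Z) K)} {x y : ℕ}
    (hF : H2_All F x y) (k : ℕ) : H2_All (F ^ k) (k * x) (k * y) := by
  induction k with
  | zero =>
    rw [pow_zero, zero_mul, zero_mul]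
    exact H2_All_one
  | succ k ih =>
    rw [pow_succ, add_mul, add_mul, one_mul, one_mul]
    exact H2_All_mul ih hF

theorem H2_All_lin {v : ℕ} (A : Matrix (Fin v) (Fin v) (MvPolynomial (Y ⊕ Z) K)) {x y : ℕ}
    (hA : ∀ i j, IsBi (A i j) x y) (i : Fin v) :
    H2_All (∑ j, MvPolynomial.C (A i j) * MvPolynomial.X j) x y := by
  classical
  intro e
  rw [coeff_sum]
  refine H2_sum _ _ fun j _ => ?_
  rw [coeff_C_mul, coeff_X']
  split_ifs
  · rw [mul_one]; exact hA i j
  · rw [mul_zero]; exact H2_zero x y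

theorem H2_All_lf {v : ℕ} (A : Matrix (Fin v) (Fin v) (MvPolynomial (Y ⊕ Z) K)) {x y : ℕ}
    (hA : ∀ i j, IsBi (A i j) x y) (γ : Fin v →₀ ℕ) :
    H2_All (lf A γ) ((∑ i, γ i) * x) ((∑ i, γ i) * y) := by
  classical
  have key : ∀ s : Finset (Fin v),
      H2_All (∏ i ∈ s, (∑ j, MvPolynomial.C (A i j) * MvPolynomial.X j) ^ γ i)
        ((∑ i ∈ s, γ i) * x) ((∑ i ∈ s, γ i) * y) := by
    intro s
    induction s using Finset.induction_on with
    | empty =>
      rw [Finset.prod_empty, Finset.sum_empty, zero_mul, zero_mul]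
      exact H2_All_one
    | insert i s hi ih =>
      rw [Finset.prod_insert hi, Finset.sum_insert hi, add_mul, add_mul]
      exact H2_All_mul (H2_All_pow (H2_All_lin A hA i) (γ i)) ih
  exact key Finset.univ

theorem H2_BBsum {ι : Type} (al be c : ℝ) (s : Finset ι) (f : ι → MvPolynomial (Y ⊕ Z) K)
    (h : ∀ i ∈ s, BB al be (f i) c) : BB al be (∑ i ∈ s, f i) (s.card * c) := by
  classical
  induction s using Finset.induction_on with
  | empty =>
    rw [Finset.sum_empty, Finset.card_empty, Nat.cast_zero, zero_mul]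
    exact BB.zero
  | insert i s hi ih =>
    rw [Finset.sum_insert hi, Finset.card_insert_of_notMem hi]
    refine ((h i (Finset.mem_insert_self i s)).add
      (ih fun j hj => h j (Finset.mem_insert_of_mem hj))).mono (le_of_eq ?_)
    push_cast
    ring

end

theorem H2_deg {v b : ℕ} {γ : Fin v →₀ ℕ} (h : γ ∈ SA v b) : ∑ i, γ i = b := by
  unfold SA at h
  rw [Finset.mem_finsuppAntidiag] at h
  exact h.1

theorem td_H2 : StH2 := by
  intro Y Z _ _ K _ al be v A B hA hB b b'
  classical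
  have hg : ∀ γ ∈ SA v b, ∀ ε : Fin v →₀ ℕ, IsBi (MvPolynomial.coeff ε (lf A γ)) b 0 := by
    intro γ hγ ε
    have := H2_All_lf A hA γ ε
    rwa [H2_deg hγ, mul_one, mul_zero] at this
  have hh : ∀ γ ∈ SA v b, ∀ ε ∈ SA v b, IsBi (∑ α ∈ SA v (b + b'), if γ ≤ α ∧ ε ≤ α then
      ((∏ i, (α i).choose (γ i) : ℕ) : MvPolynomial (Y ⊕ Z) K) *
        MvPolynomial.coeff (α - ε) (lf B (α - γ)) else 0) 0 b' := by
    intro γ hγ ε _
    refine H2_sum _ _ fun α hα => ?_
    split_ifs with hle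
    · apply H2_nat
      have h1 := H2_All_lf B hB (α - γ) (α - ε)
      have h2 : ∑ i, (α - γ) i = b' := by
        have e1 : ∑ i, (α - γ) i + ∑ i, γ i = ∑ i, α i := by
          rw [← Finset.sum_add_distrib]
          refine Finset.sum_congr rfl fun i _ => ?_
          rw [Finsupp.tsub_apply]
          exact Nat.sub_add_cancel (hle.1 i)
        rw [H2_deg hγ, H2_deg hα] at e1
        omega
      rwa [h2, mul_one, mul_zero] at h1
    · exact H2_zero 0 b'
  refine ⟨?_, ?_⟩
  · unfold Hs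
    refine H2_sum _ _ fun γ hγ => H2_sum _ _ fun ε hε => ?_
    have := H2_mul (hg γ hγ ε) (hh γ hγ ε hε)
    rwa [add_zero, zero_add] at this
  · unfold Hs
    have h1 : BB al be (∑ γ ∈ SA v b, ∑ ε ∈ SA v b, MvPolynomial.coeff ε (lf A γ) *
        ∑ α ∈ SA v (b + b'), if γ ≤ α ∧ ε ≤ α then
          ((∏ i, (α i).choose (γ i) : ℕ) : MvPolynomial (Y ⊕ Z) K) *
            MvPolynomial.coeff (α - ε) (lf B (α - γ)) else 0)
        ((SA v b).card * ((SA v b).card * Real.exp (-((b : ℝ) * al + b' * be) / 2))) := by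
      refine H2_BBsum al be _ _ _ fun γ hγ => H2_BBsum al be _ _ _ fun ε hε => ?_
      refine (BB.term (hg γ hγ ε) (hh γ hγ ε hε)).mono (le_of_eq ?_)
      congr 1
      push_cast
      ring
    have h2 : (((SA v b).card : ℝ) ^ 2 * Real.exp (-((b : ℝ) * al + b' * be) / 2)) =
        ((SA v b).card * ((SA v b).card * Real.exp (-((b : ℝ) * al + b' * be) / 2))) := by
      ring
    rw [h2]
    exact h1

end Pool.Agent.Work.MP_499dc6_lc.TD
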