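import Pool.Agent.Work.MP_499dc6_lc.TD.Stmts

/-!
# Item H3: the number of the exponents of degree `b` in `v` variables
-/

namespace Pool.Agent.Work.MP_499dc6_lc.TD

open MvPolynomial Finset
open Pool.Agent.Work.MP_499dc6_lc.CD
open Pool.Agent.Work.MP_499dc6_lc.D3
open Pool.Agent.Work.MP_499dc6_lc.Fib

theorem H3_mem (v b : ℕ) (α : Fin v →₀ ℕ) : α ∈ SA v b ↔ ∑ i, α i = b := by
  unfold SA
  rw [Finset.mem_finsuppAntidiag]
  exact ⟨fun h => h.1, fun h => ⟨h, Finset.subset_univ _⟩⟩

/-- The number of exponents against the geometric series. -/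
theorem H3_card (v b : ℕ) (y : ℝ) (hy0 : 0 < y) (hy1 : y < 1) :
    ((SA v b).card : ℝ) * y ^ b ≤ (1 / (1 - y)) ^ v := by
  have h1 : ((SA v b).card : ℝ) * y ^ b = ∑ α ∈ SA v b, ∏ i, y ^ α i := by
    rw [← nsmul_eq_mul, ← Finset.sum_const]
    refine Finset.sum_congr rfl (fun α hα => ?_)
    rw [Finset.prod_pow_eq_pow_sum, (H3_mem v b α).1 hα]
  have h2 : ∑ α ∈ SA v b, ∏ i, y ^ α i ≤
      ∑ m ∈ Fintype.piFinset (fun _ : Fin v => range (b + 1)), ∏ i, y ^ m i := by
    rw [← Finset.sum_image (s := SA v b) (g := fun α : Fin v →₀ ℕ => (α : Fin v → ℕ))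
      (f := fun m : Fin v → ℕ => ∏ i, y ^ m i) (fun a _ c _ h => DFunLike.coe_injective h)]
    refine Finset.sum_le_sum_of_subset_of_nonneg ?_ (fun m _ _ => by positivity)
    intro m hm
    obtain ⟨α, hα, rfl⟩ := Finset.mem_image.1 hm
    rw [Fintype.mem_piFinset]
    intro i
    rw [Finset.mem_range, Nat.lt_succ_iff, ← (H3_mem v b α).1 hα]
    exact Finset.single_le_sum (f := fun i => α i) (fun _ _ => Nat.zero_le _) (Finset.mem_univ i)
  rw [h1]
  refine h2.trans ?_
  rw [← Finset.prod_univ_sum (fun _ : Fin v => range (b + 1)) (fun _ k => y ^ k),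
    Finset.prod_const, Finset.card_univ, Fintype.card_fin]
  refine pow_le_pow_left₀ (Finset.sum_nonneg fun _ _ => by positivity) ?_ _
  rw [le_div_iff₀ (by linarith), geom_sum_mul_neg]
  have : 0 ≤ y ^ (b + 1) := by positivity
  linarith

theorem td_H3 : StH3 := by
  intro v b
  set c : ℝ := Real.log (3 / 2) / 8 with hc
  have hlog : Real.log (21 / 20) ≤ c := by
    rw [hc, le_div_iff₀ (by norm_num), mul_comm]
    have h : Real.log ((21 / 20 : ℝ) ^ 8) ≤ Real.log (3 / 2) :=
      Real.log_le_log (by positivity) (by norm_num)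
    rw [Real.log_pow] at h
    exact_mod_cast h
  have hcpos : 0 < c := by
    rw [hc]
    exact div_pos (Real.log_pos (by norm_num)) (by norm_num)
  have hy0 : 0 < Real.exp (-c) := Real.exp_pos _
  have hy1 : Real.exp (-c) < 1 := by
    rw [Real.exp_lt_one_iff]
    linarith
  have hy2 : Real.exp (-c) ≤ 20 / 21 := by
    have h : Real.exp (-c) ≤ Real.exp (-Real.log (21 / 20)) := Real.exp_le_exp.2 (by linarith)
    rw [Real.exp_neg (Real.log (21 / 20)), Real.exp_log (by norm_num)] at h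
    refine h.trans (by norm_num)
  have hcard := H3_card v b (Real.exp (-c)) hy0 hy1
  have h21 : (1 / (1 - Real.exp (-c))) ^ v ≤ 21 ^ v := by
    refine pow_le_pow_left₀ (by
      have : 0 < 1 - Real.exp (-c) := by linarith
      positivity) ?_ _
    rw [div_le_iff₀ (by linarith)]
    linarith
  have hexp : Real.exp (-c) ^ b * Real.exp (c * b) = 1 := by
    rw [← Real.exp_nat_mul, ← Real.exp_add]
    have : (b : ℝ) * -c + c * b = 0 := by ring
    rw [this, Real.exp_zero]
  calc ((SA v b).card : ℝ) = ((SA v b).card : ℝ) * Real.exp (-c) ^ b * Real.exp (c * b) := by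
        rw [mul_assoc, hexp, mul_one]
    _ ≤ 21 ^ v * Real.exp (c * b) :=
        mul_le_mul_of_nonneg_right (hcard.trans h21) (Real.exp_pos _).le

end Pool.Agent.Work.MP_499dc6_lc.TD
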