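import Pool.Agent.Work.MP_499dc6_lc.TD.Stmts

/-!
# Depth three with determinants, item L1 (helper59)
-/

namespace Pool.Agent.Work.MP_499dc6_lc.TD

open MvPolynomial Finset
open Pool.Agent.Work.MP_499dc6_lc.CD
open Pool.Agent.Work.MP_499dc6_lc.D3
open Pool.Agent.Work.MP_499dc6_lc.Fib

theorem L1_det {S : Type} [CommRing S] {v : ℕ} (M : Matrix (Fin v) (Fin v) S) :
    M.det = ∑ σ : Equiv.Perm (Fin v), ((Equiv.Perm.sign σ : ℤ) : S) * ∏ i, M i (σ i) := by
  rw [← Matrix.det_transpose, Matrix.det_apply']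
  rfl

theorem L1_row {S : Type} [CommRing S] {v : ℕ} (A C : Matrix (Fin v) (Fin v) S)
    (σ : Equiv.Perm (Fin v)) (I : Finset (Fin v)) :
    ∑ J ∈ univ.filter (fun J : Finset (Fin v) => J.card = I.card), ∏ i, blk A C I J i (σ i) =
      (∏ i ∈ I, A i (σ i)) * ∏ i ∈ univ \ I, C i (σ i) := by
  have hmem : ∀ x, x ∈ I.map σ.toEmbedding ↔ σ.symm x ∈ I := fun x => by
    rw [Finset.mem_map_equiv]
  rw [Finset.sum_eq_single_of_mem (I.map σ.toEmbedding) (by simp) ?_]
  · have h1 : ∀ i, blk A C I (I.map σ.toEmbedding) i (σ i) =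
        if i ∈ I then A i (σ i) else C i (σ i) := by
      intro i
      have h2 : σ i ∈ I.map σ.toEmbedding ↔ i ∈ I := by
        rw [hmem, Equiv.symm_apply_apply]
      unfold blk
      rw [Matrix.of_apply]
      by_cases h : i ∈ I
      · rw [if_pos h, if_pos h, if_pos (h2.2 h)]
      · rw [if_neg h, if_neg h, if_neg (fun h' => h (h2.1 h'))]
    rw [Finset.prod_congr rfl fun i _ => h1 i, Finset.prod_ite]
    have e1 : univ.filter (fun i => i ∈ I) = I := by
      ext i
      simp
    have e2 : univ.filter (fun i => i ∉ I) = univ \ I := by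
      ext i
      simp
    rw [e1, e2]
  · intro J _ hJ
    obtain ⟨x, hx⟩ : ∃ x, ¬ (x ∈ J ↔ x ∈ I.map σ.toEmbedding) := by
      by_contra h
      push Not at h
      exact hJ (Finset.ext h)
    refine Finset.prod_eq_zero (mem_univ (σ.symm x)) ?_
    rw [hmem] at hx
    unfold blk
    rw [Matrix.of_apply, Equiv.apply_symm_apply]
    by_cases h1 : σ.symm x ∈ I
    · rw [if_pos h1, if_neg]
      intro h2
      exact hx ⟨fun _ => h1, fun _ => h2⟩
    · rw [if_neg h1, if_pos]
      by_contra h2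
      exact hx ⟨fun h => absurd h h2, fun h => absurd h h1⟩

theorem td_L1 : StL1 := by
  intro S _ v A C
  rw [L1_det]
  have h1 : ∀ σ : Equiv.Perm (Fin v), ∏ i, (A + C) i (σ i) =
      ∑ I : Finset (Fin v), ∑ J ∈ univ.filter (fun J : Finset (Fin v) => J.card = I.card),
        ∏ i, blk A C I J i (σ i) := by
    intro σ
    rw [Finset.sum_congr rfl fun I _ => L1_row A C σ I]
    have h2 := Finset.prod_add (fun i => A i (σ i)) (fun i => C i (σ i)) (univ : Finset (Fin v))
    rw [Finset.powerset_univ] at h2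
    exact h2
  rw [Finset.sum_congr rfl fun σ _ => by rw [h1 σ, Finset.mul_sum], Finset.sum_comm]
  refine Finset.sum_congr rfl fun I _ => ?_
  rw [Finset.sum_congr rfl fun σ _ => by rw [Finset.mul_sum], Finset.sum_comm]
  refine Finset.sum_congr rfl fun J _ => ?_
  rw [L1_det]

end Pool.Agent.Work.MP_499dc6_lc.TD
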