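import Pool.Agent.Work.MP_499dc6_lc.TD.Stmts

namespace Pool.Agent.Work.MP_499dc6_lc.TD

open MvPolynomial Finset
open Pool.Agent.Work.MP_499dc6_lc.CD
open Pool.Agent.Work.MP_499dc6_lc.D3
open Pool.Agent.Work.MP_499dc6_lc.Fib

theorem L2_inl {v a b : ℕ} {I : Finset (Fin v)} (h : I.card = a) (h' : Iᶜ.card = b) (i : Fin a) :
    finSumEquivOfFinset h h' (Sum.inl i) ∈ I := by
  simp [finSumEquivOfFinset_inl]

theorem L2_inr {v a b : ℕ} {I : Finset (Fin v)} (h : I.card = a) (h' : Iᶜ.card = b) (i : Fin b) :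
    finSumEquivOfFinset h h' (Sum.inr i) ∉ I := by
  rw [← Finset.mem_compl]
  simp only [finSumEquivOfFinset_inr]
  exact Finset.orderEmbOfFin_mem _ _ _

theorem td_L2 : StL2 := by
  intro S _ v a A C I J hI hJ
  have hI' : Iᶜ.card = v - a := by rw [Finset.card_compl, Fintype.card_fin, hI]
  have hJ' : Jᶜ.card = v - a := by rw [Finset.card_compl, Fintype.card_fin, hJ]
  set eI := finSumEquivOfFinset hI hI' with heI
  set eJ := finSumEquivOfFinset hJ hJ' with heJ
  have hsub : (blk A C I J).submatrix eI eJ =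
      Matrix.fromBlocks (A.submatrix (fun i => eI (Sum.inl i)) (fun i => eJ (Sum.inl i))) 0 0
        (C.submatrix (fun i => eI (Sum.inr i)) (fun i => eJ (Sum.inr i))) := by
    ext i j
    rcases i with i | i <;> rcases j with j | j
    · have h1 := L2_inl hI hI' i
      have h2 := L2_inl hJ hJ' j
      rw [← heI] at h1
      rw [← heJ] at h2
      simp [blk, h1, h2]
    · have h1 := L2_inl hI hI' i
      have h2 := L2_inr hJ hJ' j
      rw [← heI] at h1
      rw [← heJ] at h2
      simp [blk, h1, h2]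
    · have h1 := L2_inr hI hI' i
      have h2 := L2_inl hJ hJ' j
      rw [← heI] at h1
      rw [← heJ] at h2
      simp [blk, h1, h2]
    · have h1 := L2_inr hI hI' i
      have h2 := L2_inr hJ hJ' j
      rw [← heI] at h1
      rw [← heJ] at h2
      simp [blk, h1, h2]
  have hdet : ((blk A C I J).submatrix eI eJ).det =
      (A.submatrix (fun i => eI (Sum.inl i)) (fun i => eJ (Sum.inl i))).det *
        (C.submatrix (fun i => eI (Sum.inr i)) (fun i => eJ (Sum.inr i))).det := by
    rw [hsub, Matrix.det_fromBlocks_zero₂₁]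
  set σ : Equiv.Perm (Fin v) := eI.symm.trans eJ with hσ
  have h3 : (blk A C I J).submatrix eI eJ = ((blk A C I J).submatrix id σ).submatrix eI eI := by
    ext i j
    simp [hσ]
  have h4 : ((blk A C I J).submatrix eI eJ).det =
      ((Equiv.Perm.sign σ : ℤˣ) : S) * (blk A C I J).det := by
    rw [h3, Matrix.det_submatrix_equiv_self, Matrix.det_permute']
  refine ⟨fun i => eI (Sum.inl i), fun i => eJ (Sum.inl i), fun i => eI (Sum.inr i),
    fun i => eJ (Sum.inr i), ((Equiv.Perm.sign σ : ℤˣ) : ℤ), ?_⟩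
  rw [← hdet, h4, ← mul_assoc]
  have h5 : (((Equiv.Perm.sign σ : ℤˣ) : ℤ) : S) * (((Equiv.Perm.sign σ : ℤˣ) : ℤ) : S) = 1 := by
    rw [← Int.cast_mul, ← Units.val_mul, Int.units_mul_self]
    simp
  rw [h5, one_mul]

end Pool.Agent.Work.MP_499dc6_lc.TD
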