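import Pool.Agent.Work.MP_499dc6_lc.TD.Stmts
import Pool.Agent.Work.MP_499dc6_lc.Bd.B03
import Pool.Agent.Work.MP_499dc6_lc.Bd.B10

/-!
# Depth three with determinants, item L3: the components of the determinant
-/

set_option autoImplicit false

namespace Pool.Agent.Work.MP_499dc6_lc.TD

open MvPolynomial Finset
open Pool.Agent.Work.MP_499dc6_lc.CD
open Pool.Agent.Work.MP_499dc6_lc.D3
open Pool.Agent.Work.MP_499dc6_lc.Fib

section

variable {Y Z : Type} [Fintype Y] [Fintype Z] {K : Type} [Field K]

private theorem L3_bc_int (u w : ℕ) (s : ℤ) (f : MvPolynomial (Y ⊕ Z) K) :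
    bc u w ((s : MvPolynomial (Y ⊕ Z) K) * f) = C (s : K) * bc u w f := by
  have h : (s : MvPolynomial (Y ⊕ Z) K) = C (s : K) := by simp
  rw [h, bc_C_mul]

/-- The polynomials with components of bidegree `(0, j)` only. -/
private noncomputable def L3_S (Y Z : Type) [Fintype Y] [Fintype Z] (K : Type) [Field K] :
    Subring (MvPolynomial (Y ⊕ Z) K) where
  carrier := {h | ∀ u w : ℕ, u ≠ 0 → bc u w h = 0}
  mul_mem' := by
    intro f g hf hg u w hu
    rw [pr_BcMul]
    refine Finset.sum_eq_zero fun p hp => Finset.sum_eq_zero fun q _ => ?_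
    rw [Finset.HasAntidiagonal.mem_antidiagonal] at hp
    by_cases h1 : p.1 = 0
    · rw [hg p.2 q.2 (by omega), mul_zero]
    · rw [hf p.1 q.1 h1, zero_mul]
  one_mem' := by
    intro u w hu
    rw [bc_of_isBi isBi_one, if_neg fun h => hu h.1]
  add_mem' := by
    intro f g hf hg u w hu
    rw [bc_add, hf u w hu, hg u w hu, add_zero]
  zero_mem' := by
    intro u w _
    exact bc_zero u w
  neg_mem' := by
    intro f hf u w hu
    have h : -f = C (-1 : K) * f := by simp
    rw [h, bc_C_mul, hf u w hu, mul_zero]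

private theorem L3_mem {f : MvPolynomial (Y ⊕ Z) K} (w : ℕ) (h : IsBi f 0 w) :
    f ∈ L3_S Y Z K := by
  intro u w' hu
  rw [bc_of_isBi h, if_neg fun h => hu h.1]

private theorem L3_det_mem {m : ℕ} (M : Matrix (Fin m) (Fin m) (MvPolynomial (Y ⊕ Z) K))
    (h : ∀ i j, M i j ∈ L3_S Y Z K) : M.det ∈ L3_S Y Z K := by
  rw [Matrix.det_apply']
  refine sum_mem fun σ _ => mul_mem (intCast_mem _ _) (prod_mem fun i _ => h _ _)

private theorem L3_prod {ι : Type} (s : Finset ι) (f : ι → MvPolynomial (Y ⊕ Z) K)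
    (h : ∀ i ∈ s, IsBi (f i) 1 0) : IsBi (∏ i ∈ s, f i) s.card 0 := by
  classical
  induction s using Finset.induction_on with
  | empty =>
    rw [Finset.prod_empty, Finset.card_empty]
    exact isBi_one
  | insert i s hi ih =>
    rw [Finset.prod_insert hi, Finset.card_insert_of_notMem hi, Nat.add_comm]
    have h1 := pr_BiMul Y Z K (f i) (∏ i ∈ s, f i) 1 0 s.card 0 (h i (Finset.mem_insert_self i s))
      (ih fun j hj => h j (Finset.mem_insert_of_mem hj))
    exact h1

private theorem L3_det {m : ℕ} (M : Matrix (Fin m) (Fin m) (MvPolynomial (Y ⊕ Z) K))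
    (h : ∀ i j, IsBi (M i j) 1 0) : IsBi M.det m 0 := by
  rw [Matrix.det_apply']
  refine isBi_sum _ _ fun σ _ => ?_
  have h1 : (((Equiv.Perm.sign σ : ℤˣ) : ℤ) : MvPolynomial (Y ⊕ Z) K) =
      C ((((Equiv.Perm.sign σ : ℤˣ) : ℤ) : K)) := by simp
  rw [h1]
  refine isBi_C_mul _ ?_
  have h2 := L3_prod (Finset.univ : Finset (Fin m)) (fun i => M (σ i) i) fun i _ => h _ _
  rw [Finset.card_univ, Fintype.card_fin] at h2
  exact h2

private theorem L3_BBsum {al be : ℝ} {ι : Type} (s : Finset ι) (f : ι → MvPolynomial (Y ⊕ Z) K)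
    (c : ι → ℝ) (h : ∀ i ∈ s, BB al be (f i) (c i)) :
    BB al be (∑ i ∈ s, f i) (∑ i ∈ s, c i) := by
  classical
  induction s using Finset.induction_on with
  | empty =>
    rw [Finset.sum_empty, Finset.sum_empty]
    exact BB.zero
  | insert i s hi ih =>
    rw [Finset.sum_insert hi, Finset.sum_insert hi]
    exact BB.add (h i (Finset.mem_insert_self i s))
      (ih fun j hj => h j (Finset.mem_insert_of_mem hj))

/-- The component of a product of a polynomial of bidegree `(m, 0)` and one without `Y`. -/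
private theorem L3_prodBB {al be : ℝ} {m : ℕ} {g h : MvPolynomial (Y ⊕ Z) K} (hg : IsBi g m 0)
    (hh : h ∈ L3_S Y Z K) (a a' : ℕ) :
    BB al be (bc a a' (g * h))
      (if m = a then Real.exp (-((a : ℝ) * al + a' * be) / 2) else 0) := by
  rw [pr_BcMul]
  by_cases hm : m = a
  · subst hm
    rw [if_pos rfl]
    have h1 : ∑ p ∈ HasAntidiagonal.antidiagonal m, ∑ q ∈ HasAntidiagonal.antidiagonal a',
        bc p.1 q.1 g * bc p.2 q.2 h = g * bc 0 a' h := by
      rw [Finset.sum_eq_single ((m, 0) : ℕ × ℕ)]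
      · rw [Finset.sum_eq_single ((0, a') : ℕ × ℕ)]
        · rw [bc_self hg]
        · intro q hq hq0
          rw [Finset.HasAntidiagonal.mem_antidiagonal] at hq
          have h2 : q.1 ≠ 0 := by
            intro h3
            apply hq0
            exact Prod.ext h3 (by rw [← hq, h3]; simp)
          rw [bc_of_isBi hg, if_neg fun h4 => h2 h4.2, zero_mul]
        · intro hq
          exact absurd (Finset.HasAntidiagonal.mem_antidiagonal.2 (by simp)) hq
      · intro p hp hp0
        rw [Finset.HasAntidiagonal.mem_antidiagonal] at hp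
        refine Finset.sum_eq_zero fun q _ => ?_
        have h2 : p.2 ≠ 0 := by
          intro h3
          apply hp0
          exact Prod.ext (by rw [← hp, h3]; simp) h3
        rw [hh p.2 q.2 h2, mul_zero]
      · intro hp
        exact absurd (Finset.HasAntidiagonal.mem_antidiagonal.2 (by simp)) hp
    rw [h1]
    have h5 : BB al be (g * bc 0 a' h) _ := BB.term hg (isBi_bc 0 a' h)
    refine BB.mono h5 (le_of_eq ?_)
    congr 1
    push_cast
    ring
  · rw [if_neg hm]
    have h1 : ∑ p ∈ HasAntidiagonal.antidiagonal a, ∑ q ∈ HasAntidiagonal.antidiagonal a',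
        bc p.1 q.1 g * bc p.2 q.2 h = 0 := by
      refine Finset.sum_eq_zero fun p hp => Finset.sum_eq_zero fun q _ => ?_
      rw [Finset.HasAntidiagonal.mem_antidiagonal] at hp
      by_cases h2 : p.2 = 0
      · rw [bc_of_isBi hg, if_neg fun h4 => hm (by omega), zero_mul]
      · rw [hh p.2 q.2 h2, mul_zero]
    rw [h1]
    exact BB.zero

end

theorem td_L3 (hL1 : StL1) (hL2 : StL2) : StL3 := by
  classical
  intro Y Z _ _ K _ al be v A B hA hB a a'
  have h0 : 1 + A + B = A + (1 + B) := by
    rw [add_comm 1 A, add_assoc]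
  rw [h0, hL1 _ v A (1 + B), bc_sum]
  have hC : ∀ i j, (1 + B) i j ∈ L3_S Y Z K := by
    intro i j
    rw [Matrix.add_apply]
    refine add_mem ?_ (L3_mem 1 (hB i j))
    rw [Matrix.one_apply]
    split_ifs
    · exact one_mem _
    · exact zero_mem _
  have h1 : ∀ I : Finset (Fin v), BB al be
      (bc a a' (∑ J ∈ univ.filter (fun J : Finset (Fin v) => J.card = I.card),
        (blk A (1 + B) I J).det))
      (∑ J ∈ univ.filter (fun J : Finset (Fin v) => J.card = I.card),
        (if I.card = a then Real.exp (-((a : ℝ) * al + a' * be) / 2) else 0)) := by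
    intro I
    rw [bc_sum]
    refine L3_BBsum _ _ _ fun J hJ => ?_
    have hJ' : J.card = I.card := (Finset.mem_filter.1 hJ).2
    obtain ⟨r, c, r', c', s, hs⟩ := hL2 _ v I.card A (1 + B) I J rfl hJ'
    rw [hs, L3_bc_int]
    refine pr_BBsmul Y Z K al be _ _ _ ?_
    exact L3_prodBB (L3_det _ fun i j => hA _ _) (L3_det_mem _ fun i j => hC _ _) a a'
  refine BB.mono (L3_BBsum _ _ _ fun I _ => h1 I) (le_of_eq ?_)
  have h2 : ∀ k : ℕ, (univ.filter (fun J : Finset (Fin v) => J.card = k)).card = v.choose k := by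
    intro k
    rw [Finset.univ_filter_card_eq, Finset.card_powersetCard, Finset.card_univ, Fintype.card_fin]
  have h3 : ∀ I : Finset (Fin v),
      (∑ J ∈ univ.filter (fun J : Finset (Fin v) => J.card = I.card),
        (if I.card = a then Real.exp (-((a : ℝ) * al + a' * be) / 2) else 0)) =
      if I.card = a then (v.choose a : ℝ) * Real.exp (-((a : ℝ) * al + a' * be) / 2) else 0 := by
    intro I
    rw [Finset.sum_const, h2, nsmul_eq_mul]
    by_cases h4 : I.card = a
    · rw [if_pos h4, if_pos h4, h4]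
    · rw [if_neg h4, if_neg h4, mul_zero]
  rw [Finset.sum_congr rfl fun I _ => h3 I, ← Finset.sum_filter, Finset.sum_const, h2,
    nsmul_eq_mul]
  ring

end Pool.Agent.Work.MP_499dc6_lc.TD
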