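import Pool.Agent.Work.MP_499dc6_lc.TD.Stmts

/-!
# Depth three with determinants, item L4: components of large degree of the determinant vanish
-/

namespace Pool.Agent.Work.MP_499dc6_lc.TD

open MvPolynomial Finset
open Pool.Agent.Work.MP_499dc6_lc.CD
open Pool.Agent.Work.MP_499dc6_lc.D3
open Pool.Agent.Work.MP_499dc6_lc.Fib

theorem L4_bi {Y Z K : Type} [Fintype Y] [Fintype Z] [Field K] {f : MvPolynomial (Y ⊕ Z) K}
    {a b : ℕ} (h : IsBi f a b) (hab : a + b = 1) : f.totalDegree ≤ 1 := by
  rw [MvPolynomial.totalDegree]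
  refine Finset.sup_le fun m hm => ?_
  have h1 := h m (MvPolynomial.mem_support_iff.1 hm)
  have h3 : ∑ i ∈ m.support, m i = dY m + dZ m := deg_eq m
  rw [Finsupp.sum, h3]
  omega

theorem td_L4 : StL4 := by
  intro Y Z _ _ K _ v A B hA hB a a' hlt
  have h1 : ∀ i j, ((1 + A + B) i j).totalDegree ≤ 1 := by
    intro i j
    rw [Matrix.add_apply, Matrix.add_apply]
    refine (MvPolynomial.totalDegree_add _ _).trans (max_le
      ((MvPolynomial.totalDegree_add _ _).trans (max_le ?_ (L4_bi (hA i j) rfl)))
      (L4_bi (hB i j) rfl))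
    rw [Matrix.one_apply]
    split_ifs
    · rw [MvPolynomial.totalDegree_one]
      exact zero_le_one
    · rw [MvPolynomial.totalDegree_zero]
      exact zero_le_one
  have h2 : (1 + A + B).det.totalDegree ≤ v := by
    rw [Matrix.det_apply]
    refine MvPolynomial.totalDegree_finsetSum_le fun σ _ => ?_
    have h3 : (∏ i, (1 + A + B) (σ i) i).totalDegree ≤ v := by
      refine (MvPolynomial.totalDegree_finsetProd _ _).trans ?_
      refine (Finset.sum_le_sum fun i _ => h1 (σ i) i).trans ?_
      rw [Finset.sum_const, Finset.card_univ, Fintype.card_fin, smul_eq_mul, mul_one]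
    rcases Int.units_eq_one_or (Equiv.Perm.sign σ) with h | h
    · rw [h, one_smul]
      exact h3
    · rw [h, Units.neg_smul, one_smul, MvPolynomial.totalDegree_neg]
      exact h3
  ext m
  rw [coeff_bc, MvPolynomial.coeff_zero]
  split_ifs with h
  · apply MvPolynomial.coeff_eq_zero_of_totalDegree_lt
    have h4 : ∑ i ∈ m.support, m i = dY m + dZ m := deg_eq m
    rw [h4]
    omega
  · rfl

end Pool.Agent.Work.MP_499dc6_lc.TD
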