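import Pool.Agent.Work.MP_499dc6_lc.TD.Stmts

/-!
# Item LW: the bigraded logarithmic derivative
-/

namespace Pool.Agent.Work.MP_499dc6_lc.TD

open MvPolynomial Finset
open Pool.Agent.Work.MP_499dc6_lc.CD
open Pool.Agent.Work.MP_499dc6_lc.D3
open Pool.Agent.Work.MP_499dc6_lc.Fib

theorem LW_mul {Y Z : Type} [Fintype Y] [Fintype Z] {R : Type} [CommSemiring R]
    (g h : MvPolynomial (Y ⊕ Z) R) (x y x' y' : ℕ) (hg : IsBi g x y) (hh : IsBi h x' y') :
    IsBi (g * h) (x + x') (y + y') := by
  intro m hm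
  classical
  rw [coeff_mul] at hm
  obtain ⟨⟨m1, m2⟩, hmem, hne⟩ := Finset.exists_ne_zero_of_sum_ne_zero hm
  rw [Finset.HasAntidiagonal.mem_antidiagonal] at hmem
  simp only at hmem hne
  have h1 := hg m1 (left_ne_zero_of_mul hne)
  have h2 := hh m2 (right_ne_zero_of_mul hne)
  subst hmem
  unfold dY dZ at *
  simp only [Finsupp.add_apply, Finset.sum_add_distrib]
  omega

/-- double power series -/
noncomputable def LW_P {A : Type} [CommRing A] (f : ℕ → ℕ → A) : PowerSeries (PowerSeries A) :=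
  PowerSeries.mk fun u => PowerSeries.mk fun v => f u v

theorem LW_coeff {A : Type} [CommRing A] (f : ℕ → ℕ → A) (u v : ℕ) :
    PowerSeries.coeff v (PowerSeries.coeff u (LW_P f)) = f u v := by
  unfold LW_P
  rw [PowerSeries.coeff_mk, PowerSeries.coeff_mk]

theorem LW_coeff_mul {A : Type} [CommRing A] (F G : PowerSeries (PowerSeries A)) (u v : ℕ) :
    PowerSeries.coeff v (PowerSeries.coeff u (F * G)) =
      ∑ p ∈ HasAntidiagonal.antidiagonal u, ∑ q ∈ HasAntidiagonal.antidiagonal v,
        PowerSeries.coeff q.1 (PowerSeries.coeff p.1 F) *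
          PowerSeries.coeff q.2 (PowerSeries.coeff p.2 G) := by
  rw [PowerSeries.coeff_mul, map_sum]
  refine Finset.sum_congr rfl fun p _ => ?_
  rw [PowerSeries.coeff_mul]

theorem LW_ext {A : Type} [CommRing A] {F G : PowerSeries (PowerSeries A)}
    (h : ∀ u v, PowerSeries.coeff v (PowerSeries.coeff u F) =
      PowerSeries.coeff v (PowerSeries.coeff u G)) : F = G := by
  apply PowerSeries.ext
  intro u
  apply PowerSeries.ext
  intro v
  exact h u v

theorem td_LW (hCV : StCV) (hH2 : StH2) : StLW := by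
  intro Y Z _ _ K _ _ v dd A B hA hB
  let V : MvPolynomial (Y ⊕ Z) K := (1 + A + B).det
  refine ⟨?_, ?_, ?_⟩
  · unfold ww
    rw [Finset.HasAntidiagonal.antidiagonal_zero, Finset.sum_singleton, Finset.sum_singleton]
    simp
  · intro a b
    unfold ww
    refine D3.isBi_sum _ _ fun p hp => D3.isBi_sum _ _ fun q hq => ?_
    rw [Finset.HasAntidiagonal.mem_antidiagonal] at hp hq
    have h1 : IsBi (((p.1 + q.1 : ℕ) : MvPolynomial (Y ⊕ Z) K) *
        bc p.1 q.1 (1 + A + B).det) p.1 q.1 := by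
      rw [← map_natCast (C : K →+* MvPolynomial (Y ⊕ Z) K)]
      exact isBi_C_mul _ (isBi_bc _ _ _)
    have h2 : IsBi ((-1) ^ (p.2 + q.2) * Hs A B p.2 q.2) p.2 q.2 := by
      have h3 : ((-1) ^ (p.2 + q.2) : MvPolynomial (Y ⊕ Z) K) = C ((-1) ^ (p.2 + q.2)) := by
        rw [map_pow, map_neg, map_one]
      rw [h3]
      exact isBi_C_mul _ (hH2 Y Z K 0 0 v A B hA hB p.2 q.2).1
    have h4 := LW_mul _ _ _ _ _ _ h1 h2
    rw [hp, hq] at h4
    exact h4
  · intro a b _
    let FV := LW_P fun u w => bc u w V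
    let FD := LW_P fun u w => ((u + w : ℕ) : MvPolynomial (Y ⊕ Z) K) * bc u w V
    let FH := LW_P fun u w => (-1) ^ (u + w) * Hs A B u w
    let FW := LW_P fun u w => ww A B u w
    have e1 : FV * FH = 1 := by
      apply LW_ext
      intro u w
      rw [LW_coeff_mul]
      simp only [FV, FH, LW_coeff]
      rw [hCV Y Z K v A B hA hB u w, PowerSeries.coeff_one]
      by_cases hu : u = 0
      · rw [if_pos hu, PowerSeries.coeff_one]
        by_cases hw : w = 0
        · rw [if_pos hw, if_pos ⟨hu, hw⟩]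
        · rw [if_neg hw, if_neg (fun h => hw h.2)]
      · rw [if_neg hu, if_neg (fun h => hu h.1), map_zero]
    have e2 : FW = FD * FH := by
      apply LW_ext
      intro u w
      rw [LW_coeff_mul]
      simp only [FW, FD, FH, LW_coeff]
      rfl
    have e3 : FW * FV = FD := by
      rw [e2, mul_assoc, mul_comm FH FV, e1, mul_one]
    have e4 := congrArg (fun F => PowerSeries.coeff b (PowerSeries.coeff a F)) e3
    simp only [LW_coeff_mul, FW, FV, FD, LW_coeff] at e4
    exact e4.symm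

end Pool.Agent.Work.MP_499dc6_lc.TD
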