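import Pool.Agent.Work.MP_499dc6_lc.TD.Stmts
import Pool.Agent.Work.MP_499dc6_lc.Bd.B03

/-!
# Depth three with determinants, item Lev: determinants of affine matrices
-/

set_option autoImplicit false

namespace Pool.Agent.Work.MP_499dc6_lc.TD

open MvPolynomial Finset
open Pool.Agent.Work.MP_499dc6_lc.CD
open Pool.Agent.Work.MP_499dc6_lc.D3
open Pool.Agent.Work.MP_499dc6_lc.Fib

theorem Lev_cc {Y Z : Type} [Fintype Y] [Fintype Z] {K : Type} [Field K]
    {f : MvPolynomial (Y ⊕ Z) K} {x y : ℕ} (h : IsBi f x y) (hxy : x ≠ 0 ∨ y ≠ 0) :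
    constantCoeff f = 0 := by
  by_contra hne
  have h1 := h 0 hne
  have h2 : dY (0 : Y ⊕ Z →₀ ℕ) = 0 := by simp [dY]
  have h3 : dZ (0 : Y ⊕ Z →₀ ℕ) = 0 := by simp [dZ]
  rw [h2, h3] at h1
  rcases hxy with h4 | h4
  · exact h4 h1.1.symm
  · exact h4 h1.2.symm

theorem Lev_choose (v a : ℕ) : ((v.choose a : ℕ) : ℝ) ^ 2 ≤ 121 ^ (2 * v) := by
  have h1 : v.choose a ≤ 2 ^ v := Nat.choose_le_two_pow v a
  have h2 : ((v.choose a : ℕ) : ℝ) ≤ 2 ^ v := by exact_mod_cast h1
  calc ((v.choose a : ℕ) : ℝ) ^ 2 ≤ (2 ^ v) ^ 2 := pow_le_pow_left₀ (Nat.cast_nonneg _) h2 2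
    _ = (2 ^ 2) ^ v := by rw [← pow_mul, mul_comm, pow_mul]
    _ ≤ (121 ^ 2) ^ v := pow_le_pow_left₀ (by norm_num) (by norm_num) v
    _ = 121 ^ (2 * v) := by rw [← pow_mul]

theorem td_Lev (hAf : D3.S_Affine) (hL3 : StL3) (hLW : StLW) (hBW : StBW) : StLev := by
  intro Y Z _ _ K _ _ be v dd M V hbe hM hV hV0
  set al : ℝ := Real.log (3 / 2) with hal
  have hal0 : 0 ≤ al := Real.log_nonneg (by norm_num)
  have hpos : ∀ n : ℕ, (0 : ℝ) ≤ 121 ^ (2 * v) * Real.exp (-(al / 4 * (n : ℝ))) := fun n => by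
    positivity
  rcases hV0 with hV0 | hV0
  · constructor
    · intro a b _ _
      rw [hV0, bc_zero]
      exact BB.mono BB.zero (hpos _)
    · refine ⟨fun _ _ => 0, ⟨rfl, fun a b => isBi_zero a b, fun a b _ => ?_⟩, fun a b _ _ => ?_⟩
      · rw [hV0, bc_zero, mul_zero]
        symm
        exact Finset.sum_eq_zero fun p _ => Finset.sum_eq_zero fun q _ => zero_mul _
      · exact BB.mono BB.zero (hpos _)
  · have hAf' : ∀ i j, ∃ (c : K) (y z : MvPolynomial (Y ⊕ Z) K), IsBi y 1 0 ∧ IsBi z 0 1 ∧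
        M i j = C c + (y + z) := fun i j => hAf Y Z K (M i j) (hM i j)
    choose c y z hy hz hMc using hAf'
    let C₀ : Matrix (Fin v) (Fin v) K := Matrix.of c
    let y₀ : Matrix (Fin v) (Fin v) (MvPolynomial (Y ⊕ Z) K) := Matrix.of y
    let z₀ : Matrix (Fin v) (Fin v) (MvPolynomial (Y ⊕ Z) K) := Matrix.of z
    let N : Matrix (Fin v) (Fin v) (MvPolynomial (Y ⊕ Z) K) := (C₀⁻¹).map C
    let Cm : Matrix (Fin v) (Fin v) (MvPolynomial (Y ⊕ Z) K) := C₀.map C
    have hdet : constantCoeff V = C₀.det := by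
      rw [hV, RingHom.map_det]
      congr 1
      ext i j
      show constantCoeff (M i j) = c i j
      rw [hMc i j, map_add, map_add, Lev_cc (hy i j) (Or.inl one_ne_zero),
        Lev_cc (hz i j) (Or.inr one_ne_zero), add_zero, add_zero]
      exact constantCoeff_C _ _
    have hdet0 : C₀.det ≠ 0 := by
      rw [← hdet]
      exact hV0
    have hCN : Cm * N = 1 := by
      show C₀.map (C : K →+* MvPolynomial (Y ⊕ Z) K) *
        (C₀⁻¹).map (C : K →+* MvPolynomial (Y ⊕ Z) K) = 1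
      rw [← Matrix.map_mul, Matrix.mul_nonsing_inv _ (isUnit_iff_ne_zero.2 hdet0)]
      exact Matrix.map_one _ (map_zero _) (map_one _)
    set A : Matrix (Fin v) (Fin v) (MvPolynomial (Y ⊕ Z) K) := N * y₀ with hA
    set B : Matrix (Fin v) (Fin v) (MvPolynomial (Y ⊕ Z) K) := N * z₀ with hB
    have hAb : ∀ i j, IsBi (A i j) 1 0 := by
      intro i j
      rw [hA, Matrix.mul_apply]
      exact D3.isBi_sum _ _ fun k _ => isBi_C_mul _ (hy k j)
    have hBb : ∀ i j, IsBi (B i j) 0 1 := by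
      intro i j
      rw [hB, Matrix.mul_apply]
      exact D3.isBi_sum _ _ fun k _ => isBi_C_mul _ (hz k j)
    have hMe : M = Cm * (1 + A + B) := by
      rw [Matrix.mul_add, Matrix.mul_add, Matrix.mul_one, hA, hB, ← Matrix.mul_assoc,
        ← Matrix.mul_assoc, hCN, Matrix.one_mul, Matrix.one_mul]
      ext1 i j
      rw [hMc i j, ← add_assoc]
      rfl
    have hVe : V = C C₀.det * (1 + A + B).det := by
      rw [hV, hMe, Matrix.det_mul]
      congr 1
      show (C₀.map (C : K →+* MvPolynomial (Y ⊕ Z) K)).det = C C₀.det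
      rw [RingHom.map_det]
      rfl
    have hbcV : ∀ a b, bc a b V = C C₀.det * bc a b (1 + A + B).det := fun a b => by
      rw [hVe, bc_C_mul]
    constructor
    · intro a b _ _
      rw [hbcV]
      refine BB.mono (pr_BBsmul Y Z K al be _ _ C₀.det (hL3 Y Z K al be v A B hAb hBb a b)) ?_
      refine mul_le_mul (Lev_choose v a) (Real.exp_le_exp.2 ?_) (Real.exp_pos _).le
        (by positivity)
      push_cast
      have d1 : 0 ≤ al * (a : ℝ) := mul_nonneg hal0 (Nat.cast_nonneg _)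
      have d2 : al * (b : ℝ) ≤ be * b := mul_le_mul_of_nonneg_right hbe (Nat.cast_nonneg _)
      have d3 : 0 ≤ al * (b : ℝ) := mul_nonneg hal0 (Nat.cast_nonneg _)
      nlinarith
    · obtain ⟨e1, e2, e3⟩ := hLW Y Z K v dd A B hAb hBb
      refine ⟨ww A B, ⟨e1, e2, fun a b hab => ?_⟩, fun a b _ _ =>
        hBW Y Z K be v A B hbe hAb hBb a b⟩
      rw [hbcV, mul_left_comm, e3 a b hab, Finset.mul_sum]
      refine Finset.sum_congr rfl fun p _ => ?_
      rw [Finset.mul_sum]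
      refine Finset.sum_congr rfl fun q _ => ?_
      rw [hbcV]
      ring

end Pool.Agent.Work.MP_499dc6_lc.TD
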