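import Pool.Agent.Work.MP_499dc6_lc.TD.Numbers
import Pool.Agent.Work.MP_499dc6_lc.TD.I_F1
import Pool.Agent.Work.MP_499dc6_lc.TD.I_F2a
import Pool.Agent.Work.MP_499dc6_lc.TD.I_F2b
import Pool.Agent.Work.MP_499dc6_lc.TD.I_F2
import Pool.Agent.Work.MP_499dc6_lc.TD.I_F3
import Pool.Agent.Work.MP_499dc6_lc.TD.I_L1
import Pool.Agent.Work.MP_499dc6_lc.TD.I_L2
import Pool.Agent.Work.MP_499dc6_lc.TD.I_L3
import Pool.Agent.Work.MP_499dc6_lc.TD.I_L4
import Pool.Agent.Work.MP_499dc6_lc.TD.I_L5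
import Pool.Agent.Work.MP_499dc6_lc.TD.I_H1
import Pool.Agent.Work.MP_499dc6_lc.TD.I_H2
import Pool.Agent.Work.MP_499dc6_lc.TD.I_H3
import Pool.Agent.Work.MP_499dc6_lc.TD.I_CV
import Pool.Agent.Work.MP_499dc6_lc.TD.I_LW
import Pool.Agent.Work.MP_499dc6_lc.TD.I_BW
import Pool.Agent.Work.MP_499dc6_lc.TD.I_Lev

/-!
# Depth three with determinants: assembly
-/

namespace Pool.Agent.Work.MP_499dc6_lc.TD

open MvPolynomial Finset
open Pool.Agent.Work.MP_499dc6_lc.CD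
open Pool.Agent.Work.MP_499dc6_lc.D3
open Pool.Agent.Work.MP_499dc6_lc.Fib

open scoped PowerSeries

theorem fin_F3 : StF3 := td_F3 td_F1 (td_F2 td_F2a td_F2b)

theorem fin_L3 : StL3 := td_L3 td_L1 td_L2

theorem fin_CV : StCV := td_CV fin_F3 td_L5 td_H1 td_H2

theorem fin_LW : StLW := td_LW fin_CV td_H2

theorem fin_BW : StBW := td_BW mainBBmul fin_L3 td_L4 td_H2 td_H3

theorem fin_Lev : StLev := td_Lev D3.pr_Affine fin_L3 fin_LW fin_BW

theorem tradeoff_det (k : Type) [Field k] [CharZero k] (N S p D r v : ℕ)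
    (Q : Fin S → MvPolynomial (Fin p) (LaurentSeries k))
    (f : Fin S → Fin p → Fin D → MvPolynomial (Fin N × Fin N) (LaurentSeries k))
    (μ : Fin S → Fin p → Fin D → ℕ) (hf : ∀ i b j, Fac r v (f i b j))
    (R : MvPolynomial (Fin N × Fin N) k⟦X⟧)
    (h : ∑ i, aeval (fun b => ∏ j, f i b j ^ μ i b j) (Q i) =
      MvPolynomial.map (algebraMap k⟦X⟧ (LaurentSeries k))
        (gperm k⟦X⟧ N + C PowerSeries.X * R))
    (hp : 1 ≤ p) (hD : 1 ≤ D) (hr : 1 ≤ r) :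
    (N : ℝ) / (2 * 10 ^ 6) ≤
      (Real.log S + p * Real.log (2 + N / p)) * (Real.log D + r + 2 * v) := by
  have h1 := Fib.TD_tradeoff_aux fin_Lev k N S p D r v (r + 2 * v) Q f μ hf R h hp hD (by omega) rfl
  push_cast at h1
  rwa [← add_assoc] at h1

end Pool.Agent.Work.MP_499dc6_lc.TD
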