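import Pool.Agent.Work.MP_499dc6_lc.TD.Stmts

set_option autoImplicit false

/-!
# Item L5: the components of `ek (A + B) k`
-/

namespace Pool.Agent.Work.MP_499dc6_lc.TD

open MvPolynomial Finset
open Pool.Agent.Work.MP_499dc6_lc.CD
open Pool.Agent.Work.MP_499dc6_lc.D3
open Pool.Agent.Work.MP_499dc6_lc.Fib

/-- All coefficients are homogeneous, of the degree of the coefficient. -/
def L5_Hp {σ K : Type} [CommRing K] (p : Polynomial (MvPolynomial σ K)) : Prop :=
  ∀ k, (p.coeff k).IsHomogeneous k

section

variable {σ K : Type} [CommRing K]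

theorem L5_one : L5_Hp (1 : Polynomial (MvPolynomial σ K)) := by
  intro k
  rw [Polynomial.coeff_one]
  split_ifs with h
  · rw [h]
    exact isHomogeneous_one σ K
  · exact isHomogeneous_zero σ K k

theorem L5_add {p q : Polynomial (MvPolynomial σ K)} (hp : L5_Hp p) (hq : L5_Hp q) :
    L5_Hp (p + q) := by
  intro k
  rw [Polynomial.coeff_add]
  exact (hp k).add (hq k)

theorem L5_zero : L5_Hp (0 : Polynomial (MvPolynomial σ K)) := by
  intro k
  rw [Polynomial.coeff_zero]
  exact isHomogeneous_zero σ K k

theorem L5_neg {p : Polynomial (MvPolynomial σ K)} (hp : L5_Hp p) : L5_Hp (-p) := by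
  intro k
  rw [Polynomial.coeff_neg]
  exact (hp k).neg

theorem L5_sum {ι : Type} (s : Finset ι) (f : ι → Polynomial (MvPolynomial σ K))
    (h : ∀ i ∈ s, L5_Hp (f i)) : L5_Hp (∑ i ∈ s, f i) := by
  classical
  induction s using Finset.induction_on with
  | empty =>
    rw [Finset.sum_empty]
    exact L5_zero
  | insert i s hi ih =>
    rw [Finset.sum_insert hi]
    exact L5_add (h i (Finset.mem_insert_self i s))
      (ih fun j hj => h j (Finset.mem_insert_of_mem hj))

theorem L5_mul {p q : Polynomial (MvPolynomial σ K)} (hp : L5_Hp p) (hq : L5_Hp q) :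
    L5_Hp (p * q) := by
  intro k
  rw [Polynomial.coeff_mul]
  refine IsHomogeneous.sum _ _ _ fun x hx => ?_
  rw [HasAntidiagonal.mem_antidiagonal] at hx
  rw [← hx]
  exact (hp x.1).mul (hq x.2)

theorem L5_prod {ι : Type} (s : Finset ι) (f : ι → Polynomial (MvPolynomial σ K))
    (h : ∀ i ∈ s, L5_Hp (f i)) : L5_Hp (∏ i ∈ s, f i) := by
  classical
  induction s using Finset.induction_on with
  | empty =>
    rw [Finset.prod_empty]
    exact L5_one
  | insert i s hi ih =>
    rw [Finset.prod_insert hi]
    exact L5_mul (h i (Finset.mem_insert_self i s))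
      (ih fun j hj => h j (Finset.mem_insert_of_mem hj))

theorem L5_XC {a : MvPolynomial σ K} (ha : a.IsHomogeneous 1) :
    L5_Hp ((Polynomial.X : Polynomial (MvPolynomial σ K)) * Polynomial.C a) := by
  intro k
  rw [Polynomial.coeff_mul_C]
  rw [Polynomial.coeff_X]
  split_ifs with h
  · rw [← h, one_mul]
    exact ha
  · rw [zero_mul]
    exact isHomogeneous_zero σ K k

theorem L5_det {v : ℕ} (M : Matrix (Fin v) (Fin v) (Polynomial (MvPolynomial σ K)))
    (h : ∀ i j, L5_Hp (M i j)) : L5_Hp M.det := by
  rw [Matrix.det_apply]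
  refine L5_sum _ _ fun s _ => ?_
  have hp : L5_Hp (∏ i, M (s i) i) := L5_prod _ _ fun i _ => h _ _
  rcases Int.units_eq_one_or (Equiv.Perm.sign s) with h1 | h1
  · rw [h1, one_smul]
    exact hp
  · rw [h1, Units.neg_smul, one_smul]
    exact L5_neg hp

/-- `ek X k` is the homogeneous component of degree `k` of `det (1 + X)`. -/
theorem L5_hc {v : ℕ} (X : Matrix (Fin v) (Fin v) (MvPolynomial σ K))
    (hX : ∀ i j, (X i j).IsHomogeneous 1) (k : ℕ) :
    ek X k = homogeneousComponent k (1 + X).det := by
  classical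
  set M : Matrix (Fin v) (Fin v) (Polynomial (MvPolynomial σ K)) :=
    1 + (Polynomial.X : Polynomial (MvPolynomial σ K)) • X.map Polynomial.C with hM
  have hP : L5_Hp M.det := by
    refine L5_det M fun i j => ?_
    have h1 : M i j = (1 : Matrix (Fin v) (Fin v) (Polynomial (MvPolynomial σ K))) i j +
        Polynomial.X * Polynomial.C (X i j) := rfl
    rw [h1]
    refine L5_add ?_ (L5_XC (hX i j))
    rw [Matrix.one_apply]
    split_ifs
    · exact L5_one
    · exact L5_zero
  have hek : ek X k = M.det.coeff k := rfl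
  have hev : (1 + X).det = M.det.eval 1 := by
    have h2 : (Polynomial.evalRingHom (1 : MvPolynomial σ K)) M.det =
        (M.map (Polynomial.evalRingHom (1 : MvPolynomial σ K))).det :=
      RingHom.map_det _ _
    rw [Polynomial.coe_evalRingHom] at h2
    rw [h2]
    congr 1
    ext1 i j
    have h1 : M i j = (1 : Matrix (Fin v) (Fin v) (Polynomial (MvPolynomial σ K))) i j +
        Polynomial.X * Polynomial.C (X i j) := rfl
    rw [Matrix.map_apply, h1, Matrix.add_apply, Polynomial.eval_add, Polynomial.eval_mul,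
      Polynomial.eval_X, Polynomial.eval_C, one_mul, Matrix.one_apply, Matrix.one_apply]
    congr 1
    split_ifs
    · exact Polynomial.eval_one.symm
    · exact Polynomial.eval_zero.symm
  rw [hek, hev, Polynomial.eval_eq_sum_range, map_sum]
  have h3 : ∀ i ∈ range (M.det.natDegree + 1),
      homogeneousComponent k (M.det.coeff i * 1 ^ i) = if i = k then M.det.coeff k else 0 := by
    intro i _
    rw [one_pow, mul_one, homogeneousComponent_of_mem ((mem_homogeneousSubmodule _ _).mpr (hP i))]
    by_cases h : i = k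
    · subst h
      rw [if_pos rfl]
    · rw [if_neg (fun h' => h h'.symm), if_neg h]
  rw [Finset.sum_congr rfl h3, Finset.sum_ite_eq']
  split_ifs with h
  · rfl
  · refine Polynomial.coeff_eq_zero_of_natDegree_lt ?_
    rw [Finset.mem_range] at h
    omega

end

theorem L5_homog {Y Z : Type} [Fintype Y] [Fintype Z] {K : Type} [Field K]
    {f : MvPolynomial (Y ⊕ Z) K} {x y : ℕ} (h : IsBi f x y) : f.IsHomogeneous (x + y) := by
  intro m hm
  obtain ⟨h1, h2⟩ := h m hm
  rw [← h1, ← h2, ← deg_eq, Finsupp.degree_eq_weight_one]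
  rfl

theorem td_L5 : StL5 := by
  intro Y Z _ _ K _ v A B hA hB u u' k
  have hX : ∀ i j, ((A + B) i j).IsHomogeneous 1 := fun i j =>
    (L5_homog (hA i j)).add (by simpa using L5_homog (hB i j))
  rw [L5_hc (A + B) hX k, bc_hc, add_assoc]

end Pool.Agent.Work.MP_499dc6_lc.TD
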