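import Pool.Agent.Work.MP_499dc6_lc.TD.Term

/-!
# Depth three with determinants: the inequality
-/

namespace Pool.Agent.Work.MP_499dc6_lc.Fib

open MvPolynomial Finset
open Pool.Agent.Work.MP_499dc6_lc.CD
open Pool.Agent.Work.MP_499dc6_lc.D3
open Pool.Agent.Work.MP_499dc6_lc.TD

open scoped PowerSeries

/-- Upper bound for the functional of the restricted hard polynomial. -/
theorem TD_upper (hLev : StLev) (k : Type) [Field k] [CharZero k] (N S p D r w t n kk : ℕ) (κ : ℝ)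
    (Q : Fin S → MvPolynomial (Fin p) (LaurentSeries k))
    (f : Fin S → Fin p → Fin D → MvPolynomial (Fin N × Fin N) (LaurentSeries k))
    (μ : Fin S → Fin p → Fin D → ℕ) (hf : ∀ i b j, Fac r w (f i b j))
    (R : MvPolynomial (Fin N × Fin N) k⟦X⟧)
    (h : ∑ i, aeval (fun b => ∏ j, f i b j ^ μ i b j) (Q i) =
      MvPolynomial.map (algebraMap k⟦X⟧ (LaurentSeries k))
        (gperm k⟦X⟧ N + C PowerSeries.X * R))
    (hkk : 1 ≤ kk) (hn3 : 3 * kk ≤ n) (hN : 4 * (2 * n + kk) ≤ N) (ht : 1 ≤ t) (hκ : 0 < κ)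
    (hκμ : κ ≤ Real.log (3 / 2) / 16)
    (hthr : (D : ℝ) * 121 ^ (r + 2 * w) ≤ Real.exp (Real.log (3 / 2) / 4 / 2 * t))
    (hcone : ∀ u v : ℕ, 1 ≤ u + v → u + v < t → 2 * κ * ((u + v : ℕ) : ℝ) ≤
      |(u : ℝ) * Real.log (3 / 2) - v * (Real.log (3 / 2) * (n + kk) / n)|)
    (hser : (∑ m ∈ Icc t (2 * (n + kk) + 2 * n),
      ((m : ℝ) + 1) * Real.exp (-(Real.log (3 / 2) / 16 * m))) ≤ 1)
    (A : Finset (VV n kk)) :
    ∃ R' : MvPolynomial (VV n kk) k⟦X⟧,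
      BB (Real.log (3 / 2)) (Real.log (3 / 2) * (n + kk) / n)
        (MvPolynomial.map (algebraMap k⟦X⟧ (LaurentSeries k))
          (PA k⟦X⟧ n kk A + C PowerSeries.X * R'))
        (S * (((Tr_set (Fin 3 × Fin p) (2 * (n + kk) + 2 * n)).card : ℝ) *
        ((((2 * (n + kk) + 2 * n : ℕ) : ℝ) + 1) ^ 4 *
          Real.exp (-(κ * ((2 * (n + kk) + 2 * n : ℕ) : ℝ)))))) := by
  have := charZero_laurent k
  obtain ⟨θ, hθ, c₀, hc₀, hperm⟩ := pr_Scal (D3.pr_Proj D3.pr_GadCancel D3.pr_GadBij) k N n kk hN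
  obtain ⟨φ, hφ⟩ : ∃ φ : k⟦X⟧ →+* LaurentSeries k, φ = algebraMap k⟦X⟧ (LaurentSeries k) :=
    ⟨_, rfl⟩
  rw [← hφ] at h ⊢
  let ρP : VV n kk → MvPolynomial (VV n kk) k⟦X⟧ := fun w =>
    if w ∈ A then (X w : MvPolynomial (VV n kk) k⟦X⟧) else 0
  let g1 : Fin N × Fin N → MvPolynomial (VV n kk) k⟦X⟧ := fun v => aeval ρP (θ v)
  let θ1 : Fin N × Fin N → MvPolynomial (VV n kk) (LaurentSeries k) :=
    fun v => MvPolynomial.map φ (g1 v)
  have hθ1 : ∀ v, (θ1 v).totalDegree ≤ 1 := by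
    intro v
    rcases hθ v with h | h | h | ⟨w, h⟩
    · have : θ1 v = 0 := by simp [θ1, g1, h]
      rw [this]; simp
    · have : θ1 v = 1 := by simp [θ1, g1, h]
      rw [this]; simp
    · have : θ1 v = C (-1) := by simp [θ1, g1, h]
      rw [this, totalDegree_C]; exact Nat.zero_le _
    · by_cases hw : w ∈ A
      · have : θ1 v = X w := by simp [θ1, g1, h, ρP, hw]
        rw [this, totalDegree_X]
      · have : θ1 v = 0 := by simp [θ1, g1, h, ρP, hw]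
        rw [this]; simp
  have h2 : aeval g1 (gperm k⟦X⟧ N) = C (PowerSeries.C c₀) * PA k⟦X⟧ n kk A := by
    have e1 : aeval g1 (gperm k⟦X⟧ N) = aeval ρP (aeval θ (gperm k⟦X⟧ N)) :=
      (comp_aeval_apply θ (aeval ρP : MvPolynomial (VV n kk) k⟦X⟧ →ₐ[k⟦X⟧] _) _).symm
    rw [e1, hperm, map_mul, Up_aeval_C, (pr_PA n kk A).1]
  -- translation
  let V : Fin S → Fin p → Fin D → MvPolynomial (VV n kk) (LaurentSeries k) :=
    fun i b j => aeval θ1 (f i b j)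
  let en : (Fin S × Fin p × Fin D) ≃ Fin (Fintype.card (Fin S × Fin p × Fin D)) :=
    Fintype.equivFin _
  obtain ⟨x, hx⟩ := CD.pr_Transl (VV n kk) k (Fintype.card (Fin S × Fin p × Fin D))
    (fun q => V (en.symm q).1 (en.symm q).2.1 (en.symm q).2.2)
  rw [← hφ] at hx
  let trP : VV n kk → MvPolynomial (VV n kk) k⟦X⟧ := fun j => X j + C (PowerSeries.C (x j))
  let tr : VV n kk → MvPolynomial (VV n kk) (LaurentSeries k) :=
    fun j => X j + C (φ (PowerSeries.C (x j)))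
  have htr : tr = fun j => MvPolynomial.map φ (trP j) := by
    funext j
    simp [tr, trP]
  have hx' : ∀ i b j, V i b j ≠ 0 → constantCoeff (aeval tr (V i b j)) ≠ 0 := by
    intro i b j hij
    have h3 := hx (en (i, b, j))
    rw [Equiv.symm_apply_apply] at h3
    exact h3 hij
  have hV : ∑ i, aeval (fun b => ∏ j, V i b j ^ μ i b j) (Q i) =
      MvPolynomial.map φ (C (PowerSeries.C c₀) *
      PA k⟦X⟧ n kk A + C PowerSeries.X * aeval g1 R) := by
    have h3 : aeval θ1 (∑ i, aeval (fun b => ∏ j, f i b j ^ μ i b j) (Q i)) =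
        ∑ i, aeval (fun b => ∏ j, V i b j ^ μ i b j) (Q i) := by
      rw [map_sum]
      refine Finset.sum_congr rfl fun i _ => ?_
      rw [comp_aeval_apply]
      congr 2
      funext b
      rw [map_prod]
      exact Finset.prod_congr rfl fun j _ => map_pow _ _ _
    rw [← h3, h, show θ1 = fun p => MvPolynomial.map φ (g1 p) from rfl, aeval_map_map,
      aeval_lin, h2]
  obtain ⟨a, ha⟩ : ∃ a, a = 2 * (n + kk) := ⟨_, rfl⟩
  obtain ⟨b, hb⟩ : ∃ b, b = 2 * n := ⟨_, rfl⟩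
  refine ⟨bc a b (aeval trP (C (PowerSeries.C c₀⁻¹) * aeval g1 R)), ?_⟩
  have hsumF : ∑ i, aeval tr (aeval (fun b => ∏ j, V i b j ^ μ i b j) (Q i)) =
      MvPolynomial.map φ (aeval trP
        (C (PowerSeries.C c₀) * PA k⟦X⟧ n kk A + C PowerSeries.X * aeval g1 R)) := by
    rw [← map_sum, hV, htr, aeval_map_map]
  have hkey : MvPolynomial.map φ (PA k⟦X⟧ n kk A + C PowerSeries.X *
      bc a b (aeval trP (C (PowerSeries.C c₀⁻¹) * aeval g1 R))) =
      ∑ i, C (φ (PowerSeries.C c₀⁻¹)) * bc a b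
        (aeval tr (aeval (fun b => ∏ j, V i b j ^ μ i b j) (Q i))) := by
    have h5 := bc_gen CD.pr_TransTop CD.pr_BiHom (fun j => (PowerSeries.C (x j) : k⟦X⟧))
      (PA k⟦X⟧ n kk A) (C (PowerSeries.C c₀⁻¹) * aeval g1 R) PowerSeries.X a b
      (by rw [ha, hb]; exact (pr_PA n kk A).2.1 _)
    have h6 : PA k⟦X⟧ n kk A + C PowerSeries.X * (C (PowerSeries.C c₀⁻¹) * aeval g1 R) =
        C (PowerSeries.C c₀⁻¹) * (C (PowerSeries.C c₀) * PA k⟦X⟧ n kk A +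
          C PowerSeries.X * aeval g1 R) := by
      have h10 : (C (PowerSeries.C c₀⁻¹) : MvPolynomial (VV n kk) k⟦X⟧) *
          C (PowerSeries.C c₀) = 1 := by
        rw [← C_mul, ← map_mul, inv_mul_cancel₀ hc₀, map_one, C_1]
      linear_combination (-(PA k⟦X⟧ n kk A)) * h10
    have h7 : aeval trP (C (PowerSeries.C c₀⁻¹) * (C (PowerSeries.C c₀) * PA k⟦X⟧ n kk A +
          C PowerSeries.X * aeval g1 R)) = C (PowerSeries.C c₀⁻¹) * aeval trP
          (C (PowerSeries.C c₀) * PA k⟦X⟧ n kk A + C PowerSeries.X * aeval g1 R) := by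
      rw [map_mul, Up_aeval_C]
    have h8 : (fun j => (X j + C ((PowerSeries.C (x j) : k⟦X⟧)) :
        MvPolynomial (VV n kk) k⟦X⟧)) = trP := rfl
    rw [h8] at h5
    rw [← h5, h6, h7, ← bc_map, map_mul, map_C, ← hsumF, bc_C_mul, bc_sum, Finset.mul_sum]
  rw [hkey]
  refine BB_fin_sum _ fun i => CD.pr_BBsmul _ _ _ _ _ _ _ _ ?_
  have h7 : aeval tr (aeval (fun b => ∏ j, V i b j ^ μ i b j) (Q i)) =
      aeval (fun b => ∏ j, aeval tr (V i b j) ^ μ i b j) (Q i) := by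
    rw [comp_aeval_apply]
    congr 2
    funext b
    rw [map_prod]
    exact Finset.prod_congr rfl fun j _ => map_pow _ _ _
  have hn0 : (0 : ℝ) < n := by exact_mod_cast (by omega : 0 < n)
  have hbe1 : Real.log (3 / 2) ≤ Real.log (3 / 2) * (n + kk) / n := by
    have hl : 0 ≤ Real.log (3 / 2 : ℝ) := Real.log_nonneg (by norm_num)
    rw [le_div_iff₀ hn0]
    have : (0 : ℝ) ≤ kk := Nat.cast_nonneg _
    nlinarith
  rw [h7]
  have hfin := TD_term hLev (CY n kk × CY n kk) (CZ n × CZ n) (LaurentSeries k)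
    (Real.log (3 / 2) * (n + kk) / n) κ p D r w t (2 * (n + kk) + 2 * n) (Q i)
    (fun b j => aeval tr (V i b j)) (μ i) hbe1 ht hκ hκμ ?_ ?_ hthr hcone hser a b
    (by rw [ha, hb])
  · refine BB.mono hfin (le_of_eq ?_)
    rw [ha, hb]
  · intro b j
    exact ((hf i b j).aeval θ1 hθ1).aeval tr (fun p => totalDegree_trans_X _ _)
  · intro b j
    by_cases h8 : V i b j = 0
    · left
      rw [h8, map_zero]
    · right
      exact hx' i b j h8


/-- The main inequality for given parameters. -/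
theorem TD_ineq (hLev : StLev) (k : Type) [Field k] [CharZero k] (N S p D r w t n kk : ℕ) (κ : ℝ)
    (Q : Fin S → MvPolynomial (Fin p) (LaurentSeries k))
    (f : Fin S → Fin p → Fin D → MvPolynomial (Fin N × Fin N) (LaurentSeries k))
    (μ : Fin S → Fin p → Fin D → ℕ) (hf : ∀ i b j, Fac r w (f i b j))
    (R : MvPolynomial (Fin N × Fin N) k⟦X⟧)
    (h : ∑ i, aeval (fun b => ∏ j, f i b j ^ μ i b j) (Q i) =
      MvPolynomial.map (algebraMap k⟦X⟧ (LaurentSeries k))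
        (gperm k⟦X⟧ N + C PowerSeries.X * R))
    (hp : 1 ≤ p)
    (hkk : 1 ≤ kk) (hn3 : 3 * kk ≤ n) (hN : 4 * (2 * n + kk) ≤ N) (ht : 1 ≤ t) (hκ : 0 < κ)
    (hκμ : κ ≤ Real.log (3 / 2) / 16)
    (hthr : (D : ℝ) * 121 ^ (r + 2 * w) ≤ Real.exp (Real.log (3 / 2) / 4 / 2 * t))
    (hcone : ∀ u v : ℕ, 1 ≤ u + v → u + v < t → 2 * κ * ((u + v : ℕ) : ℝ) ≤
      |(u : ℝ) * Real.log (3 / 2) - v * (Real.log (3 / 2) * (n + kk) / n)|)
    (hser : (∑ m ∈ Icc t (2 * (n + kk) + 2 * n),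
      ((m : ℝ) + 1) * Real.exp (-(Real.log (3 / 2) / 16 * m))) ≤ 1) :
    1 ≤ S ∧ κ * ((2 * (n + kk) + 2 * n : ℕ) : ℝ) ≤ Real.log S +
      3 * p * (1 + Real.log (1 + ((2 * (n + kk) + 2 * n : ℕ) : ℝ) / (3 * p))) +
      4 * Real.log (((2 * (n + kk) + 2 * n : ℕ) : ℝ) + 1) +
      Real.log (1000 * ((2 * (n + kk) + 1 : ℕ) : ℝ) ^ 8) := by
  classical
  have hal : 0 < Real.log (3 / 2 : ℝ) := Real.log_pos (by norm_num)
  have hn1 : 3 ≤ n := by omega
  obtain ⟨m, hm⟩ : ∃ m, m = n + kk := ⟨_, rfl⟩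
  have hm1 : 4 ≤ m := by omega
  obtain ⟨L, hL⟩ : ∃ L, L + 2 * m = 2 * ((2 * m) ^ 2 - 1) := by
    refine ⟨2 * ((2 * m) ^ 2 - 1) - 2 * m, Nat.sub_add_cancel ?_⟩
    have : 2 * m + 1 ≤ (2 * m) ^ 2 := by nlinarith
    omega
  obtain ⟨be, hbe⟩ : ∃ be : ℝ, be = Real.log (3 / 2) * (n + kk) / n := ⟨_, rfl⟩
  have hnR : (0 : ℝ) < n := by exact_mod_cast (by omega : 0 < n)
  have hbe0 : 0 < be := by rw [hbe]; positivity
  obtain ⟨q, hq1, hq2⟩ := ell ((2 * n) ^ 2) be (by nlinarith) hbe0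
  rw [hbe] at hq1 hq2
  obtain ⟨A, -, hlow⟩ := Ineq_set mainRankA n kk L q 0 0 (fun i => i.elim0) hn3 hkk
    (by rw [← hm]; exact hL) (by push_cast at hq1 ⊢; exact hq1) (by norm_num)
  obtain ⟨R', hBB⟩ := TD_upper hLev k N S p D r w t n kk κ Q f μ hf R h hkk hn3 hN ht hκ hκμ hthr hcone
    hser A
  have hlow2 := @D3.pr_RankK D3.pr_Minor (CY n kk × CY n kk) (CZ n × CZ n) _ _ _ _ k _ _
    (PA ℤ n kk A) R' (L + 2 * (n + kk)) q L (q + 2 * n)
  rw [(pr_PA n kk A).2.2, (pr_PA n kk A).2.2] at hlow2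
  have : Nonempty (CY n kk × CY n kk) :=
    ⟨(Sum.inl (true, ⟨0, by omega⟩), Sum.inl (true, ⟨0, by omega⟩))⟩
  have : Nonempty (CZ n × CZ n) :=
    ⟨((true, ⟨0, by omega⟩), (true, ⟨0, by omega⟩))⟩
  have hcY : Fintype.card (CY n kk × CY n kk) = (2 * (n + kk)) ^ 2 := by
    rw [Fintype.card_prod, card_CY, sq]
  have hcZ : Fintype.card (CZ n × CZ n) = (2 * n) ^ 2 := by
    rw [Fintype.card_prod, card_CZ, sq]
  obtain ⟨dd, hdd⟩ : ∃ dd, dd = 2 * (n + kk) + 2 * n := ⟨_, rfl⟩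
  rw [← hdd] at hBB ⊢
  obtain ⟨E, hE⟩ : ∃ E : ℝ, E = ((Tr_set (Fin 3 × Fin p) dd).card : ℝ) *
        (((dd : ℝ) + 1) ^ 4 * Real.exp (-(κ * (dd : ℝ)))) := ⟨_, rfl⟩
  rw [← hE] at hBB
  have hupp := mainBBrank _ _ (LaurentSeries k) _ _ _ _ L q (2 * (n + kk)) (2 * n) (by omega)
    (by
      rw [hcY, ← hm, Real.exp_log (by norm_num)]
      have h5 : ((L : ℝ) + ((2 * m : ℕ) : ℝ)) = 2 * (((2 * m : ℕ) : ℝ) ^ 2 - 1) := by
        have h6 : ((L + 2 * m : ℕ) : ℝ) = ((2 * ((2 * m) ^ 2 - 1) : ℕ) : ℝ) := by rw [hL]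
        rw [Nat.cast_add, Nat.cast_mul 2 ((2 * m) ^ 2 - 1), Nat.cast_sub (Nat.one_le_pow _ _
          (by omega)), Nat.cast_pow] at h6
        push_cast at h6 ⊢
        exact h6
      rw [h5]
      have h7 : (8 : ℝ) ≤ ((2 * m : ℕ) : ℝ) := by exact_mod_cast (by omega : 8 ≤ 2 * m)
      have h8 : (1 : ℝ) < ((2 * m : ℕ) : ℝ) ^ 2 := by nlinarith
      rw [le_div_iff₀ (by linarith)]
      push_cast
      linarith)
    (by rw [hcZ]; exact hq2) hBB
  rw [hcY, hcZ] at hupp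
  have hexp0 : Real.exp (-(((2 * (n + kk) : ℕ) : ℝ) * Real.log (3 / 2) -
      ((2 * n : ℕ) : ℝ) * (Real.log (3 / 2) * (n + kk) / n)) / 2) = 1 := by
    rw [Real.exp_eq_one_iff]
    have hw0 : (n : ℝ) ≠ 0 := hnR.ne'
    push_cast
    field_simp
    ring
  rw [hexp0, mul_one] at hupp
  obtain ⟨W, hW⟩ : ∃ W : ℝ, W = (TT ((2 * (n + kk)) ^ 2) (L + 2 * (n + kk)) : ℝ) *
    TT ((2 * n) ^ 2) q := ⟨_, rfl⟩
  have hWpos : 0 < W := by
    rw [hW]
    apply mul_pos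
    · exact_mod_cast D3.TT_pos (Nat.one_le_pow _ _ (by omega))
    · exact_mod_cast D3.TT_pos (Nat.one_le_pow _ _ (by omega))
  obtain ⟨X, hX⟩ : ∃ X : ℝ, X = 1000 * ((2 * (n + kk) + 1 : ℕ) : ℝ) ^ 8 := ⟨_, rfl⟩
  have hXpos : 0 < X := by rw [hX]; positivity
  rw [← hW, ← hX] at hlow
  rw [← hW] at hupp
  rw [← hX]
  have h9 : W ≤ W * (S * E) * X := by
    refine hlow.trans ?_
    apply mul_le_mul_of_nonneg_right _ hXpos.le
    exact (Nat.cast_le.mpr hlow2).trans hupp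
  have h10 : 1 ≤ (S * E) * X := by
    rw [mul_assoc] at h9
    exact le_of_mul_le_mul_left (by linarith) hWpos
  have hS : 1 ≤ S := by
    by_contra hcon
    have : S = 0 := by omega
    rw [this] at h10
    norm_num at h10
  refine ⟨hS, ?_⟩
  have hSpos : (0 : ℝ) < S := by exact_mod_cast (by omega : 0 < S)
  have hcount := Tr_count p dd hp (by omega)
  have hE2 : E ≤ Real.exp (3 * p * (1 + Real.log (1 + dd / (3 * p)))) *
      (((dd : ℝ) + 1) ^ 4 * Real.exp (-(κ * (dd : ℝ)))) := by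
    rw [hE]
    exact mul_le_mul_of_nonneg_right hcount (by positivity)
  have h12 : 1 ≤ (S * (Real.exp (3 * p * (1 + Real.log (1 + dd / (3 * p)))) *
      (((dd : ℝ) + 1) ^ 4 * Real.exp (-(κ * (dd : ℝ)))))) * X := by
    refine h10.trans ?_
    gcongr
  have h11 := Real.log_le_log one_pos h12
  rw [Real.log_one, Real.log_mul (by positivity) (by positivity), Real.log_mul (by positivity)
    (by positivity), Real.log_mul (by positivity) (by positivity), Real.log_mul (by positivity)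
    (by positivity), Real.log_exp, Real.log_exp, Real.log_pow] at h11
  push_cast at h11
  linarith


end Pool.Agent.Work.MP_499dc6_lc.Fib
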