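import Pool.Agent.Work.MP_499dc6_lc.TD.Defs

/-!
# Depth three with determinants: statements

Every docstring is the complete proof. Item `X`: file `TD/I_X.lean`, theorem `td_X : StX` (hypotheses: earlier
statements, as named), namespace `Pool.Agent.Work.MP_499dc6_lc.TD`. Facts about `bc`, `IsBi`:
`D3/Bc.lean` (`bc_add`, `bc_sum`, `bc_C_mul`, `bc_of_isBi`, `isBi_sum`, ..), products of
bihomogeneous polynomials: `CD/I_BiMul.lean`; `D3.pr_BcMul : D3.S_BcMul` (component of a product);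
`CD.pr_BBmul`, `CD.pr_BBsmul : CD.S_BBsmul` (scalars are free), `BB.zero`, `BB.term`, `BB.add`, `BB.mono`.
-/

namespace Pool.Agent.Work.MP_499dc6_lc.TD

open MvPolynomial Finset
open Pool.Agent.Work.MP_499dc6_lc.CD
open Pool.Agent.Work.MP_499dc6_lc.D3
open Pool.Agent.Work.MP_499dc6_lc.Fib

/-! ## Newton's identities, for any commutative ring -/

/-- [F1] MEDIUM. Newton's identity for `e_k`. Let `M = 1 + t X` over `S[t]`, `E = det M`. The derivative of a
determinant is `E' = tr (adj M * M')`, `M' = X` (`Matrix.det_apply`, derivative of a product;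
`adjugate`/`Matrix.det_updateRow` expansion; `B1_det` in `Bd/B05.lean` is a similar lemma; or: Mathlib's
`Matrix.derivative_det_one_add_X_smul` over `S[[t]]` for the matrix `M⁻¹ X`). With
`G = ∑ i < n, (-t X)^i`: `M * G = 1 - (-t X)^n`, so `adj M * (1 - (-t X)^n) = E • G` (`adj M * M = E`, `G` commutes
with `M`). Multiply by `X`, take traces and the coefficient of `t^(n-1)`: the term
`adj M * (-t X)^n * X` is divisible by `t^n`, so `n e_n = [t^(n-1)] E' = ∑ i < n, (-1)^i tr (X^(i+1)) e_(n-1-i)`. -/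
def StF1 : Prop :=
  ∀ (S : Type) [CommRing S] (v : ℕ) (X : Matrix (Fin v) (Fin v) S) (n : ℕ),
    (n : S) * ek X n =
      ∑ i ∈ range n, (-1) ^ i * ((X ^ (i + 1)).trace * ek X (n - 1 - i))

/-- [F2a] MEDIUM. `(α i + 1) coeff (α + e_i) f` is the coefficient of `x^α` in `∂_i f` (`coeff_pderiv`-type
lemma). `∂_i (x_j lf X α) = δ_ij lf X α + x_j ∑ k, α_k X_ki lf X (α - e_k)` (Leibniz, terms with `α_k = 0` vanish).
Sum over `|α| = m + 1`: the first part gives `δ_ij hk X (m+1)`; in the second put `β = α - e_k`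
(bijection between the `α` of degree `m + 1` with `α_k ≥ 1` and the `β` of degree `m`, `α_k = β_k + 1`), the
coefficient of `x^(β+e_k)` in `x_j lf X β` appears: `∑ k, X_ki GG X m k j`. `m = 0`: only `α = 0`, `lf X 0 = 1`. -/
def StF2a : Prop :=
  ∀ (S : Type) [CommRing S] (v : ℕ) (X : Matrix (Fin v) (Fin v) S) (i j : Fin v),
    GG X 0 i j = (if i = j then 1 else 0) ∧
    ∀ m : ℕ, GG X (m + 1) i j = (if i = j then hk X (m + 1) else 0) + ∑ k, X k i * GG X m k j

/-- [F2b] EASY-MEDIUM. `m + 1 = ∑ k, α_k` for `|α| = m + 1`, and for `α_k ≥ 1`, `β = α - e_k`: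
`lf X α = (∑ j, X_kj x_j) * lf X β`, so `coeff α (lf X α) = ∑ j, X_kj coeff (β + e_k) (x_j lf X β)`; sum over
`α` and `k` with the same bijection `α ↔ β` as in F2a (`α_k = β_k + 1`). -/
def StF2b : Prop :=
  ∀ (S : Type) [CommRing S] (v : ℕ) (X : Matrix (Fin v) (Fin v) S) (m : ℕ),
    ((m + 1 : ℕ) : S) * hk X (m + 1) = ∑ k, ∑ j, X k j * GG X m k j

/-- [F2] EASY (hF2a : StF2a) (hF2b : StF2b). Newton's identity for `h_m`. By induction on `m` from F2a
(`hk X 0 = 1`: only `α = 0`) `GG X m k j = ∑ i ≤ m, hk X (m - i) * (X ^ i) j k`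
(as matrices `G_m = h_m + Xᵀ G_(m-1)`, so `G_m = ∑ h_(m-i) (Xᵀ)^i`). Insert in F2b:
`∑ k j, X k j (X ^ i) j k = tr (X ^ (i+1))`. -/
def StF2 : Prop :=
  ∀ (S : Type) [CommRing S] (v : ℕ) (X : Matrix (Fin v) (Fin v) S) (n : ℕ),
    (n : S) * hk X n = ∑ i ∈ range n, (X ^ (i + 1)).trace * hk X (n - 1 - i)

/-- [F3] EASY-MEDIUM (hF1 : StF1) (hF2 : StF2). Power series `E = ∑ e_k t^k`, `H = ∑ (-1)^m h_m t^m`,
`T = ∑ (-1)^i tr (X^(i+1)) t^i`: F1 says `E' = T E`, F2 says `H' = - T H`. So `(E H)' = 0`, and in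
characteristic `0` all coefficients of `E H` of positive degree vanish. (Or multiply the claim by `n` and
use F1, F2 and reindex.) The constant coefficients: `ek X 0 = 1`, `hk X 0 = 1`. -/
def StF3 : Prop :=
  ∀ (S : Type) [CommRing S] [IsDomain S] [CharZero S] (v : ℕ) (X : Matrix (Fin v) (Fin v) S)
    (n : ℕ), ∑ p ∈ HasAntidiagonal.antidiagonal n, (-1) ^ p.2 * (ek X p.1 * hk X p.2) =
      if n = 0 then 1 else 0

/-! ## The determinant -/

/-- [L1] EASY-MEDIUM. `det (A + C) = ∑ σ, sgn σ ∏ i, (A (σ i) i + C (σ i) i)` (or with `i`, `σ i` exchanged), and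
`∏ i, (..) = ∑ I, ∏ i ∈ I, A .. * ∏ i ∉ I, C ..` (`Finset.prod_add`). For given `σ`, `I` exactly one set `J`
of columns, the one which corresponds to `I` under `σ`, has `∏ i, blk A C I J .. ≠ 0` formally: the product
for another `J` contains a factor `0`. It has as many elements as `I`. -/
def StL1 : Prop :=
  ∀ (S : Type) [CommRing S] (v : ℕ) (A C : Matrix (Fin v) (Fin v) S),
    (A + C).det = ∑ I : Finset (Fin v),
      ∑ J ∈ univ.filter (fun J : Finset (Fin v) => J.card = I.card), (blk A C I J).det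

/-- [L2] EASY-MEDIUM. `finSumEquivOfFinset` for `I`, `Iᶜ` and `J`, `Jᶜ` gives equivalences
`e_I, e_J : Fin a ⊕ Fin (v - a) ≃ Fin v`; `(blk A C I J).submatrix e_I e_J` is
`Matrix.fromBlocks (A.submatrix r c) 0 0 (C.submatrix r' c')`, its determinant is the product
(`Matrix.det_fromBlocks_zero₂₁`), and it differs from `det (blk A C I J)` by the sign of the permutation
`e_J ∘ e_I⁻¹` (`Matrix.det_permute'`, `Matrix.det_submatrix_equiv_self`). -/
def StL2 : Prop :=
  ∀ (S : Type) [CommRing S] (v a : ℕ) (A C : Matrix (Fin v) (Fin v) S) (I J : Finset (Fin v)),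
    I.card = a → J.card = a → ∃ (r c : Fin a → Fin v) (r' c' : Fin (v - a) → Fin v) (s : ℤ),
      (blk A C I J).det = (s : S) * ((A.submatrix r c).det * (C.submatrix r' c').det)

/-- [L3] MEDIUM (hL1 : StL1) (hL2 : StL2). `1 + A + B = A + (1 + B)`; L1, L2 with `C = 1 + B`. For `|I| = a₀`:
`g = (A.submatrix r c).det` is `IsBi g a₀ 0` (product and sum of entries), `h = (C.submatrix r' c').det` has
only components `(0, j)` (sum of products of elements `1`, `0`, `B i j`; property `∀ u v, u ≠ 0 → bc u v h = 0`,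
closed under products by `S_BcMul`). So `bc a a' (s g h)` is `0` for `a ≠ a₀` and `s g (bc 0 a' h)` for
`a = a₀`, `BB ≤ exp (-(a al + a' be)/2)` (`BB.term`, `BBsmul`: `(s : MvPolynomial) = C s`). There are
`(v.choose a)^2` pairs `I`, `J` with `|I| = |J| = a` (`Finset.card_powersetCard`). -/
def StL3 : Prop :=
  ∀ (Y Z : Type) [Fintype Y] [Fintype Z] (K : Type) [Field K] (al be : ℝ) (v : ℕ)
    (A B : Matrix (Fin v) (Fin v) (MvPolynomial (Y ⊕ Z) K)), (∀ i j, IsBi (A i j) 1 0) →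
    (∀ i j, IsBi (B i j) 0 1) → ∀ a a' : ℕ,
    BB al be (bc a a' (1 + A + B).det)
      ((v.choose a : ℝ) ^ 2 * Real.exp (-((a : ℝ) * al + a' * be) / 2))

/-- [L4] EASY. The entries of `1 + A + B` have total degree at most `1` (`IsBi` of degree `1`), so the determinant has
total degree at most `v` (`Matrix.det_apply`, `totalDegree_finset_sum_le`-type lemmas,
`totalDegree_finset_prod`), and a component of larger degree is zero (`coeff_bc`; a monomial with
nonzero coefficient has degree `dY m + dZ m` (`deg_eq`) at most the total degree). -/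
def StL4 : Prop :=
  ∀ (Y Z : Type) [Fintype Y] [Fintype Z] (K : Type) [Field K] (v : ℕ)
    (A B : Matrix (Fin v) (Fin v) (MvPolynomial (Y ⊕ Z) K)), (∀ i j, IsBi (A i j) 1 0) →
    (∀ i j, IsBi (B i j) 0 1) → ∀ a a' : ℕ, v < a + a' → bc a a' (1 + A + B).det = 0

/-- [L5] EASY-MEDIUM. `X = A + B` has entries which are homogeneous of degree `1`. `det (1 + t X)` is the sum over
the permutations of products of `v` factors `δ + t X ..`, so its coefficient of `t^k` is homogeneous of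
degree `k` (property of polynomials `p` in `t`: `∀ k, (p.coeff k).IsHomogeneous k`, closed under sums and
products, `Polynomial.coeff_mul`), and its value at `t = 1` is `det (1 + X)`. So `ek X k` is the homogeneous
component of degree `k` of `V = det (1 + A + B)`, and `bc_hc` (`D3/Bc.lean`). -/
def StL5 : Prop :=
  ∀ (Y Z : Type) [Fintype Y] [Fintype Z] (K : Type) [Field K] (v : ℕ)
    (A B : Matrix (Fin v) (Fin v) (MvPolynomial (Y ⊕ Z) K)), (∀ i j, IsBi (A i j) 1 0) →
    (∀ i j, IsBi (B i j) 0 1) → ∀ u u' k : ℕ,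
    bc u u' (ek (A + B) k) = if u + u' = k then bc u u' (1 + A + B).det else 0

/-! ## The symmetric side -/

/-- [H1] MEDIUM. `lf (A + B) α = ∏ i, (a_i + b_i)^(α i)` with the linear forms `a_i`, `b_i` of `A`, `B`; binomial theorem
in every factor: `= ∑ γ ≤ α, (∏ i, (α i).choose (γ i)) lf A γ * lf B (α - γ)`. Then
`coeff α (f g) = ∑ (ε, ε') ∈ antidiagonal α, coeff ε f * coeff ε' g` (`coeff_mul`). `lf A γ` is homogeneous of
degree `|γ|`, so only `ε ≤ α` with `|ε| = |γ| = b` contribute, `b ≤ m`. Sum over `|α| = m` and exchange. -/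
def StH1 : Prop :=
  ∀ (S : Type) [CommRing S] (v : ℕ) (A B : Matrix (Fin v) (Fin v) S) (m : ℕ),
    hk (A + B) m = ∑ p ∈ HasAntidiagonal.antidiagonal m, Hs A B p.1 p.2

/-- [H2] EASY-MEDIUM. All coefficients of `lf A γ` are `IsBi` of degree `(|γ|, 0)`, all coefficients of `lf B δ` are
`IsBi` of degree `(0, |δ|)` (products: `coeff_mul`, `CD/I_BiMul.lean`). For `γ, ε ∈ SA v b` the term is `g * h` with
`g = coeff ε (lf A γ)` of bidegree `(b, 0)` and `h` = the inner sum of bidegree `(0, b')` (`|α - γ| = b'`; the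
natural number is a constant). `BB.term` gives `exp (-(b al + b' be)/2)` for each of the `|SA v b|^2` terms. -/
def StH2 : Prop :=
  ∀ (Y Z : Type) [Fintype Y] [Fintype Z] (K : Type) [Field K] (al be : ℝ) (v : ℕ)
    (A B : Matrix (Fin v) (Fin v) (MvPolynomial (Y ⊕ Z) K)), (∀ i j, IsBi (A i j) 1 0) →
    (∀ i j, IsBi (B i j) 0 1) → ∀ b b' : ℕ, IsBi (Hs A B b b') b b' ∧
    BB al be (Hs A B b b') (((SA v b).card : ℝ) ^ 2 * Real.exp (-((b : ℝ) * al + b' * be) / 2))

/-- [H3] EASY. `|SA v b| * x^b ≤ (1 - x)^(-v)` for `0 < x < 1` (`|SA v b| x^b` is the sum of the `∏ i, x^(α i)` over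
the `α` of degree `b`, at most the product over `i` of `∑ j ≤ b, x^j`; see `Tr_card` in `Fib/TrA.lean`), with
`x = exp (-(log (3/2) / 8)) ≤ 20/21`, since `(21/20)^8 ≤ 3/2` (`1.05^8 = 1.4775`): `1 / (1 - x) ≤ 21`. -/
def StH3 : Prop :=
  ∀ v b : ℕ, ((SA v b).card : ℝ) ≤ 21 ^ v * Real.exp (Real.log (3 / 2) / 8 * b)

/-! ## The logarithmic derivative -/

/-- [CV] MEDIUM (hF3 : StF3) (hL5 : StL5) (hH1 : StH1) (hH2 : StH2). Apply `bc u u'` to F3 for
`X = A + B`, `n = u + u'` (`MvPolynomial` over a field of characteristic zero is a domain of characteristic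
zero; `if n = 0`: `bc u u'` of `1` and `u = u' = 0`). By `S_BcMul` the product
`ek X k * hk X m` has the component `∑ p q, bc p.1 q.1 (ek X k) * bc p.2 q.2 (hk X m)`, where by L5 the first factor is
`bc p.1 q.1 V` if `p.1 + q.1 = k` and `0` else, and by H1, H2 (`bc_of_isBi`) the second one is `Hs A B p.2 q.2` if
`p.2 + q.2 = m` and `0` else. For each `p`, `q` exactly one `(k, m)` remains, with sign `(-1)^m`. -/
def StCV : Prop :=
  ∀ (Y Z : Type) [Fintype Y] [Fintype Z] (K : Type) [Field K] [CharZero K] (v : ℕ)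
    (A B : Matrix (Fin v) (Fin v) (MvPolynomial (Y ⊕ Z) K)), (∀ i j, IsBi (A i j) 1 0) →
    (∀ i j, IsBi (B i j) 0 1) → ∀ u u' : ℕ,
    ∑ p ∈ HasAntidiagonal.antidiagonal u, ∑ q ∈ HasAntidiagonal.antidiagonal u',
      bc p.1 q.1 (1 + A + B).det * ((-1) ^ (p.2 + q.2) * Hs A B p.2 q.2) =
      if u = 0 ∧ u' = 0 then 1 else 0

/-- [LW] EASY-MEDIUM (hCV : StCV) (hH2 : StH2). `ww 0 0 = 0`: the factor `p.1 + q.1` is `0`. `IsBi (ww u u') u u'`:
products and sums (a natural number is a constant, `(-1)^k` too). The relation: double sums over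
antidiagonals are the product in the ring `R[[s]][[t]]` (`PowerSeries.mk`, `PowerSeries.coeff_mul`, or
`MvPowerSeries`); with `V`, `D V` (coefficients `(u + u') V_(u,u')`) and `H` (coefficients `(-1)^(u+u') Hs u u'`)
we have `w = (D V) H` and `V H = 1` by `CV`, so `w V = D V`, for all `u`, `u'` (also beyond `dd`). -/
def StLW : Prop :=
  ∀ (Y Z : Type) [Fintype Y] [Fintype Z] (K : Type) [Field K] [CharZero K] (v dd : ℕ)
    (A B : Matrix (Fin v) (Fin v) (MvPolynomial (Y ⊕ Z) K)), (∀ i j, IsBi (A i j) 1 0) →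
    (∀ i j, IsBi (B i j) 0 1) → LD dd (1 + A + B).det (ww A B)

/-- [BW] EASY-MEDIUM (hMul : CD.S_BBmul) (hL3 : StL3) (hL4 : StL4) (hH2 : StH2) (hH3 : StH3). `al = log (3/2)`.
A term with `p.1 + q.1 > v` vanishes (L4). Otherwise (`BBmul`, `BBsmul`; natural numbers and signs are constants)
`BB ≤ (v.choose p.1)^2 |SA v p.2|^2 exp (-(u al + u' be)/2)` as `p.1 + p.2 = u`, `q.1 + q.2 = u'`, and
`(v.choose p.1)^2 ≤ 4^v`, `|SA v p.2|^2 ≤ 441^v exp (al/4 * u)` (H3, `p.2 ≤ u`). There are at most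
`(v + 1)^2 ≤ 4^v` pairs `(p.1, q.1)` with `p.1 + q.1 ≤ v`. As `be ≥ al`,
`al u/4 - (u al + u' be)/2 ≤ - al (u + u')/4`, and `4^v 4^v 441^v = 7056^v ≤ 14641^v = 121^(2 v)`. -/
def StBW : Prop :=
  ∀ (Y Z : Type) [Fintype Y] [Fintype Z] (K : Type) [Field K] (be : ℝ) (v : ℕ)
    (A B : Matrix (Fin v) (Fin v) (MvPolynomial (Y ⊕ Z) K)), Real.log (3 / 2) ≤ be →
    (∀ i j, IsBi (A i j) 1 0) → (∀ i j, IsBi (B i j) 0 1) → ∀ u u' : ℕ,
    BB (Real.log (3 / 2)) be (ww A B u u')
      (121 ^ (2 * v) * Real.exp (-(Real.log (3 / 2) / 4 * ((u + u' : ℕ) : ℝ))))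

/-- [Lev] MEDIUM (hAf : D3.S_Affine) (hL3 : StL3) (hLW : StLW) (hBW : StBW). `V = 0`: all components are `0`, take
`w = 0`. Let `constantCoeff V ≠ 0`. `M i j = C (c i j) + (y i j + z i j)` (`S_Affine`, `choose`), so
`constantCoeff V = det c ≠ 0` (`RingHom.map_det`), and with `N = (c⁻¹).map C`, `A = N * y`, `B = N * z` (entries
`IsBi` `(1,0)`, `(0,1)`): `M = (c.map C) * (1 + A + B)`, `V = C (det c) * det (1 + A + B)`. `Rt`: `bc_C_mul`,
`BBsmul`, L3, `(v.choose u)^2 ≤ 4^v ≤ 121^(2 v)`, `(u al + v be)/2 ≥ al (u + v)/4` (`al = log (3/2) ≤ be`). `Lr`: `w = ww A B`, LW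
and BW; the relation in `LD` is linear in `V`, so it holds for `C (det c) * V'` too. -/
def StLev : Prop :=
  ∀ (Y Z : Type) [Fintype Y] [Fintype Z] (K : Type) [Field K] [CharZero K] (be : ℝ) (v dd : ℕ)
    (M : Matrix (Fin v) (Fin v) (MvPolynomial (Y ⊕ Z) K)) (V : MvPolynomial (Y ⊕ Z) K),
    Real.log (3 / 2) ≤ be → (∀ i j, (M i j).totalDegree ≤ 1) → V = M.det →
    (V = 0 ∨ constantCoeff V ≠ 0) →
    Rt (Real.log (3 / 2)) be dd (121 ^ (2 * v)) (Real.log (3 / 2) / 4) V ∧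
      Lr (Real.log (3 / 2)) be dd (121 ^ (2 * v)) (Real.log (3 / 2) / 4) V

end Pool.Agent.Work.MP_499dc6_lc.TD
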