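import Pool.Agent.Work.MP_499dc6_lc.Fib.TrE
import Pool.Agent.Work.MP_499dc6_lc.TD.Stmts

/-!
# Depth three with determinants: upper bound for a term
-/

namespace Pool.Agent.Work.MP_499dc6_lc.TD

open MvPolynomial Finset
open Pool.Agent.Work.MP_499dc6_lc.CD
open Pool.Agent.Work.MP_499dc6_lc.D3
open Pool.Agent.Work.MP_499dc6_lc.Fib

open scoped PowerSeries

/-- A polynomial in `r` affine forms or the determinant of a `w × w` matrix of affine forms. -/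
def Fac {σ K : Type} [Field K] (r w : ℕ) (f : MvPolynomial σ K) : Prop :=
  (∃ (l : Fin r → MvPolynomial σ K) (G : MvPolynomial (Fin r) K),
    (∀ a, (l a).totalDegree ≤ 1) ∧ f = aeval l G) ∨
  ∃ A : Matrix (Fin w) (Fin w) (MvPolynomial σ K), (∀ i j, (A i j).totalDegree ≤ 1) ∧ f = A.det

theorem Fac.aeval {σ τ K : Type} [Field K] {r w : ℕ} {f : MvPolynomial σ K} (hf : Fac r w f)
    (θ : σ → MvPolynomial τ K) (hθ : ∀ i, (θ i).totalDegree ≤ 1) :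
    Fac r w (MvPolynomial.aeval θ f) := by
  rcases hf with ⟨l, G, hl, rfl⟩ | ⟨A, hA, rfl⟩
  · refine Or.inl ⟨fun a => MvPolynomial.aeval θ (l a), G, fun a => CircSubst_deg 1 θ hθ _ (hl a), ?_⟩
    exact comp_aeval_apply l (MvPolynomial.aeval θ : MvPolynomial σ K →ₐ[K] _) G
  · refine Or.inr ⟨(MvPolynomial.aeval θ : MvPolynomial σ K →ₐ[K] _).mapMatrix A,
      fun i j => CircSubst_deg 1 θ hθ _ (hA i j), ?_⟩
    exact AlgHom.map_det _ _

theorem Rt_mono {Y Z K : Type} [Fintype Y] [Fintype Z] [Field K] {al be : ℝ} {dd : ℕ}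
    {P P' ρ : ℝ} {V : MvPolynomial (Y ⊕ Z) K} (hP : P ≤ P') (h : Rt al be dd P ρ V) :
    Rt al be dd P' ρ V :=
  fun u v huv hdd => BB.mono (h u v huv hdd) (mul_le_mul_of_nonneg_right hP (Real.exp_pos _).le)

theorem Lr_mono {Y Z K : Type} [Fintype Y] [Fintype Z] [Field K] {al be : ℝ} {dd : ℕ}
    {P P' ρ : ℝ} {V : MvPolynomial (Y ⊕ Z) K} (hP : P ≤ P') (h : Lr al be dd P ρ V) :
    Lr al be dd P' ρ V := by
  obtain ⟨w, hw, hb⟩ := h
  exact ⟨w, hw, fun u v huv hdd =>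
    BB.mono (hb u v huv hdd) (mul_le_mul_of_nonneg_right hP (Real.exp_pos _).le)⟩

/-- Level zero, both kinds of factors. -/
theorem Fac_lev (hLev : StLev) (Y Z : Type) [Fintype Y] [Fintype Z] (K : Type) [Field K]
    [CharZero K] (be : ℝ) (r w dd : ℕ) (V : MvPolynomial (Y ⊕ Z) K)
    (hbe : Real.log (3 / 2) ≤ be) (hV : Fac r w V) (hc : V = 0 ∨ constantCoeff V ≠ 0) :
    Rt (Real.log (3 / 2)) be dd (121 ^ (r + 2 * w)) (Real.log (3 / 2) / 4) V ∧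
      Lr (Real.log (3 / 2)) be dd (121 ^ (r + 2 * w)) (Real.log (3 / 2) / 4) V := by
  rcases hV with ⟨l, G, hl, hV⟩ | ⟨A, hA, hV⟩
  · have h := mainLev0 Y Z K be r dd l G V hbe hl hV hc
    have hP : (121 : ℝ) ^ r ≤ 121 ^ (r + 2 * w) :=
      pow_le_pow_right₀ (by norm_num) (Nat.le_add_right _ _)
    exact ⟨Rt_mono hP h.1, Lr_mono hP h.2⟩
  · have h := hLev Y Z K be w dd A V hbe hA hV hc
    have hP : (121 : ℝ) ^ (2 * w) ≤ 121 ^ (r + 2 * w) :=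
      pow_le_pow_right₀ (by norm_num) (Nat.le_add_left _ _)
    exact ⟨Rt_mono hP h.1, Lr_mono hP h.2⟩

/-- A polynomial in `p` products of `D` powers of factors. -/
theorem TD_term (hLev : StLev) (Y Z : Type) [Fintype Y] [Fintype Z] (K : Type) [Field K]
    [CharZero K] (be κ : ℝ) (p D r w t dd : ℕ) (Q : MvPolynomial (Fin p) K)
    (f : Fin p → Fin D → MvPolynomial (Y ⊕ Z) K) (μ : Fin p → Fin D → ℕ)
    (hbe : Real.log (3 / 2) ≤ be)
    (ht : 1 ≤ t) (hκ : 0 < κ) (hκμ : κ ≤ Real.log (3 / 2) / 16)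
    (hf : ∀ i j, Fac r w (f i j))
    (hc : ∀ i j, f i j = 0 ∨ constantCoeff (f i j) ≠ 0)
    (hthr : (D : ℝ) * 121 ^ (r + 2 * w) ≤ Real.exp (Real.log (3 / 2) / 4 / 2 * t))
    (hcone : ∀ u v : ℕ, 1 ≤ u + v → u + v < t →
      2 * κ * ((u + v : ℕ) : ℝ) ≤ |(u : ℝ) * Real.log (3 / 2) - v * be|)
    (hser : (∑ n ∈ Icc t dd, ((n : ℝ) + 1) * Real.exp (-(Real.log (3 / 2) / 16 * n))) ≤ 1)
    (u v : ℕ) (huv : u + v ≤ dd) :
    BB (Real.log (3 / 2)) be (bc u v (aeval (fun i => ∏ j, f i j ^ μ i j) Q))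
      (((Tr_set (Fin 3 × Fin p) dd).card : ℝ) *
        (((dd : ℝ) + 1) ^ 4 * Real.exp (-(κ * ((u + v : ℕ) : ℝ))))) := by
  have hal : 0 < Real.log (3 / 2 : ℝ) := Real.log_pos (by norm_num)
  have hB : ∀ i, ∃ (x : MvPolynomial (Y ⊕ Z) K) (T : Polynomial K), bc 0 0 x = 0 ∧
      (∀ u v : ℕ, t ≤ u + v → u + v ≤ dd →
        BB (Real.log (3 / 2)) be (bc u v x)
          (Real.exp (-(Real.log (3 / 2) / 4 / 2 * ((u + v : ℕ) : ℝ))))) ∧
      ∀ u v, u + v ≤ dd → bc u v (∏ j, f i j ^ μ i j) =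
        bc u v (Polynomial.aeval x T) := by
    intro i
    refine mainBas Y Z K (Real.log (3 / 2)) be (121 ^ (r + 2 * w)) (Real.log (3 / 2) / 4) D 0 t dd
      (fun j => f i j) univ _ (by positivity) (by positivity) (by omega) ht hthr
      ?_ ?_
    · intro j _
      exact Fac_lev hLev Y Z K be r w dd (f i j) hbe (hf i j) (hc i j)
    · exact Or.inr ⟨fun j => μ i j, fun j _ => mem_univ j, rfl⟩
  choose x T hx0 hxl hxT using hB
  obtain ⟨Q', hQ'⟩ := pr_Comp mainTrunc Y Z K p dd (fun i => ∏ j, f i j ^ μ i j) x T Q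
    hxT
  rw [hQ' u v huv]
  refine Tr_loc D3.pr_BcMul mainBBmul CD.pr_BBsmul mainTrunc (pr_Cone D3.pr_BcMul)
    (pr_Lrg D3.pr_BcMul mainBBmul) Y Z K (Real.log (3 / 2)) be κ (Real.log (3 / 2) / 16) p t dd x
    Q' hκ hκμ hx0 hcone ?_ hser u v huv
  intro a u v h1 h2
  refine BB.mono (hxl a u v h1 h2) (le_of_eq ?_)
  congr 1
  ring

end Pool.Agent.Work.MP_499dc6_lc.TD
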