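import Pool.Agent.Work.MP_499dc6_lc.TD.Term
import Pool.Agent.Work.MP_499dc6_lc.TD.StmtsA

/-!
# Depth three with determinants, algebraic functions: the upper bound
-/

namespace Pool.Agent.Work.MP_499dc6_lc.Fib

open MvPolynomial Finset
open Pool.Agent.Work.MP_499dc6_lc.CD
open Pool.Agent.Work.MP_499dc6_lc.D3
open Pool.Agent.Work.MP_499dc6_lc.TD

open scoped PowerSeries

theorem UA_gperm_map {R S : Type} [CommRing R] [CommRing S] (f : R →+* S) (N : ℕ) :
    MvPolynomial.map f (gperm R N) = gperm S N := by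
  unfold gperm Matrix.permanent
  simp only [map_sum, map_prod, Matrix.of_apply, map_X]

theorem UA_bc {Y Z K : Type} [Fintype Y] [Fintype Z] [Field K] {Δ : ℕ}
    {f : MvPolynomial (Y ⊕ Z) K} (h : HiD Δ f) (a b : ℕ) (hab : a + b ≤ Δ) : bc a b f = 0 := by
  ext m
  rw [coeff_bc, coeff_zero]
  split_ifs with h1
  · exact h m (by rw [deg_eq, h1.1, h1.2]; exact hab)
  · rfl

theorem UA_sub {Y Z K : Type} [Fintype Y] [Fintype Z] [Field K] (a b : ℕ)
    (f g : MvPolynomial (Y ⊕ Z) K) : bc a b (f - g) = bc a b f - bc a b g := by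
  ext m
  rw [coeff_sub, coeff_bc, coeff_bc, coeff_bc, coeff_sub]
  split_ifs
  · rfl
  · rw [sub_zero]

theorem UA_deg {σ R S : Type} [CommSemiring R] [CommSemiring S] (f : R →+* S)
    (p : MvPolynomial σ R) : (MvPolynomial.map f p).totalDegree ≤ p.totalDegree :=
  Finset.sup_mono (support_map_subset _ _)

theorem UA_cc {σ τ K : Type} [Field K] (g : σ → MvPolynomial τ K) (D : MvPolynomial σ K) :
    constantCoeff (aeval g D) = eval (fun v => constantCoeff (g v)) D := by
  induction D using MvPolynomial.induction_on with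
  | C a => simp
  | add p q hp hq => rw [map_add, map_add, map_add, hp, hq]
  | mul_X p i hp => rw [map_mul, map_mul, map_mul, hp, aeval_X, eval_X]

/-- the substitution, over the small field -/
theorem UA_proj (k : Type) [Field k] [CharZero k] (N n kk : ℕ) (hN : 4 * (2 * n + kk) ≤ N)
    (A : Finset (VV n kk)) :
    ∃ (c : Fin N × Fin N → k) (M : Fin N × Fin N → MvPolynomial (VV n kk) k) (c₀ : k), c₀ ≠ 0 ∧
      (∀ v, (M v).totalDegree ≤ 1 ∧ constantCoeff (M v) = 0) ∧
      aeval (fun v => C (c v) + M v) (gperm k N) = C c₀ * PA k n kk A := by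
  classical
  obtain ⟨θ, hθ, c₀, hc₀, hperm⟩ := pr_Scal (D3.pr_Proj D3.pr_GadCancel D3.pr_GadBij) k N n kk hN
  have hex : ∀ v, ∃ (c : k) (M : MvPolynomial (VV n kk) k), M.totalDegree ≤ 1 ∧
      constantCoeff M = 0 ∧ aeval (fun w => if w ∈ A then (X w : MvPolynomial (VV n kk) k⟦X⟧)
        else 0) (θ v) = MvPolynomial.map (PowerSeries.C (R := k)) (C c + M) := by
    intro v
    rcases hθ v with h | h | h | ⟨w, h⟩
    · exact ⟨0, 0, by simp, by simp, by rw [h]; simp⟩
    · exact ⟨1, 0, by simp, by simp, by rw [h]; simp⟩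
    · exact ⟨-1, 0, by simp, by simp, by rw [h]; simp⟩
    · by_cases hw : w ∈ A
      · exact ⟨0, X w, by rw [totalDegree_X], by simp, by rw [h]; simp [hw]⟩
      · exact ⟨0, 0, by simp, by simp, by rw [h]; simp [hw]⟩
  choose c M h1 h2 h3 using hex
  refine ⟨c, M, c₀, hc₀, fun v => ⟨h1 v, h2 v⟩, ?_⟩
  have hinj : Function.Injective (MvPolynomial.map (σ := VV n kk) (PowerSeries.C (R := k))) :=
    MvPolynomial.map_injective _ (PowerSeries.C_injective)
  apply hinj
  have e1 : aeval (fun v => MvPolynomial.map (PowerSeries.C (R := k)) (C (c v) + M v))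
      (MvPolynomial.map (PowerSeries.C (R := k)) (gperm k N)) =
      MvPolynomial.map (PowerSeries.C (R := k)) (aeval (fun v => C (c v) + M v) (gperm k N)) :=
    aeval_map_map _ _ _
  rw [← e1, UA_gperm_map]
  have e2 : (fun v => MvPolynomial.map (PowerSeries.C (R := k)) (C (c v) + M v)) = fun v =>
      aeval (fun w => if w ∈ A then (X w : MvPolynomial (VV n kk) k⟦X⟧) else 0) (θ v) := by
    funext v
    exact (h3 v).symm
  rw [e2]
  have e3 : aeval (fun v => aeval (fun w => if w ∈ A then (X w : MvPolynomial (VV n kk) k⟦X⟧)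
      else 0) (θ v)) (gperm k⟦X⟧ N) = aeval (fun w => if w ∈ A then
        (X w : MvPolynomial (VV n kk) k⟦X⟧) else 0) (aeval θ (gperm k⟦X⟧ N)) :=
    (comp_aeval_apply θ (aeval (fun w => if w ∈ A then (X w : MvPolynomial (VV n kk) k⟦X⟧)
      else 0) : MvPolynomial (VV n kk) k⟦X⟧ →ₐ[k⟦X⟧] _) _).symm
  rw [e3, hperm, map_mul, Up_aeval_C, (pr_PA n kk A).1, map_mul, map_C, (pr_PA n kk A).2.2]

/-- Upper bound for the functional of the component of the permanent at a generic point. -/
theorem TDA_upper (hLev : StLev) (hAL : StAL) (hRG : StRG) (hBP : StBP) (k : Type) [Field k]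
    [CharZero k] (N S p D r w t n kk : ℕ) (κ : ℝ)
    (f : Fin S → Fin p → Fin D → MvPolynomial (Fin N × Fin N) (LaurentSeries k))
    (μ : Fin S → Fin p → Fin D → ℕ) (hf : ∀ i b j, Fac r w (f i b j))
    (T : Fin S → FractionRing (MvPolynomial (Fin N × Fin N) (LaurentSeries k)))
    (hT : ∀ i, IsAlgebraic (Algebra.adjoin (LaurentSeries k) (Set.range fun b =>
      algebraMap (MvPolynomial (Fin N × Fin N) (LaurentSeries k))
        (FractionRing (MvPolynomial (Fin N × Fin N) (LaurentSeries k)))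
        (∏ j, f i b j ^ μ i b j))) (T i))
    (R : MvPolynomial (Fin N × Fin N) k⟦X⟧)
    (h : ∑ i, T i = algebraMap (MvPolynomial (Fin N × Fin N) (LaurentSeries k))
        (FractionRing (MvPolynomial (Fin N × Fin N) (LaurentSeries k)))
        (MvPolynomial.map (algebraMap k⟦X⟧ (LaurentSeries k))
          (gperm k⟦X⟧ N + C PowerSeries.X * R)))
    (hkk : 1 ≤ kk) (hn3 : 3 * kk ≤ n) (hN : 4 * (2 * n + kk) ≤ N) (ht : 1 ≤ t) (hκ : 0 < κ)
    (hκμ : κ ≤ Real.log (3 / 2) / 16)
    (hthr : (D : ℝ) * 121 ^ (r + 2 * w) ≤ Real.exp (Real.log (3 / 2) / 4 / 2 * t))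
    (hcone : ∀ u v : ℕ, 1 ≤ u + v → u + v < t → 2 * κ * ((u + v : ℕ) : ℝ) ≤
      |(u : ℝ) * Real.log (3 / 2) - v * (Real.log (3 / 2) * (n + kk) / n)|)
    (hser : (∑ m ∈ Icc t (2 * (n + kk) + 2 * n),
      ((m : ℝ) + 1) * Real.exp (-(Real.log (3 / 2) / 16 * m))) ≤ 1)
    (A : Finset (VV n kk)) (q1 q2 q3 q4 : ℕ) :
    ∃ G : MvPolynomial (VV n kk) (LaurentSeries k),
      BB (Real.log (3 / 2)) (Real.log (3 / 2) * (n + kk) / n) G
        (S * (((Tr_set (Fin 3 × Fin p) (2 * (n + kk) + 2 * n)).card : ℝ) *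
        ((((2 * (n + kk) + 2 * n : ℕ) : ℝ) + 1) ^ 4 *
          Real.exp (-(κ * ((2 * (n + kk) + 2 * n : ℕ) : ℝ)))))) ∧
      (mat (MvPolynomial.map (Int.castRingHom ℝ) (PA ℤ n kk A)) q1 q2 q3 q4).rank ≤
        (mat G q1 q2 q3 q4).rank := by
  classical
  have := charZero_laurent k
  obtain ⟨φ, hφ⟩ : ∃ φ : k⟦X⟧ →+* LaurentSeries k, φ = algebraMap k⟦X⟧ (LaurentSeries k) :=
    ⟨_, rfl⟩
  have hφi : Function.Injective φ := by
    rw [hφ]
    exact FaithfulSMul.algebraMap_injective _ _
  have hci : Function.Injective (φ.comp (PowerSeries.C (R := k))) :=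
    hφi.comp PowerSeries.C_injective
  rw [← hφ] at h
  obtain ⟨c, M, c₀, hc₀, hM, hperm⟩ := UA_proj k N n kk hN A
  obtain ⟨a, ha⟩ : ∃ a, a = 2 * (n + kk) := ⟨_, rfl⟩
  obtain ⟨b, hb⟩ : ∃ b, b = 2 * n := ⟨_, rfl⟩
  -- the rank polynomial
  obtain ⟨δ, hδ0, hδ⟩ := hRG (CY n kk × CY n kk) (CZ n × CZ n) (Fin N × Fin N) k (gperm k N) c M
    c₀ (PA ℤ n kk A) a b q1 q2 q3 q4 hc₀ (by
      rw [hperm, bc_C_mul, (pr_PA n kk A).2.2, bc_self]
      rw [ha, hb]
      exact (pr_PA n kk A).2.1 _)
  -- the algebraic part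
  obtain ⟨E, hE0, hE⟩ := hAL (LaurentSeries k) (Fin N × Fin N) S p
    (fun i b => ∏ j, f i b j ^ μ i b j) T _ hT h
  -- the base point
  let Dl : Option (Option (Fin S × Fin p × Fin D)) → MvPolynomial (Fin N × Fin N) (LaurentSeries k) :=
    fun o => match o with
      | none => E
      | some none => MvPolynomial.map (φ.comp (PowerSeries.C (R := k))) δ
      | some (some q) => if f q.1 q.2.1 q.2.2 = 0 then 1 else f q.1 q.2.1 q.2.2
  have hDl : ∀ o, Dl o ≠ 0 := by
    intro o
    match o with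
    | none => exact hE0
    | some none =>
      show MvPolynomial.map (φ.comp (PowerSeries.C (R := k))) δ ≠ 0
      intro h0
      apply hδ0
      exact MvPolynomial.map_injective (σ := Fin N × Fin N) _ hci (by rw [h0, map_zero])
    | some (some q) =>
      show (if f q.1 q.2.1 q.2.2 = 0 then 1 else f q.1 q.2.1 q.2.2) ≠ 0
      split_ifs with h0
      · exact one_ne_zero
      · exact h0
  let en := Fintype.equivFin (Option (Option (Fin S × Fin p × Fin D)))
  obtain ⟨x, hx⟩ := hBP k (Fin N × Fin N) _ (fun s => Dl (en.symm s)) (fun s => hDl _)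
  have hx1 : ∀ o, eval (fun v => φ (PowerSeries.C (x v))) (Dl o) ≠ 0 := by
    intro o
    have := hx (en o)
    rw [Equiv.symm_apply_apply] at this
    rw [hφ]
    exact this
  -- the substitution
  let g0 : Fin N × Fin N → MvPolynomial (VV n kk) k := fun v => C (x v) + M v
  let g1 : Fin N × Fin N → MvPolynomial (VV n kk) k⟦X⟧ :=
    fun v => MvPolynomial.map (PowerSeries.C (R := k)) (g0 v)
  let θ1 : Fin N × Fin N → MvPolynomial (VV n kk) (LaurentSeries k) :=
    fun v => MvPolynomial.map φ (g1 v)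
  have hcc : ∀ v, constantCoeff (θ1 v) = φ (PowerSeries.C (x v)) := by
    intro v
    simp only [θ1, g1, g0]
    rw [constantCoeff_map, constantCoeff_map, map_add, constantCoeff_C, (hM v).2, add_zero]
  have hdeg : ∀ v, (θ1 v).totalDegree ≤ 1 := by
    intro v
    refine (UA_deg _ _).trans ((UA_deg _ _).trans ?_)
    refine (totalDegree_add _ _).trans (max_le ?_ (hM v).1)
    rw [totalDegree_C]
    exact Nat.zero_le _
  have heval : ∀ F : MvPolynomial (Fin N × Fin N) (LaurentSeries k),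
      constantCoeff (aeval θ1 F) = eval (fun v => φ (PowerSeries.C (x v))) F := by
    intro F
    rw [UA_cc]
    congr 2
    funext v
    exact hcc v
  obtain ⟨Φ, hΦ⟩ := hE (VV n kk) (aeval θ1) (by rw [heval]; exact hx1 none)
    (2 * (n + kk) + 2 * n)
  obtain ⟨T0, hT0⟩ : ∃ T0, T0 = MvPolynomial.map φ (gperm k⟦X⟧ N + C PowerSeries.X * R) :=
    ⟨_, rfl⟩
  rw [← hT0] at hΦ
  refine ⟨bc a b (aeval θ1 T0), ?_, ?_⟩
  · -- the upper bound
    have h1 := UA_bc hΦ a b (by rw [ha, hb])
    rw [UA_sub, sub_eq_zero, bc_sum] at h1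
    rw [h1]
    refine BB_fin_sum _ fun i => ?_
    have hn0 : (0 : ℝ) < n := by exact_mod_cast (by omega : 0 < n)
    have hbe1 : Real.log (3 / 2) ≤ Real.log (3 / 2) * (n + kk) / n := by
      have hl : 0 ≤ Real.log (3 / 2 : ℝ) := Real.log_nonneg (by norm_num)
      rw [le_div_iff₀ hn0]
      have : (0 : ℝ) ≤ kk := Nat.cast_nonneg _
      nlinarith
    have e1 : (fun b => aeval θ1 (∏ j, f i b j ^ μ i b j)) =
        fun b => ∏ j, aeval θ1 (f i b j) ^ μ i b j := by
      funext b
      rw [map_prod]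
      exact Finset.prod_congr rfl fun j _ => map_pow _ _ _
    rw [e1]
    have hfin := TD_term hLev (CY n kk × CY n kk) (CZ n × CZ n) (LaurentSeries k)
      (Real.log (3 / 2) * (n + kk) / n) κ p D r w t (2 * (n + kk) + 2 * n) (Φ i)
      (fun b j => aeval θ1 (f i b j)) (μ i) hbe1 ht hκ hκμ ?_ ?_ hthr hcone hser a b
      (by rw [ha, hb])
    · refine BB.mono hfin (le_of_eq ?_)
      rw [ha, hb]
    · intro b j
      exact (hf i b j).aeval θ1 hdeg
    · intro b j
      by_cases h8 : f i b j = 0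
      · left
        rw [h8, map_zero]
      · right
        rw [heval]
        have h9 := hx1 (some (some (i, b, j)))
        have h10 : Dl (some (some (i, b, j))) = f i b j := if_neg h8
        rwa [h10] at h9
  · -- the rank
    have h1 : eval x δ ≠ 0 := by
      intro h0
      apply hx1 (some none)
      show eval (fun v => φ (PowerSeries.C (x v)))
        (MvPolynomial.map (φ.comp (PowerSeries.C (R := k))) δ) = 0
      have e2 := MvPolynomial.map_eval (φ.comp (PowerSeries.C (R := k))) x δ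
      rw [h0, map_zero] at e2
      exact e2.symm
    have h2 := hδ x h1 (bc a b (aeval g1 R))
    have e3 : bc a b (aeval θ1 T0) = MvPolynomial.map (algebraMap k⟦X⟧ (LaurentSeries k))
          (MvPolynomial.map (PowerSeries.C (R := k))
            (bc a b (aeval (fun v => C (x v) + M v) (gperm k N))) + C PowerSeries.X *
            bc a b (aeval g1 R)) := by
      rw [hT0, show θ1 = fun v => MvPolynomial.map φ (g1 v) from rfl, aeval_map_map, aeval_lin,
        bc_map, bc_add, bc_C_mul, ← hφ]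
      congr 2
      rw [← bc_map]
      congr 1
      have e4 := aeval_map_map (PowerSeries.C (R := k)) (fun v => C (x v) + M v) (gperm k N)
      rw [UA_gperm_map] at e4
      exact e4
    rw [e3]
    exact h2

end Pool.Agent.Work.MP_499dc6_lc.Fib
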